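import Pool.Agent.Lib.MP_238ec1_gt.Stage

/-!
The main estimate for a relative commutative differential graded algebra.
-/

set_option linter.unusedVariables false
set_option linter.unusedSectionVars false
set_option linter.style.haveILetI false

namespace Pool.Agent.Toral

open MvPolynomial Module TensorProduct

variable {K : Type} [Ring K] [Algebra ℚ K] {𝒜 : ℕ → Submodule ℚ K} [GradedAlgebra 𝒜]

theorem sgn_sgn : sgn 𝒜 * sgn 𝒜 = 1 :=
  K_ext (𝒜 := 𝒜) fun i a ha => by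
    rw [Module.End.mul_apply, sgn_of_mem ha, map_smul, sgn_of_mem ha, smul_smul, ← mul_pow]
    simp

theorem half_sgn {i : ℕ} {a : K} (ha : a ∈ 𝒜 i) :
    (Even i → half (sgn 𝒜) a = a ∧ half (-sgn 𝒜) a = 0) ∧
      (Odd i → half (sgn 𝒜) a = 0 ∧ half (-sgn 𝒜) a = a) := by
  refine ⟨fun h => ⟨?_, ?_⟩, fun h => ⟨?_, ?_⟩⟩ <;>
    simp only [half, LinearMap.smul_apply, LinearMap.add_apply, LinearMap.neg_apply,
      Module.End.one_apply, sgn_of_mem ha, h.neg_one_pow] <;> module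

theorem count_le {d s e p q : Module.End ℚ K} (h : Contr d s) (he : e = 1 - d * s - s * d)
    (pq : p + q = 1) (pp : p * p = p) (ep : e * p = p * e)
    [Module.Finite ℚ ((LinearMap.ker d).map (LinearMap.range d).mkQ)] :
    Module.Finite ℚ (LinearMap.range e) ∧ finrank ℚ (LinearMap.range (e * p))
      + finrank ℚ (LinearMap.range (e * q))
      ≤ finrank ℚ ((LinearMap.ker d).map (LinearMap.range d).mkQ) := by
  have ee : e * e = e := he ▸ h.ee
  have ed : e * d = 0 := he ▸ h.ed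
  have de : d * e = 0 := he ▸ h.de
  have h1 : LinearMap.range e ≤ LinearMap.ker d := by
    rintro _ ⟨x, rfl⟩
    exact DFunLike.congr_fun de x
  let f := (LinearMap.range d).mkQ.submoduleMap (LinearMap.ker d) ∘ₗ Submodule.inclusion h1
  have hf : Function.Injective f := by
    rw [injective_iff_map_eq_zero]
    rintro ⟨_, x, rfl⟩ hx
    obtain ⟨y, hy⟩ :=
      (Submodule.Quotient.mk_eq_zero (LinearMap.range d)).1 (congrArg Subtype.val hx)
    refine Subtype.ext ((DFunLike.congr_fun ee x).symm.trans ?_)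
    change d y = e x at hy
    rw [Module.End.mul_apply, ← hy]
    exact DFunLike.congr_fun ed y
  haveI := Module.Finite.of_injective f hf
  have h2 : ∀ t : Module.End ℚ K, LinearMap.range (e * t) ≤ LinearMap.range e := fun t =>
    LinearMap.range_comp_le_range t e
  haveI := fun t => Submodule.finiteDimensional_of_le (h2 t)
  have h3 : LinearMap.range (e * p) ⊓ LinearMap.range (e * q) = ⊥ := by
    rw [eq_bot_iff]
    rintro _ ⟨⟨x, rfl⟩, y, hy⟩
    obtain rfl : q = 1 - p := eq_sub_of_add_eq' pq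
    have h4 : p * (e * p) = e * p := by rw [← mul_assoc, ← ep, mul_assoc, pp]
    have h5 : p * (e * (1 - p)) = 0 := by
      rw [← mul_assoc, ← ep, mul_assoc, mul_sub, pp, mul_one, sub_self, mul_zero]
    rw [Submodule.mem_bot, ← h4, Module.End.mul_apply, ← hy]
    exact DFunLike.congr_fun h5 y
  refine ⟨inferInstance, ?_⟩
  rw [← Submodule.finrank_sup_add_finrank_inf_eq, h3, finrank_bot, add_zero]
  exact (Submodule.finrank_mono (sup_le (h2 p) (h2 q))).trans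
    (LinearMap.finrank_le_finrank_of_injective hf)

variable {σ : Type} [Fintype σ] [DecidableEq σ]

theorem kill_of_map {F : Type*} [AddCommGroup F] [Module (MvPolynomial σ ℚ) F] [Module ℚ F]
    [IsScalarTower ℚ (MvPolynomial σ ℚ) F] (d : F →ₗ[MvPolynomial σ ℚ] F)
    (h : Module.Finite ℚ ((LinearMap.ker d).map (LinearMap.range d).mkQ)) :
    ∃ (η : MvPolynomial σ ℚ) (n : ℕ), constantCoeff η ≠ 0 ∧ Kills d d η (n + 1) := by
  let f := ((LinearMap.range d).submoduleOf (LinearMap.ker d)).liftQ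
    ((LinearMap.range d).mkQ.submoduleMap (LinearMap.ker d)) fun x hx =>
      Subtype.ext ((Submodule.Quotient.mk_eq_zero _).2 hx)
  have hf : Function.Injective f := LinearMap.ker_eq_bot.1
    (Submodule.ker_liftQ_eq_bot _ _ _ fun x hx =>
      (Submodule.Quotient.mk_eq_zero (LinearMap.range d)).1 (congrArg Subtype.val hx))
  haveI := Module.Finite.of_injective (f.restrictScalars ℚ) hf
  exact kill_of_finite d

theorem retr {t : Module.End ℚ K} (tt : t * t = t) :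
    ∃ (j : MvPolynomial σ ℚ ⊗[ℚ] LinearMap.range t →ₗ[MvPolynomial σ ℚ] MvPolynomial σ ℚ ⊗[ℚ] K)
      (r : MvPolynomial σ ℚ ⊗[ℚ] K →ₗ[MvPolynomial σ ℚ] MvPolynomial σ ℚ ⊗[ℚ] LinearMap.range t),
      (∀ x, j (r x) = Module.End.baseChangeHom ℚ (MvPolynomial σ ℚ) K t x) ∧ ∀ x, r (j x) = x := by
  refine ⟨(LinearMap.range t).subtype.baseChange _, t.rangeRestrict.baseChange _, fun x => ?_,
    fun x => ?_⟩
  · rw [← LinearMap.comp_apply, ← LinearMap.baseChange_comp]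
    rfl
  · have : t.rangeRestrict ∘ₗ (LinearMap.range t).subtype = LinearMap.id := by
      ext ⟨_, y, rfl⟩
      exact DFunLike.congr_fun tt y
    rw [← LinearMap.comp_apply, ← LinearMap.baseChange_comp, this, LinearMap.baseChange_id]
    rfl

theorem leibniz {D : Module.End (MvPolynomial σ ℚ) (MvPolynomial σ ℚ ⊗[ℚ] K)}
    (hL : ∀ i j, ∀ a ∈ 𝒜 i, ∀ b ∈ 𝒜 j, D (1 ⊗ₜ (a * b))
      = D (1 ⊗ₜ a) * (1 ⊗ₜ b) + (-1 : ℚ) ^ i • ((1 ⊗ₜ a) * D (1 ⊗ₜ b)))
    (x y : MvPolynomial σ ℚ ⊗[ℚ] K) :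
    D (x * y) = D x * y + (sgn 𝒜).baseChange (MvPolynomial σ ℚ) x * D y := by
  induction x using B_rec (𝒜 := 𝒜) with
  | hadd x x' h1 h2 => simp only [add_mul, map_add, h1, h2]; abel
  | hsmul c x h1 => simp only [smul_mul_assoc, map_smul, h1, smul_add]
  | h i a ha =>
    induction y using B_rec (𝒜 := 𝒜) with
    | hadd y y' h1 h2 => simp only [mul_add, map_add, h1, h2]; abel
    | hsmul c y h1 => simp only [mul_smul_comm, map_smul, h1, smul_add]
    | h j b hb =>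
      rw [Algebra.TensorProduct.tmul_mul_tmul, mul_one, hL i j a ha b hb,
        LinearMap.baseChange_tmul, sgn_of_mem ha, tmul_smul, smul_mul_assoc]

theorem central (hc : ∀ i j, ∀ a ∈ 𝒜 i, ∀ b ∈ 𝒜 j, a * b = (-1 : ℚ) ^ (i * j) • (b * a))
    (x y : MvPolynomial σ ℚ ⊗[ℚ] K) :
    (half (sgn 𝒜)).baseChange (MvPolynomial σ ℚ) x * y
      = y * (half (sgn 𝒜)).baseChange (MvPolynomial σ ℚ) x := by
  induction x using B_rec (𝒜 := 𝒜) with
  | hadd x x' h1 h2 => simp only [add_mul, mul_add, map_add, h1, h2]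
  | hsmul c x h1 => simp only [smul_mul_assoc, mul_smul_comm, map_smul, h1]
  | h i a ha =>
    induction y using B_rec (𝒜 := 𝒜) with
    | hadd y y' h1 h2 => simp only [add_mul, mul_add, h1, h2]
    | hsmul c y h1 => simp only [smul_mul_assoc, mul_smul_comm, h1]
    | h j b hb =>
      rw [LinearMap.baseChange_tmul]
      rcases Nat.even_or_odd i with h | h
      · rw [((half_sgn ha).1 h).1, Algebra.TensorProduct.tmul_mul_tmul,
          Algebra.TensorProduct.tmul_mul_tmul, hc i j a ha b hb, (h.mul_right j).neg_one_pow,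
          one_smul]
      · rw [((half_sgn ha).2 h).1, tmul_zero, zero_mul, mul_zero]

theorem cdga_bound (h4 : 4 ≤ Fintype.card σ) [Nontrivial K]
    (hc : ∀ i j, ∀ a ∈ 𝒜 i, ∀ b ∈ 𝒜 j, a * b = (-1 : ℚ) ^ (i * j) • (b * a))
    {D : Module.End (MvPolynomial σ ℚ) (MvPolynomial σ ℚ ⊗[ℚ] K)}
    (hdeg : ∀ i, ∀ a ∈ 𝒜 i, D (1 ⊗ₜ a) ∈ Submodule.span ℚ {z | ∃ (m : σ →₀ ℕ) (j : ℕ), ∃ b ∈ 𝒜 j,
      2 * (∑ l, m l) + j = i + 1 ∧ z = monomial m (1 : ℚ) ⊗ₜ[ℚ] b})
    (hL : ∀ i j, ∀ a ∈ 𝒜 i, ∀ b ∈ 𝒜 j, D (1 ⊗ₜ (a * b))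
      = D (1 ⊗ₜ a) * (1 ⊗ₜ b) + (-1 : ℚ) ^ i • ((1 ⊗ₜ a) * D (1 ⊗ₜ b)))
    (DD : D * D = 0) {d : Module.End ℚ K} (hd : ∀ a, d a = eps K σ (D (1 ⊗ₜ a)))
    (hfin : Module.Finite ℚ ((LinearMap.ker D).map (LinearMap.range D).mkQ))
    [Module.Finite ℚ ((LinearMap.ker d).map (LinearMap.range d).mkQ)] :
    4 * Fintype.card σ ≤ finrank ℚ ((LinearMap.ker d).map (LinearMap.range d).mkQ)
      + 2 * (Fintype.card σ % 2) := by
  have sp := fun i a ha => of_span (hdeg i a ha)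
  simp only [← hd] at sp
  have d1 : ∀ i, ∀ a ∈ 𝒜 i, d a ∈ 𝒜 (i + 1) := fun i a ha => (sp i a ha).1
  have DD' : ∀ x, D (D x) = 0 := DFunLike.congr_fun DD
  have dd : d * d = 0 := K_ext (𝒜 := 𝒜) fun i a ha => by
    have h1 := map_mSub D (sp i a ha).2.2.1
    rw [map_sub, DD', zero_sub, neg_mem_iff] at h1
    exact (hd _).trans (eps_mSub h1)
  obtain ⟨s, hs, s1, s0⟩ := exists_contr d1 dd
  obtain ⟨e, he⟩ : ∃ e, e = 1 - d * s - s * d := ⟨_, rfl⟩
  have e1 : ∀ i, ∀ a ∈ 𝒜 i, e a ∈ 𝒜 i := fun i a ha => by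
    rw [he]
    refine sub_mem (sub_mem ha ?_) (s1 i _ (d1 i a ha))
    change d (s a) ∈ _
    cases i with
    | zero => rw [s0 a ha, map_zero]; exact zero_mem _
    | succ i => exact d1 i _ (s1 i a ha)
  have ee : e * e = e := he ▸ hs.ee
  have de : d * e = 0 := he ▸ hs.de
  let bc := Module.End.baseChangeHom ℚ (MvPolynomial σ ℚ) K
  have bct : ∀ (f : Module.End ℚ K) (a : K), bc f (1 ⊗ₜ a) = 1 ⊗ₜ f a := fun f a => rfl
  have D1 : D 1 = 0 := by
    have := hL 0 0 1 (SetLike.one_mem_graded 𝒜) 1 (SetLike.one_mem_graded 𝒜)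
    rw [mul_one, pow_zero, one_smul, ← Algebra.TensorProduct.one_def, mul_one, one_mul] at this
    exact left_eq_add.1 this
  have eo : e 1 = 1 := by
    have h1 : d 1 = 0 := by rw [hd, ← Algebra.TensorProduct.one_def, D1, map_zero]
    simp [he, h1, s0 1 (SetLike.one_mem_graded 𝒜)]
  -- the perturbation
  have δ1 : ∀ j, ∀ x ∈ Fil 𝒜 σ (j + 1), (D - bc d) x ∈ Fil 𝒜 σ j := fun j =>
    Fil_map _ _ fun i hi a ha => Fil_mono (Nat.le_of_lt_succ hi) (sp i a ha).2.1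
  have δ2 : ∀ x, (D - bc d) x ∈ mSub σ (MvPolynomial σ ℚ ⊗[ℚ] K) := fun x => by
    induction x using B_rec (𝒜 := 𝒜) with
    | hadd x y h1 h2 => rw [map_add]; exact add_mem h1 h2
    | hsmul c x h1 => rw [map_smul]; exact Submodule.smul_mem _ _ h1
    | h i a ha => exact (sp i a ha).2.2.1
  have δ3 : ∀ j, ∀ x ∈ Fil 𝒜 σ j, bc s x ∈ Fil 𝒜 σ j := fun j =>
    Fil_map _ _ fun i hi a ha => by
      rw [bct]
      cases i with
      | zero => rw [s0 a ha, tmul_zero]; exact zero_mem _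
      | succ i => exact mem_Fil (by omega) (s1 i a ha)
  obtain ⟨U, U1, U2, U3⟩ := exists_inv_of_nilpotent ((D - bc d) * bc s) (Fil 𝒜 σ) Fil_zero
    (fun j x hx => δ1 j _ (δ3 _ x hx)) (fun j => Fil_mono (Nat.le_succ j)) exists_Fil
  have hs' : Contr (bc d) (bc s) :=
    ⟨by rw [← map_mul, hs.dd, map_zero], by rw [← map_mul, ← map_mul, hs.dsd],
      by rw [← map_mul, ← map_mul, hs.sds], by rw [← map_mul, hs.ss, map_zero]⟩
  obtain ⟨p1, p2, p3⟩ := pert hs' DD U1 U2 (e := bc e) (by simp [he])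
  obtain ⟨I, hI⟩ : ∃ I, I = (1 - bc s * U * D) * bc e := ⟨_, rfl⟩
  rw [← hI] at p1 p3
  -- signs
  have SS : sgn 𝒜 * sgn 𝒜 = 1 := sgn_sgn
  have SS' : -sgn 𝒜 * -sgn 𝒜 = 1 := neg_inv SS
  have Sd : d * sgn 𝒜 = -sgn 𝒜 * d := K_ext (𝒜 := 𝒜) fun i a ha => by
    simp [sgn_of_mem ha, sgn_of_mem (d1 i a ha), pow_succ]
  have Ss : s * sgn 𝒜 = -sgn 𝒜 * s := K_ext (𝒜 := 𝒜) fun i a ha => by
    cases i with
    | zero => simp [sgn_of_mem ha, s0 a ha]
    | succ i => simp [sgn_of_mem ha, sgn_of_mem (s1 i a ha), pow_succ]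
  have Se : e * sgn 𝒜 = sgn 𝒜 * e := K_ext (𝒜 := 𝒜) fun i a ha => by
    simp [sgn_of_mem ha, sgn_of_mem (e1 i a ha)]
  have SD : D * bc (sgn 𝒜) = -bc (sgn 𝒜) * D := B_ext (𝒜 := 𝒜) fun i a ha => by
    change D (1 ⊗ₜ sgn 𝒜 a) = -(sgn 𝒜).baseChange _ (D (1 ⊗ₜ a))
    rw [(sp i a ha).2.2.2, sgn_of_mem ha, tmul_smul, LinearMap.map_smul_of_tower, pow_succ]
    module
  have bn : bc (-sgn 𝒜) = -bc (sgn 𝒜) := map_neg bc _
  have Sd' : bc d * bc (sgn 𝒜) = -bc (sgn 𝒜) * bc d := by rw [← bn, ← map_mul, ← map_mul, Sd]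
  have Ss' : bc s * bc (sgn 𝒜) = -bc (sgn 𝒜) * bc s := by rw [← bn, ← map_mul, ← map_mul, Ss]
  have Se' : bc e * bc (sgn 𝒜) = bc (sgn 𝒜) * bc e := by rw [← map_mul, ← map_mul, Se]
  have SU := (comm_of_inv U1 U2 (comm_pert (D := D) SD Sd' Ss')).symm
  have bh : ∀ t, bc (half t) = half (bc t) := fun t => by simp [half]
  have bS : bc (sgn 𝒜) * bc (sgn 𝒜) = 1 := by rw [← map_mul, SS, map_one]
  have bS' : -bc (sgn 𝒜) * -bc (sgn 𝒜) = 1 := neg_inv (S := bc (sgn 𝒜)) bS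
  have ep : e * half (sgn 𝒜) = half (sgn 𝒜) * e := half_comm Se
  have t0 := idem_mul ee (half_half SS) ep
  have t1 := idem_mul ee (half_half SS') (half_comm (comm_neg Se))
  obtain ⟨j0, r0, jr0, rj0⟩ := retr (σ := σ) t0
  obtain ⟨j1, r1, jr1, rj1⟩ := retr (σ := σ) t1
  simp only [map_mul, Module.End.mul_apply] at jr0 jr1
  rw [bh] at jr0
  rw [bh, bn] at jr1
  have EE : bc e * bc e = bc e := by rw [← map_mul, ee]
  obtain ⟨a0, b1, c0, q0, w0⟩ := side hI p1 p2 p3 EE (half_add (S := bc (sgn 𝒜)))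
    (half_half (S := bc (sgn 𝒜)) bS) (half_comm (T := bc e) Se') (half_comm (T := U) SU)
    (half_comm (T := D) SD) (half_comm (T := bc s) (anti_neg (T := bc s) Ss')) jr0 rj0 jr1 rj1
  obtain ⟨a1, b0, c1, q1, w1⟩ := side hI p1 p2 p3 EE
    ((add_comm _ _).trans (half_add (S := bc (sgn 𝒜)))) (half_half (S := -bc (sgn 𝒜)) bS')
    (half_comm (T := bc e) (comm_neg (T := bc e) Se')) (half_comm (T := U) (comm_neg (T := U) SU))
    (half_comm (T := D) (anti_neg (T := D) SD)) (half_comm (T := bc s) Ss') jr1 rj1 jr0 rj0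
  obtain ⟨fin, cnt⟩ := count_le hs he half_add (half_half SS) ep
  haveI : ∀ t : Module.End ℚ K, Module.Finite ℚ (LinearMap.range (e * t)) := fun t =>
    Submodule.finiteDimensional_of_le (LinearMap.range_comp_le_range t e)
  obtain ⟨η, n0, hη, hk⟩ := kill_of_map D hfin
  -- the top class
  obtain ⟨n, ⟨ω, ω1, ω2⟩, hn⟩ := exists_top e1 (eo.trans_ne one_ne_zero)
  obtain ⟨φ, hφ⟩ := Module.Projective.exists_dual_eq_one ℚ ω2
  let fn : MvPolynomial σ ℚ ⊗[ℚ] K →ₗ[MvPolynomial σ ℚ] MvPolynomial σ ℚ :=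
    (Algebra.linearMap ℚ _ ∘ₗ φ ∘ₗ GradedAlgebra.proj 𝒜 n ∘ₗ e).liftBaseChange _
  have f1 : ∀ a, fn (1 ⊗ₜ a) = C (φ (GradedAlgebra.proj 𝒜 n (e a))) := fun a =>
    LinearMap.liftBaseChange_one_tmul _ _ _
  have f2 : ∀ x, fn (bc e x) = fn x := DFunLike.congr_fun (show fn ∘ₗ bc e = fn from
    B_ext (𝒜 := 𝒜) fun i a ha => by
      rw [LinearMap.comp_apply, bct, f1, f1, ← Module.End.mul_apply e e, ee])
  have De : ∀ x, D (bc e x) = (D - bc d) (bc e x) := fun x => by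
    rw [LinearMap.sub_apply, ← Module.End.mul_apply (bc d), ← map_mul, de, map_zero,
      LinearMap.zero_apply, sub_zero]
  have Dm : ∀ x, bc e x = x → D x ∈ mSub σ (MvPolynomial σ ℚ ⊗[ℚ] K) := fun x hx => by
    rw [← hx, De]
    exact δ2 _
  have f3 : ∀ x, fn (U (D (bc e x))) = 0 := DFunLike.congr_fun
    (show fn ∘ₗ U ∘ₗ D ∘ₗ bc e = 0 from B_ext (𝒜 := 𝒜) fun i a ha => by
      change fn (U (D (bc e (1 ⊗ₜ a)))) = 0
      rcases lt_or_ge n i with h | h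
      · simp only [bct, hn i h a ha, tmul_zero, map_zero]
      · refine Fil_map fn ⊥ (fun l hl b hb => ?_) _ (U3 n _ ?_)
        · rw [f1, proj_ne (e1 l b hb) hl.ne, map_zero, map_zero]
          rfl
        · rw [De]
          exact δ1 n _ (mem_Fil (Nat.lt_succ_of_le h) (e1 i a ha)))
  have f4 : ∀ x, fn (U (I x)) = fn x := fun x => by
    rw [← f2, ← f2 x]
    exact congrArg fn (DFunLike.congr_fun p1 x)
  have f5 : fn (1 ⊗ₜ ω) = 1 := by rw [f1, proj_same (e1 n ω ω1), hφ, map_one]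
  have key := stage h4 DD' hη hk (I ∘ₗ j0) (I ∘ₗ j1) (r0 ∘ₗ U) (r1 ∘ₗ U) (r1 ∘ₗ U ∘ₗ D ∘ₗ j0)
    (r0 ∘ₗ U ∘ₗ D ∘ₗ j1) a0 a1 b0 b1 c0 c1
    (fun x y => by
      rw [leibniz hL, LinearMap.comp_apply, ← q0]
      congr 2
      exact DFunLike.congr_fun (mul_half (S := bc (sgn 𝒜)) bS) _)
    (fun x y => by
      rw [leibniz hL, LinearMap.comp_apply, ← q1, sub_eq_add_neg]
      refine congrArg _ (Eq.trans ?_ (neg_mul _ (D y)))
      congr 1
      exact neg_eq_iff_eq_neg.1 (DFunLike.congr_fun (mul_half (S := -bc (sgn 𝒜)) bS') _))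
    (fun x y => by
      rw [LinearMap.comp_apply, ← q0, ← bh]
      exact central hc _ _)
    (fun x => map_mSub r1 (map_mSub U (Dm _ (w0 x))))
    (fun x => map_mSub r0 (map_mSub U (Dm _ (w1 x))))
    (z0 := r0 1)
    (by
      rw [LinearMap.comp_apply, jr0, ← bh, Algebra.TensorProduct.one_def, bct, bct,
        ((half_sgn (SetLike.one_mem_graded 𝒜)).1 Even.zero).1, eo, hI, Module.End.mul_apply, bct,
        eo, ← Algebra.TensorProduct.one_def]
      simp [D1])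
    (fn ∘ₗ U) (fun y => by
      change fn (U (D y)) = 0
      rw [← f2, ← f3 (U y), ← f2 (U _)]
      exact congrArg fn (DFunLike.congr_fun p2 y))
    (by
      rcases Nat.even_or_odd n with h | h
      · refine Or.inl ⟨r0 (1 ⊗ₜ ω), ?_⟩
        change fn (U (I (j0 _))) = 1
        rw [f4, jr0, f2, ← bh, bct, ((half_sgn ω1).1 h).1, f5]
      · refine Or.inr ⟨r1 (1 ⊗ₜ ω), ?_⟩
        change fn (U (I (j1 _))) = 1
        rw [f4, jr1, f2, ← bn, ← bh, bct, ((half_sgn ω1).2 h).2, f5])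
  rw [Module.finrank_baseChange, Module.finrank_baseChange] at key
  omega

end Pool.Agent.Toral
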