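import Pool.Agent.Lib.MP_238ec1_gt.Mono

/-!
The Frobenius argument: a Koszul 2-cocycle on a domain of dimension at least three does not
restrict to the socle class of a plane.
-/

set_option linter.unusedVariables false
set_option linter.unusedSectionVars false
set_option linter.style.haveILetI false

namespace Pool.Agent.Toral

open MvPolynomial

theorem bilin_cocycle {A σ : Type*} [CommRing A] [Fintype σ] {f : σ → A} {α : σ → σ → A}
    (hα : ∀ i j l, f i * α j l - f j * α i l + f l * α i j = 0) (a b c : σ → A) :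
    (∑ i, f i * a i) * (∑ j, ∑ l, b j * c l * α j l)
      - (∑ j, f j * b j) * (∑ i, ∑ l, a i * c l * α i l)
      + (∑ l, f l * c l) * (∑ i, ∑ j, a i * b j * α i j) = 0 := by
  have h1 : (∑ i, f i * a i) * (∑ j, ∑ l, b j * c l * α j l)
      = ∑ i, ∑ j, ∑ l, a i * b j * c l * (f i * α j l) := by
    rw [Finset.sum_mul]
    refine Finset.sum_congr rfl fun i _ => ?_
    rw [Finset.mul_sum]
    refine Finset.sum_congr rfl fun j _ => ?_
    rw [Finset.mul_sum]
    exact Finset.sum_congr rfl fun l _ => by ring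
  have h2 : (∑ j, f j * b j) * (∑ i, ∑ l, a i * c l * α i l)
      = ∑ i, ∑ j, ∑ l, a i * b j * c l * (f j * α i l) := by
    rw [Finset.mul_sum]
    refine Finset.sum_congr rfl fun i _ => ?_
    rw [Finset.sum_mul]
    refine Finset.sum_congr rfl fun j _ => ?_
    rw [Finset.mul_sum]
    exact Finset.sum_congr rfl fun l _ => by ring
  have h3 : (∑ l, f l * c l) * (∑ i, ∑ j, a i * b j * α i j)
      = ∑ i, ∑ j, ∑ l, a i * b j * c l * (f l * α i j) := by
    rw [Finset.mul_sum]
    refine Finset.sum_congr rfl fun i _ => ?_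
    rw [Finset.mul_sum]
    refine Finset.sum_congr rfl fun j _ => ?_
    rw [Finset.sum_mul]
    exact Finset.sum_congr rfl fun l _ => by ring
  rw [h1, h2, h3, ← Finset.sum_sub_distrib, ← Finset.sum_add_distrib]
  refine Finset.sum_eq_zero fun i _ => ?_
  rw [← Finset.sum_sub_distrib, ← Finset.sum_add_distrib]
  refine Finset.sum_eq_zero fun j _ => ?_
  rw [← Finset.sum_sub_distrib, ← Finset.sum_add_distrib]
  refine Finset.sum_eq_zero fun l _ => ?_
  linear_combination (a i * b j * c l) * hα i j l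

variable {k A : Type*} [Field k] [CommRing A] [IsDomain A] [Algebra k A]

/-- Noether normalisation centred at a rational point. -/
theorem noether_centred [Algebra.FiniteType k A] (ev : A →ₐ[k] k) :
    ∃ (s : ℕ) (g : MvPolynomial (Fin s) k →ₐ[k] A), Function.Injective g ∧ g.Finite ∧
      ∀ a, ev (g (X a)) = 0 := by
  obtain ⟨s, g, g1, g2⟩ := exists_finite_inj_algHom_of_fg k A
  let l : Fin s → k := fun a => ev (g (X a))
  let t : MvPolynomial (Fin s) k →ₐ[k] MvPolynomial (Fin s) k := aeval fun a => X a - C (l a)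
  let t' : MvPolynomial (Fin s) k →ₐ[k] MvPolynomial (Fin s) k := aeval fun a => X a + C (l a)
  have e1 : t.comp t' = AlgHom.id _ _ := algHom_ext fun a => by simp [t, t']
  have e2 : t'.comp t = AlgHom.id _ _ := algHom_ext fun a => by simp [t, t']
  have hs : Function.Surjective t := fun x => ⟨t' x, DFunLike.congr_fun e1 x⟩
  have hi : Function.Injective t :=
    Function.LeftInverse.injective (g := t') fun x => DFunLike.congr_fun e2 x
  refine ⟨s, g.comp t, g1.comp hi, g2.comp (AlgHom.Finite.of_surjective t hs), fun a => ?_⟩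
  simp [t, l]

theorem three_le {s : ℕ} (g : MvPolynomial (Fin s) k →ₐ[k] A) (g2 : g.Finite)
    (ι : MvPolynomial (Fin 2) k →ₐ[k] A) (ρ : A →ₐ[k] MvPolynomial (Fin 2) k)
    (hρι : ∀ d, ρ (ι d) = d) (hker : ∃ z, z ≠ 0 ∧ ρ z = 0) : 3 ≤ s := by
  letI := g.toRingHom.toAlgebra
  haveI : Module.Finite (MvPolynomial (Fin s) k) A := g2
  let φ : MvPolynomial (Fin 2) k →ₐ[k] MvPolynomial (Fin 2) k := aeval ![0, X 1]
  let P1 : Ideal A := RingHom.ker ρ
  let P2 : Ideal A := RingHom.ker (φ.comp ρ)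
  let P3 : Ideal A := RingHom.ker ((constantCoeff : MvPolynomial (Fin 2) k →+* k).comp ρ.toRingHom)
  haveI : P1.IsPrime := RingHom.ker_isPrime _
  haveI : P2.IsPrime := RingHom.ker_isPrime _
  haveI : P3.IsPrime := RingHom.ker_isPrime _
  have h01 : (⊥ : Ideal A) < P1 := by
    obtain ⟨z, z1, z2⟩ := hker
    exact bot_lt_iff_ne_bot.2 fun h => z1 (by
      have : z ∈ P1 := z2
      rwa [h, Ideal.mem_bot] at this)
  have h12 : P1 < P2 := by
    refine SetLike.lt_iff_le_and_exists.2 ⟨fun x hx => ?_, ι (X 0), ?_, ?_⟩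
    · have : ρ x = 0 := hx
      simp [P2, RingHom.mem_ker, this]
    · simp [P2, RingHom.mem_ker, hρι, φ]
    · simp [P1, RingHom.mem_ker, hρι]
  have h23 : P2 < P3 := by
    refine SetLike.lt_iff_le_and_exists.2 ⟨fun x hx => ?_, ι (X 1), ?_, ?_⟩
    · have h1 : φ (ρ x) = 0 := hx
      have h2 : (constantCoeff : MvPolynomial (Fin 2) k →+* k).comp φ.toRingHom = constantCoeff := by
        refine ringHom_ext (fun r => by simp [φ]) fun i => ?_
        fin_cases i <;> simp [φ]
      have h3 := DFunLike.congr_fun h2 (ρ x)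
      simp only [RingHom.comp_apply, AlgHom.toRingHom_eq_coe, RingHom.coe_coe, h1, map_zero] at h3
      simp [P3, RingHom.mem_ker, ← h3]
    · simp [P3, RingHom.mem_ker, hρι]
    · simp [P2, RingHom.mem_ker, hρι, φ]
  let am := algebraMap (MvPolynomial (Fin s) k) A
  have c01 := Ideal.height_add_one_le_of_lt_of_isPrime (Ideal.IsIntegral.comap_lt_comap
    (R := MvPolynomial (Fin s) k) h01)
  have c12 := Ideal.height_add_one_le_of_lt_of_isPrime (Ideal.IsIntegral.comap_lt_comap
    (R := MvPolynomial (Fin s) k) h12)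
  have c23 := Ideal.height_add_one_le_of_lt_of_isPrime (Ideal.IsIntegral.comap_lt_comap
    (R := MvPolynomial (Fin s) k) h23)
  have h3 : (3 : ℕ∞) ≤ (P3.comap am).height := by
    calc (3 : ℕ∞) = 0 + 1 + 1 + 1 := by norm_num
      _ ≤ ((⊥ : Ideal A).comap am).height + 1 + 1 + 1 := by gcongr; exact zero_le
      _ ≤ (P1.comap am).height + 1 + 1 := by gcongr
      _ ≤ (P2.comap am).height + 1 := by gcongr
      _ ≤ _ := c23
  have h4 := (P3.comap am).height_le_ringKrullDim_of_isPrime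
  rw [MvPolynomial.ringKrullDim_of_isNoetherianRing, ringKrullDim_eq_zero_of_field] at h4
  have h5 : ((3 : ℕ∞) : WithBot ℕ∞) ≤ ((s : ℕ∞) : WithBot ℕ∞) := by
    refine (WithBot.coe_le_coe.2 h3).trans (h4.trans ?_)
    simp
  exact_mod_cast h5

/-- Krull's intersection theorem at a prime. -/
theorem exists_not_mem_pow {A : Type*} [CommRing A] [IsDomain A] [IsNoetherianRing A] (Q : Ideal A)
    [Q.IsPrime] {c : A} (hc : c ≠ 0) : ∃ n, ∀ s, s ∉ Q → s * c ∉ Q ^ n := by
  by_contra hcon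
  push Not at hcon
  let L := Localization.AtPrime Q
  have h1 : algebraMap A L c ∈ ⨅ n : ℕ, (IsLocalRing.maximalIdeal L) ^ n := by
    rw [Ideal.mem_iInf]
    intro n
    obtain ⟨s, s1, s2⟩ := hcon n
    have h2 : algebraMap A L (s * c) ∈ (IsLocalRing.maximalIdeal L) ^ n := by
      rw [← Localization.AtPrime.map_eq_maximalIdeal, ← Ideal.map_pow]
      exact Ideal.mem_map_of_mem _ s2
    have hu : IsUnit (algebraMap A L s) := IsLocalization.map_units L (⟨s, s1⟩ : Q.primeCompl)
    rw [map_mul] at h2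
    exact (Ideal.unit_mul_mem_iff_mem _ hu).1 h2
  rw [Ideal.iInf_pow_eq_bot_of_isLocalRing _ (IsLocalRing.maximalIdeal.isMaximal L).ne_top,
    Ideal.mem_bot] at h1
  exact hc (IsLocalization.injective L Q.primeCompl_le_nonZeroDivisors (by simpa using h1))

/-- A linear form over the plane that sees `c` and kills a power of the kernel. -/
theorem exists_form [Algebra.FiniteType k A]
    (ι : MvPolynomial (Fin 2) k →ₐ[k] A) (ρ : A →ₐ[k] MvPolynomial (Fin 2) k)
    (hρι : ∀ d, ρ (ι d) = d) {c : A} (hc : c ≠ 0) :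
    ∃ (n : ℕ) (θ : A →+ MvPolynomial (Fin 2) k), θ c ≠ 0 ∧ (∀ d x, θ (ι d * x) = d * θ x) ∧
      ∀ y x, ρ y = 0 → ∀ q, n ≤ q → θ (y ^ q * x) = 0 := by
  haveI : IsNoetherianRing A := Algebra.FiniteType.isNoetherianRing k A
  let Q : Ideal A := RingHom.ker ρ
  haveI : Q.IsPrime := RingHom.ker_isPrime _
  obtain ⟨n, hn⟩ := exists_not_mem_pow Q hc
  letI := ι.toRingHom.toAlgebra
  haveI : IsScalarTower k (MvPolynomial (Fin 2) k) A :=
    IsScalarTower.of_algebraMap_eq fun x => (ι.commutes x).symm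
  haveI : Algebra.FiniteType (MvPolynomial (Fin 2) k) A :=
    Algebra.FiniteType.of_restrictScalars_finiteType k _ A
  haveI : Algebra.IsIntegral (MvPolynomial (Fin 2) k) (A ⧸ Q ^ n) := ⟨fun x => by
    obtain ⟨a, rfl⟩ := Ideal.Quotient.mk_surjective x
    have e : Ideal.Quotient.mk (Q ^ n) a = algebraMap (MvPolynomial (Fin 2) k) (A ⧸ Q ^ n) (ρ a)
        + Ideal.Quotient.mk (Q ^ n) (a - ι (ρ a)) := by
      rw [map_sub]
      change _ = Ideal.Quotient.mk (Q ^ n) (ι (ρ a)) + _
      ring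
    rw [e]
    refine isIntegral_algebraMap.add (IsIntegral.of_pow (Nat.succ_pos n) ?_)
    have : Ideal.Quotient.mk (Q ^ n) (a - ι (ρ a)) ^ n.succ = 0 := by
      rw [← map_pow, Ideal.Quotient.eq_zero_iff_mem, pow_succ]
      exact Ideal.mul_mem_right _ _ (Ideal.pow_mem_pow (by simp [Q, RingHom.mem_ker, hρι]) n)
    rw [this]
    exact isIntegral_zero⟩
  haveI : Module.Finite (MvPolynomial (Fin 2) k) (A ⧸ Q ^ n) := Algebra.IsIntegral.finite
  obtain ⟨θ, hθ⟩ := exists_dual_ne_zero (C := MvPolynomial (Fin 2) k) (M := A ⧸ Q ^ n)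
    (x := Ideal.Quotient.mk (Q ^ n) c) fun a ha h0 => by
      have : Ideal.Quotient.mk (Q ^ n) (ι a * c) = 0 := h0
      rw [Ideal.Quotient.eq_zero_iff_mem] at this
      exact hn _ (by simpa [Q, RingHom.mem_ker, hρι] using ha) this
  refine ⟨n, θ.toAddMonoidHom.comp (Ideal.Quotient.mk (Q ^ n)).toAddMonoidHom, hθ,
    fun d x => ?_, fun y x hy q hq => ?_⟩
  · exact θ.map_smul d (Ideal.Quotient.mk (Q ^ n) x)
  · have : Ideal.Quotient.mk (Q ^ n) (y ^ q * x) = 0 := by
      rw [Ideal.Quotient.eq_zero_iff_mem]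
      exact Ideal.mul_mem_right _ _ (Ideal.pow_le_pow_right hq (Ideal.pow_mem_pow hy q))
    change θ (Ideal.Quotient.mk (Q ^ n) (y ^ q * x)) = 0
    rw [this, map_zero]

theorem plane_final (p : ℕ) [Fact p.Prime] [CharP k p] {N e : ℕ}
    {c η κ0 κ1 b0 b1 : MvPolynomial (Fin 2) k} (hc : c ≠ 0) (hη : constantCoeff η ≠ 0)
    (he : c.totalDegree < p ^ e)
    (h : (η * (X 0 * X 1) ^ N + X 0 ^ (N + 1) * κ0 + X 1 ^ (N + 1) * κ1) ^ p ^ e * c
      = (X 0 ^ (N + 1)) ^ p ^ e * b1 - (X 1 ^ (N + 1)) ^ p ^ e * b0) : False := by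
  classical
  obtain ⟨a, -, ha⟩ := exists_eq_sum_of_mem_PI (T := Set.univ) (n := 1)
    (mem_PI_one_univ (p := η - C (constantCoeff η)) (by simp))
  rw [Fin.sum_univ_two] at ha
  set η0 := constantCoeff η
  have hη' : η = C η0 + X 0 * a 0 + X 1 * a 1 := by linear_combination ha
  rw [hη', add_pow_char_pow, add_pow_char_pow, mul_pow, add_pow_char_pow, add_pow_char_pow] at h
  set q := p ^ e
  have hm : (X 0 ^ (N * q) * (X 1 ^ (N * q) * (C (η0 ^ q) * c)) : MvPolynomial (Fin 2) k)
      ∈ PI k ((N + 1) * q) (Set.univ : Set (Fin 2)) := by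
    have e1 : (X 0 ^ (N * q) * (X 1 ^ (N * q) * (C (η0 ^ q) * c)) : MvPolynomial (Fin 2) k)
        = X 0 ^ ((N + 1) * q) * (b1 - κ0 ^ q * c - a 0 ^ q * X 1 ^ (N * q) * c)
          + X 1 ^ ((N + 1) * q) * (-b0 - κ1 ^ q * c - a 1 ^ q * X 0 ^ (N * q) * c) := by
      rw [map_pow]
      simp only [mul_pow, ← pow_mul] at h
      simp only [add_mul, one_mul, pow_add] at h ⊢
      linear_combination h
    rw [e1]
    exact Ideal.add_mem _ (Ideal.mul_mem_right _ _ (pow_mem_PI trivial))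
      (Ideal.mul_mem_right _ _ (pow_mem_PI trivial))
  rw [mem_PI] at hm
  obtain ⟨m, hm0⟩ := ne_zero_iff.1 hc
  obtain ⟨i, -, hi⟩ := hm (Finsupp.single 0 (N * q) + (Finsupp.single 1 (N * q) + m)) (by
    rw [mem_support_iff, X_pow_eq_monomial, X_pow_eq_monomial, coeff_monomial_mul,
      coeff_monomial_mul, coeff_C_mul, one_mul, one_mul]
    exact mul_ne_zero (pow_ne_zero _ hη) hm0)
  have h1 : m i ≤ c.totalDegree :=
    (monomial_le_degreeOf i (mem_support_iff.2 hm0)).trans (degreeOf_le_totalDegree c i)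
  have h2 : (Finsupp.single 0 (N * q) + (Finsupp.single 1 (N * q) + m) : Fin 2 →₀ ℕ) i
      = N * q + m i := by
    fin_cases i <;> simp
  rw [h2, add_mul, one_mul] at hi
  omega

theorem core {σ : Type*} [Fintype σ] (p : ℕ) [Fact p.Prime] [CharP k p] [Algebra.FiniteType k A]
    (ι : MvPolynomial (Fin 2) k →ₐ[k] A) (ρ : A →ₐ[k] MvPolynomial (Fin 2) k)
    (hρι : ∀ d, ρ (ι d) = d) (hker : ∃ z, z ≠ 0 ∧ ρ z = 0) {f : σ → A}
    (hf : ∀ z, constantCoeff (ρ z) = 0 → ∃ (M : ℕ) (c : σ → A), z ^ M = ∑ i, f i * c i)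
    {i0 i1 : σ} {N : ℕ} (h0 : f i0 = ι (X 0 ^ (N + 1))) (h1 : f i1 = ι (X 1 ^ (N + 1)))
    {α : σ → σ → A} (hα : ∀ i j l, f i * α j l - f j * α i l + f l * α i j = 0)
    {η κ0 κ1 : MvPolynomial (Fin 2) k} (hη : constantCoeff η ≠ 0)
    (hs : ρ (α i0 i1) = η * (X 0 * X 1) ^ N + X 0 ^ (N + 1) * κ0 + X 1 ^ (N + 1) * κ1) :
    False := by
  classical
  obtain ⟨s, g, g1, g2, g3⟩ := noether_centred ((aeval fun _ => (0 : k)).comp ρ)
  have hs3 := three_le g g2 ι ρ hρι hker
  letI := g.toRingHom.toAlgebra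
  haveI : Module.Finite (MvPolynomial (Fin s) k) A := g2
  have hsm : ∀ (a : MvPolynomial (Fin s) k) (x : A), a • x = g a * x := fun a x => rfl
  obtain ⟨m, I, sg, tau, c0, hc0, hst⟩ := almost_free (C := MvPolynomial (Fin s) k) (M := A)
    fun a x h => by
      rw [hsm, mul_eq_zero] at h
      exact h.imp (fun h => g1 (by simpa using h)) id
  let a1 : Fin s := ⟨0, by omega⟩
  let a2 : Fin s := ⟨1, by omega⟩
  let a3 : Fin s := ⟨2, by omega⟩
  have hz : ∀ a, ∃ (M : ℕ) (c : σ → A), g (X a) ^ M = ∑ i, f i * c i := fun a =>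
    hf _ (by simpa using g3 a)
  choose M0 c1 hM0 using hz
  let M := ∑ a, M0 a
  have hM : ∀ a, ∃ c : σ → A, g (X a) ^ M = ∑ i, f i * c i := fun a => by
    obtain ⟨d, hd⟩ := Nat.exists_eq_add_of_le
      (Finset.single_le_sum (f := M0) (fun _ _ => Nat.zero_le _) (Finset.mem_univ a))
    refine ⟨fun i => c1 a i * g (X a) ^ d, ?_⟩
    change g (X a) ^ (∑ a, M0 a) = _
    rw [hd, pow_add, hM0, Finset.sum_mul]
    exact Finset.sum_congr rfl fun i _ => by ring
  choose c hc using hM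
  have hcc : g c0 ^ 2 ≠ 0 := pow_ne_zero _ fun h => hc0 (g1 (by simpa using h))
  obtain ⟨n, θ, θ1, θ2, θ3⟩ := exists_form ι ρ hρι hcc
  let e := n + (θ (g c0 ^ 2)).totalDegree
  have he : e < p ^ e := Nat.lt_pow_self (Fact.out : p.Prime).one_lt
  haveI : CharP A p := charP_of_injective_algebraMap (algebraMap k A).injective p
  let φ := iterateFrobenius A p e
  have hφ : ∀ x, φ x = x ^ p ^ e := fun x => rfl
  let B : (σ → A) → (σ → A) → A := fun a b => ∑ i, ∑ j, a i * b j * α i j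
  have hB := bilin_cocycle hα
  have hF : ∀ v, ∑ i, f i * (Pi.single v 1 : σ → A) i = f v := fun v => by
    simp [Pi.single_apply]
  have hBs : ∀ v w, B (Pi.single v 1) (Pi.single w 1) = α v w := fun v w => by
    simp [B, Pi.single_apply]
  have hu : ∀ a, φ (g (X a) ^ M) = g (X a ^ (M * p ^ e)) := fun a => by
    rw [hφ, map_pow, pow_mul]
  obtain ⟨b, hb⟩ := cob2 (c := g c0) (u1 := φ (g (X a1) ^ M)) (u2 := φ (g (X a2) ^ M))
    (u3 := φ (g (X a3) ^ M)) (a12 := φ (B (c a1) (c a2))) (a13 := φ (B (c a1) (c a3)))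
    (a23 := φ (B (c a2) (c a3))) (f := fun v => φ (f v))
    (p1 := fun v => φ (B (c a1) (Pi.single v 1))) (p2 := fun v => φ (B (c a2) (Pi.single v 1)))
    (α := fun v w => φ (α v w))
    (fun b hb => by
      rw [hu, mul_eq_zero] at hb
      exact hb.resolve_left fun h => pow_ne_zero _ (X_ne_zero a1) (g1 (h.trans (map_zero g).symm)))
    (fun b t hb => by
      rw [hu, hu, ← hsm, ← hsm] at hb
      have h2 : ∀ i, ∃ y, sg b i = X a1 ^ (M * p ^ e) * y := fun i =>
        reg2 (b := a2) (e := M * p ^ e) (q := sg t i) (by simp [a1, a2]) (by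
          have := congrFun (congrArg sg hb) i
          simpa using this)
      choose y hy using h2
      refine ⟨tau y, ?_⟩
      rw [hu, ← hsm, ← hsm, ← hst, ← map_smul]
      exact congrArg tau (funext hy))
    (fun b t t' hb => by
      rw [hu, hu, hu, ← hsm, ← hsm, ← hsm] at hb
      have h2 : ∀ i, ∃ y y', sg b i = X a1 ^ (M * p ^ e) * y + X a2 ^ (M * p ^ e) * y' := fun i =>
        reg3 (c := a3) (e := M * p ^ e) (q := sg t i) (q' := sg t' i) (by simp [a1, a3])
          (by simp [a2, a3]) (by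
          have := congrFun (congrArg sg hb) i
          simpa using this)
      choose y y' hy using h2
      refine ⟨tau y, tau y', ?_⟩
      rw [hu, hu, ← hsm, ← hsm, ← hsm, ← hst, ← map_smul, ← map_smul, ← map_add]
      exact congrArg tau (funext hy))
    (by
      have := congrArg φ (hB (c a1) (c a2) (c a3))
      rw [← hc, ← hc, ← hc] at this
      simpa only [map_add, map_sub, map_mul, map_zero] using this)
    (fun v => by
      have := congrArg φ (hB (c a1) (c a2) (Pi.single v 1))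
      rw [← hc, ← hc, hF] at this
      simpa only [map_add, map_sub, map_mul, map_zero] using this)
    (fun v w => by
      have := congrArg φ (hB (c a1) (Pi.single v 1) (Pi.single w 1))
      rw [← hc, hF, hF] at this
      rw [← hBs]
      simpa only [map_add, map_sub, map_mul, map_zero] using this)
  have h2 := congrArg θ (hb i0 i1)
  simp only [hφ] at h2
  have e1 : α i0 i1 = ι (ρ (α i0 i1)) + (α i0 i1 - ι (ρ (α i0 i1))) := by ring
  rw [e1, add_pow_char_pow, mul_comm, add_mul, map_add, ← map_pow, θ2,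
    θ3 _ _ (by simp [hρι]) _ (by omega), add_zero, h0, h1, map_sub, ← map_pow ι, ← map_pow ι, θ2, θ2,
    hs] at h2
  exact plane_final p θ1 hη (by omega) h2

end Pool.Agent.Toral
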