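import Pool.Agent.Lib.MP_238ec1_gt.Cdga

/-!
The main estimate for a differential graded algebra that need not be commutative.
-/

set_option linter.unusedVariables false
set_option linter.unusedSectionVars false
set_option linter.style.haveILetI false

namespace Pool.Agent.Toral

open MvPolynomial Module TensorProduct

variable {σ : Type} [Fintype σ] [DecidableEq σ]

section Stage2

variable {F0 F1 : Type*} [AddCommGroup F0] [Module (MvPolynomial σ ℚ) F0] [AddCommGroup F1]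
  [Module (MvPolynomial σ ℚ) F1] [Module.Free (MvPolynomial σ ℚ) F0]
  [Module.Finite (MvPolynomial σ ℚ) F0] [Module.Free (MvPolynomial σ ℚ) F1]
  [Module.Finite (MvPolynomial σ ℚ) F1]

theorem stage2 (h4 : 4 ≤ Fintype.card σ) {B : Type*} [Ring B] [Algebra (MvPolynomial σ ℚ) B]
    {D : B →ₗ[MvPolynomial σ ℚ] B} (DD : ∀ x, D (D x) = 0) {η : MvPolynomial σ ℚ} {n : ℕ}
    (hη : constantCoeff η ≠ 0) (hk : Kills D D η (n + 1))
    (ι0 : F0 →ₗ[MvPolynomial σ ℚ] B) (ι1 : F1 →ₗ[MvPolynomial σ ℚ] B)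
    (ρ0 : B →ₗ[MvPolynomial σ ℚ] F0) (ρ1 : B →ₗ[MvPolynomial σ ℚ] F1)
    (d0 : F0 →ₗ[MvPolynomial σ ℚ] F1) (d1 : F1 →ₗ[MvPolynomial σ ℚ] F0)
    (a0 : ∀ x, D (ι0 x) = ι1 (d0 x)) (a1 : ∀ x, D (ι1 x) = ι0 (d1 x))
    (b0 : ∀ y, ρ0 (D y) = d1 (ρ1 y)) (b1 : ∀ y, ρ1 (D y) = d0 (ρ0 y))
    (c0 : ∀ x, ρ0 (ι0 x) = x) (c1 : ∀ x, ρ1 (ι1 x) = x)
    (L0 : ∀ x y, D (ι0 x * y) = D (ι0 x) * y + ι0 x * D y)
    (L1 : ∀ x y, D (ι1 x * y) = D (ι1 x) * y - ι1 x * D y)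
    (m0 : ∀ x, d0 x ∈ mSub σ F1) (m1 : ∀ x, d1 x ∈ mSub σ F0)
    {z0 : F0} (hz : ι0 z0 = 1) (o : B →ₗ[MvPolynomial σ ℚ] MvPolynomial σ ℚ)
    (ho : ∀ y, o (D y) = 0) (hω : (∃ ω, o (ι0 ω) = 1) ∨ ∃ ω, o (ι1 ω) = 1) :
    4 * Fintype.card σ ≤ finrank (MvPolynomial σ ℚ) F0 + finrank (MvPolynomial σ ℚ) F1
      + 2 * (Fintype.card σ % 2) := by
  have dd0 : ∀ x, d1 (d0 x) = 0 := fun x => by rw [← c0 (d1 _), ← a1, ← a0, DD, map_zero]
  have dd1 : ∀ x, d0 (d1 x) = 0 := fun x => by rw [← c1 (d0 _), ← a0, ← a1, DD, map_zero]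
  have k0 : Kills d0 d1 η (n + 1) := fun i x hx => by
    obtain ⟨y, hy⟩ := hk i (ι0 x) (by rw [a0, hx, map_zero])
    exact ⟨ρ1 y, by rw [← b0, hy, map_smul, c0]⟩
  have k1 : Kills d1 d0 η (n + 1) := fun i x hx => by
    obtain ⟨y, hy⟩ := hk i (ι1 x) (by rw [a1, hx, map_zero])
    exact ⟨ρ0 y, by rw [← b1, hy, map_smul, c1]⟩
  have D1 : D 1 = 0 := by
    have := L0 z0 1
    rw [hz, mul_one, mul_one, one_mul] at this
    exact left_eq_add.1 this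
  have z1 : d0 z0 = 0 := by rw [← c1 (d0 _), ← a0, hz, D1, map_zero]
  let μ := (LinearMap.mul (MvPolynomial σ ℚ) B).compr₂ o
  let c : MvPolynomial σ ℚ := C (1 / 2)
  have hc : c * 2 = 1 := by
    rw [show (2 : MvPolynomial σ ℚ) = C 2 from rfl, ← map_mul]
    norm_num
  have e01 : ∀ x y, o (ι1 (d0 x) * ι1 y) + o (ι0 x * ι0 (d1 y)) = 0 := fun x y => by
    have := ho (ι0 x * ι1 y)
    rwa [L0, a0, a1, map_add] at this
  have e10 : ∀ y x, o (ι0 (d1 y) * ι0 x) - o (ι1 y * ι1 (d0 x)) = 0 := fun y x => by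
    have := ho (ι1 y * ι0 x)
    rwa [L1, a0, a1, map_sub] at this
  have e00 : ∀ x y, o (ι1 (d0 x) * ι0 y) + o (ι0 x * ι1 (d0 y)) = 0 := fun x y => by
    have := ho (ι0 x * ι0 y)
    rwa [L0, a0, a0, map_add] at this
  have e11 : ∀ x y, o (ι0 (d1 x) * ι1 y) - o (ι1 x * ι0 (d1 y)) = 0 := fun x y => by
    have := ho (ι1 x * ι1 y)
    rwa [L1, a1, a1, map_sub] at this
  rcases hω with ⟨ω, hω⟩ | ⟨ω, hω⟩
  · let P0 := c • (μ.compl₁₂ ι0 ι0 + (μ.compl₁₂ ι0 ι0).flip)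
    let P1 := c • (μ.compl₁₂ ι1 ι1 - (μ.compl₁₂ ι1 ι1).flip)
    have p0 : ∀ x y, P0 x y = c * (o (ι0 x * ι0 y) + o (ι0 y * ι0 x)) := fun x y => rfl
    have p1 : ∀ x y, P1 x y = c * (o (ι1 x * ι1 y) - o (ι1 y * ι1 x)) := fun x y => rfl
    have h1 : P0 z0 ω = 1 := by
      rw [p0, hz, one_mul, mul_one, hω]
      linear_combination hc
    refine (abs_even (e0 := P0.flip ω) h4 hη k0 k1 dd0 dd1
      (fun y => cc_mSub (map_mSub _ (m1 y))) z1 (by rw [LinearMap.flip_apply, h1]; simp)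
      P0 P1 (fun x y => ?_) (fun x => by rw [p0, p0, add_comm])
      (fun y => ?_) h1 (mem_mSub.1 (m0 ω))).trans (Nat.le_add_right _ _)
    · rw [p0, p1]
      linear_combination c * e01 x y + c * e10 y x
    · rw [p0, p1]
      linear_combination -c * e01 ω y - c * e10 y ω
  · let P := c • (μ.compl₁₂ ι1 ι0 + (μ.compl₁₂ ι0 ι1).flip)
    have p0 : ∀ y x, P y x = c * (o (ι1 y * ι0 x) + o (ι0 x * ι1 y)) := fun x y => rfl
    have h1 : P.flip z0 ω = 1 := by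
      rw [LinearMap.flip_apply, p0, hz, one_mul, mul_one, hω]
      linear_combination hc
    refine abs_odd (e0 := P ω) h4 hη k0 k1 dd0 dd1
      (fun y => cc_mSub (map_mSub _ (m1 y))) z1 (by rw [← LinearMap.flip_apply, h1]; simp)
      P P.flip (fun x y => ?_) (fun x y => rfl) (fun y => ?_) h1 (mem_mSub.1 (m1 ω))
    · rw [LinearMap.flip_apply, p0, p0]
      linear_combination c * e00 x y + c * e00 y x
    · rw [LinearMap.flip_apply, p0, p0]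
      linear_combination -c * e11 y ω + c * e11 ω y

end Stage2

variable {K : Type} [Ring K] [Algebra ℚ K] {𝒜 : ℕ → Submodule ℚ K} [GradedAlgebra 𝒜]

theorem dga_bound (h4 : 4 ≤ Fintype.card σ) [Nontrivial K]
    {D : Module.End (MvPolynomial σ ℚ) (MvPolynomial σ ℚ ⊗[ℚ] K)}
    (hdeg : ∀ i, ∀ a ∈ 𝒜 i, D (1 ⊗ₜ a) ∈ Submodule.span ℚ {z | ∃ (m : σ →₀ ℕ) (j : ℕ), ∃ b ∈ 𝒜 j,
      2 * (∑ l, m l) + j = i + 1 ∧ z = monomial m (1 : ℚ) ⊗ₜ[ℚ] b})
    (hL : ∀ i j, ∀ a ∈ 𝒜 i, ∀ b ∈ 𝒜 j, D (1 ⊗ₜ (a * b))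
      = D (1 ⊗ₜ a) * (1 ⊗ₜ b) + (-1 : ℚ) ^ i • ((1 ⊗ₜ a) * D (1 ⊗ₜ b)))
    (DD : D * D = 0) {d : Module.End ℚ K} (hd : ∀ a, d a = eps K σ (D (1 ⊗ₜ a)))
    {n0 : ℕ} (hk : Kills D D 1 (n0 + 1))
    [Module.Finite ℚ ((LinearMap.ker d).map (LinearMap.range d).mkQ)] :
    4 * Fintype.card σ ≤ finrank ℚ ((LinearMap.ker d).map (LinearMap.range d).mkQ)
      + 2 * (Fintype.card σ % 2) := by
  have sp := fun i a ha => of_span (hdeg i a ha)
  simp only [← hd] at sp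
  have d1 : ∀ i, ∀ a ∈ 𝒜 i, d a ∈ 𝒜 (i + 1) := fun i a ha => (sp i a ha).1
  have DD' : ∀ x, D (D x) = 0 := DFunLike.congr_fun DD
  have dd : d * d = 0 := K_ext (𝒜 := 𝒜) fun i a ha => by
    have h1 := map_mSub D (sp i a ha).2.2.1
    rw [map_sub, DD', zero_sub, neg_mem_iff] at h1
    exact (hd _).trans (eps_mSub h1)
  obtain ⟨s, hs, s1, s0⟩ := exists_contr d1 dd
  obtain ⟨e, he⟩ : ∃ e, e = 1 - d * s - s * d := ⟨_, rfl⟩
  have e1 : ∀ i, ∀ a ∈ 𝒜 i, e a ∈ 𝒜 i := fun i a ha => by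
    rw [he]
    refine sub_mem (sub_mem ha ?_) (s1 i _ (d1 i a ha))
    change d (s a) ∈ _
    cases i with
    | zero => rw [s0 a ha, map_zero]; exact zero_mem _
    | succ i => exact d1 i _ (s1 i a ha)
  have ee : e * e = e := he ▸ hs.ee
  have de : d * e = 0 := he ▸ hs.de
  let bc := Module.End.baseChangeHom ℚ (MvPolynomial σ ℚ) K
  have bct : ∀ (f : Module.End ℚ K) (a : K), bc f (1 ⊗ₜ a) = 1 ⊗ₜ f a := fun f a => rfl
  have D1 : D 1 = 0 := by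
    have := hL 0 0 1 (SetLike.one_mem_graded 𝒜) 1 (SetLike.one_mem_graded 𝒜)
    rw [mul_one, pow_zero, one_smul, ← Algebra.TensorProduct.one_def, mul_one, one_mul] at this
    exact left_eq_add.1 this
  have eo : e 1 = 1 := by
    have h1 : d 1 = 0 := by rw [hd, ← Algebra.TensorProduct.one_def, D1, map_zero]
    simp [he, h1, s0 1 (SetLike.one_mem_graded 𝒜)]
  -- the perturbation
  have δ1 : ∀ j, ∀ x ∈ Fil 𝒜 σ (j + 1), (D - bc d) x ∈ Fil 𝒜 σ j := fun j =>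
    Fil_map _ _ fun i hi a ha => Fil_mono (Nat.le_of_lt_succ hi) (sp i a ha).2.1
  have δ2 : ∀ x, (D - bc d) x ∈ mSub σ (MvPolynomial σ ℚ ⊗[ℚ] K) := fun x => by
    induction x using B_rec (𝒜 := 𝒜) with
    | hadd x y h1 h2 => rw [map_add]; exact add_mem h1 h2
    | hsmul c x h1 => rw [map_smul]; exact Submodule.smul_mem _ _ h1
    | h i a ha => exact (sp i a ha).2.2.1
  have δ3 : ∀ j, ∀ x ∈ Fil 𝒜 σ j, bc s x ∈ Fil 𝒜 σ j := fun j =>
    Fil_map _ _ fun i hi a ha => by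
      rw [bct]
      cases i with
      | zero => rw [s0 a ha, tmul_zero]; exact zero_mem _
      | succ i => exact mem_Fil (by omega) (s1 i a ha)
  obtain ⟨U, U1, U2, U3⟩ := exists_inv_of_nilpotent ((D - bc d) * bc s) (Fil 𝒜 σ) Fil_zero
    (fun j x hx => δ1 j _ (δ3 _ x hx)) (fun j => Fil_mono (Nat.le_succ j)) exists_Fil
  have hs' : Contr (bc d) (bc s) :=
    ⟨by rw [← map_mul, hs.dd, map_zero], by rw [← map_mul, ← map_mul, hs.dsd],
      by rw [← map_mul, ← map_mul, hs.sds], by rw [← map_mul, hs.ss, map_zero]⟩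
  obtain ⟨p1, p2, p3⟩ := pert hs' DD U1 U2 (e := bc e) (by simp [he])
  obtain ⟨I, hI⟩ : ∃ I, I = (1 - bc s * U * D) * bc e := ⟨_, rfl⟩
  rw [← hI] at p1 p3
  -- signs
  have SS : sgn 𝒜 * sgn 𝒜 = 1 := sgn_sgn
  have SS' : -sgn 𝒜 * -sgn 𝒜 = 1 := neg_inv SS
  have Sd : d * sgn 𝒜 = -sgn 𝒜 * d := K_ext (𝒜 := 𝒜) fun i a ha => by
    simp [sgn_of_mem ha, sgn_of_mem (d1 i a ha), pow_succ]
  have Ss : s * sgn 𝒜 = -sgn 𝒜 * s := K_ext (𝒜 := 𝒜) fun i a ha => by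
    cases i with
    | zero => simp [sgn_of_mem ha, s0 a ha]
    | succ i => simp [sgn_of_mem ha, sgn_of_mem (s1 i a ha), pow_succ]
  have Se : e * sgn 𝒜 = sgn 𝒜 * e := K_ext (𝒜 := 𝒜) fun i a ha => by
    simp [sgn_of_mem ha, sgn_of_mem (e1 i a ha)]
  have SD : D * bc (sgn 𝒜) = -bc (sgn 𝒜) * D := B_ext (𝒜 := 𝒜) fun i a ha => by
    change D (1 ⊗ₜ sgn 𝒜 a) = -(sgn 𝒜).baseChange _ (D (1 ⊗ₜ a))
    rw [(sp i a ha).2.2.2, sgn_of_mem ha, tmul_smul, LinearMap.map_smul_of_tower, pow_succ]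
    module
  have bn : bc (-sgn 𝒜) = -bc (sgn 𝒜) := map_neg bc _
  have Sd' : bc d * bc (sgn 𝒜) = -bc (sgn 𝒜) * bc d := by rw [← bn, ← map_mul, ← map_mul, Sd]
  have Ss' : bc s * bc (sgn 𝒜) = -bc (sgn 𝒜) * bc s := by rw [← bn, ← map_mul, ← map_mul, Ss]
  have Se' : bc e * bc (sgn 𝒜) = bc (sgn 𝒜) * bc e := by rw [← map_mul, ← map_mul, Se]
  have SU := (comm_of_inv U1 U2 (comm_pert (D := D) SD Sd' Ss')).symm
  have bh : ∀ t, bc (half t) = half (bc t) := fun t => by simp [half]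
  have bS : bc (sgn 𝒜) * bc (sgn 𝒜) = 1 := by rw [← map_mul, SS, map_one]
  have bS' : -bc (sgn 𝒜) * -bc (sgn 𝒜) = 1 := neg_inv (S := bc (sgn 𝒜)) bS
  have ep : e * half (sgn 𝒜) = half (sgn 𝒜) * e := half_comm Se
  have t0 := idem_mul ee (half_half SS) ep
  have t1 := idem_mul ee (half_half SS') (half_comm (comm_neg Se))
  obtain ⟨j0, r0, jr0, rj0⟩ := retr (σ := σ) t0
  obtain ⟨j1, r1, jr1, rj1⟩ := retr (σ := σ) t1
  simp only [map_mul, Module.End.mul_apply] at jr0 jr1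
  rw [bh] at jr0
  rw [bh, bn] at jr1
  have EE : bc e * bc e = bc e := by rw [← map_mul, ee]
  obtain ⟨a0, b1, c0, q0, w0⟩ := side hI p1 p2 p3 EE (half_add (S := bc (sgn 𝒜)))
    (half_half (S := bc (sgn 𝒜)) bS) (half_comm (T := bc e) Se') (half_comm (T := U) SU)
    (half_comm (T := D) SD) (half_comm (T := bc s) (anti_neg (T := bc s) Ss')) jr0 rj0 jr1 rj1
  obtain ⟨a1, b0, c1, q1, w1⟩ := side hI p1 p2 p3 EE
    ((add_comm _ _).trans (half_add (S := bc (sgn 𝒜)))) (half_half (S := -bc (sgn 𝒜)) bS')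
    (half_comm (T := bc e) (comm_neg (T := bc e) Se')) (half_comm (T := U) (comm_neg (T := U) SU))
    (half_comm (T := D) (anti_neg (T := D) SD)) (half_comm (T := bc s) Ss') jr1 rj1 jr0 rj0
  obtain ⟨fin, cnt⟩ := count_le hs he half_add (half_half SS) ep
  haveI : ∀ t : Module.End ℚ K, Module.Finite ℚ (LinearMap.range (e * t)) := fun t =>
    Submodule.finiteDimensional_of_le (LinearMap.range_comp_le_range t e)
  -- the top class
  obtain ⟨n, ⟨ω, ω1, ω2⟩, hn⟩ := exists_top e1 (eo.trans_ne one_ne_zero)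
  obtain ⟨φ, hφ⟩ := Module.Projective.exists_dual_eq_one ℚ ω2
  let fn : MvPolynomial σ ℚ ⊗[ℚ] K →ₗ[MvPolynomial σ ℚ] MvPolynomial σ ℚ :=
    (Algebra.linearMap ℚ _ ∘ₗ φ ∘ₗ GradedAlgebra.proj 𝒜 n ∘ₗ e).liftBaseChange _
  have f1 : ∀ a, fn (1 ⊗ₜ a) = C (φ (GradedAlgebra.proj 𝒜 n (e a))) := fun a =>
    LinearMap.liftBaseChange_one_tmul _ _ _
  have f2 : ∀ x, fn (bc e x) = fn x := DFunLike.congr_fun (show fn ∘ₗ bc e = fn from
    B_ext (𝒜 := 𝒜) fun i a ha => by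
      rw [LinearMap.comp_apply, bct, f1, f1, ← Module.End.mul_apply e e, ee])
  have De : ∀ x, D (bc e x) = (D - bc d) (bc e x) := fun x => by
    rw [LinearMap.sub_apply, ← Module.End.mul_apply (bc d), ← map_mul, de, map_zero,
      LinearMap.zero_apply, sub_zero]
  have Dm : ∀ x, bc e x = x → D x ∈ mSub σ (MvPolynomial σ ℚ ⊗[ℚ] K) := fun x hx => by
    rw [← hx, De]
    exact δ2 _
  have f3 : ∀ x, fn (U (D (bc e x))) = 0 := DFunLike.congr_fun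
    (show fn ∘ₗ U ∘ₗ D ∘ₗ bc e = 0 from B_ext (𝒜 := 𝒜) fun i a ha => by
      change fn (U (D (bc e (1 ⊗ₜ a)))) = 0
      rcases lt_or_ge n i with h | h
      · simp only [bct, hn i h a ha, tmul_zero, map_zero]
      · refine Fil_map fn ⊥ (fun l hl b hb => ?_) _ (U3 n _ ?_)
        · rw [f1, proj_ne (e1 l b hb) hl.ne, map_zero, map_zero]
          rfl
        · rw [De]
          exact δ1 n _ (mem_Fil (Nat.lt_succ_of_le h) (e1 i a ha)))
  have f4 : ∀ x, fn (U (I x)) = fn x := fun x => by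
    rw [← f2, ← f2 x]
    exact congrArg fn (DFunLike.congr_fun p1 x)
  have f5 : fn (1 ⊗ₜ ω) = 1 := by rw [f1, proj_same (e1 n ω ω1), hφ, map_one]
  have key := stage2 h4 DD' (by simp) hk (I ∘ₗ j0) (I ∘ₗ j1) (r0 ∘ₗ U) (r1 ∘ₗ U) (r1 ∘ₗ U ∘ₗ D ∘ₗ j0)
    (r0 ∘ₗ U ∘ₗ D ∘ₗ j1) a0 a1 b0 b1 c0 c1
    (fun x y => by
      rw [leibniz hL, LinearMap.comp_apply, ← q0]
      congr 2
      exact DFunLike.congr_fun (mul_half (S := bc (sgn 𝒜)) bS) _)
    (fun x y => by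
      rw [leibniz hL, LinearMap.comp_apply, ← q1, sub_eq_add_neg]
      refine congrArg _ (Eq.trans ?_ (neg_mul _ (D y)))
      congr 1
      exact neg_eq_iff_eq_neg.1 (DFunLike.congr_fun (mul_half (S := -bc (sgn 𝒜)) bS') _))
    (fun x => map_mSub r1 (map_mSub U (Dm _ (w0 x))))
    (fun x => map_mSub r0 (map_mSub U (Dm _ (w1 x))))
    (z0 := r0 1)
    (by
      rw [LinearMap.comp_apply, jr0, ← bh, Algebra.TensorProduct.one_def, bct, bct,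
        ((half_sgn (SetLike.one_mem_graded 𝒜)).1 Even.zero).1, eo, hI, Module.End.mul_apply, bct,
        eo, ← Algebra.TensorProduct.one_def]
      simp [D1])
    (fn ∘ₗ U) (fun y => by
      change fn (U (D y)) = 0
      rw [← f2, ← f3 (U y), ← f2 (U _)]
      exact congrArg fn (DFunLike.congr_fun p2 y))
    (by
      rcases Nat.even_or_odd n with h | h
      · refine Or.inl ⟨r0 (1 ⊗ₜ ω), ?_⟩
        change fn (U (I (j0 _))) = 1
        rw [f4, jr0, f2, ← bh, bct, ((half_sgn ω1).1 h).1, f5]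
      · refine Or.inr ⟨r1 (1 ⊗ₜ ω), ?_⟩
        change fn (U (I (j1 _))) = 1
        rw [f4, jr1, f2, ← bn, ← bh, bct, ((half_sgn ω1).2 h).2, f5])
  rw [Module.finrank_baseChange, Module.finrank_baseChange] at key
  omega

end Pool.Agent.Toral
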