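import Pool.Agent.Lib.MP_238ec1_gt.Pert

/-!
Graded vector spaces: homogeneous contractions, base change to the polynomial ring.
-/

set_option linter.unusedVariables false
set_option linter.unusedSectionVars false
set_option linter.style.haveILetI false

namespace Pool.Agent.Toral

open MvPolynomial Module TensorProduct

variable {K : Type} [Ring K] [Algebra ℚ K] (𝒜 : ℕ → Submodule ℚ K) [GradedAlgebra 𝒜]

/-- The linear map given by `φ i` in degree `i`. -/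
noncomputable def glue (φ : ℕ → Module.End ℚ K) : Module.End ℚ K :=
  (DirectSum.toModule ℚ ℕ K fun i => φ i ∘ₗ (𝒜 i).subtype) ∘ₗ
    (DirectSum.decomposeLinearEquiv 𝒜).toLinearMap

variable {𝒜}

theorem glue_of_mem (φ : ℕ → Module.End ℚ K) {i : ℕ} {a : K} (ha : a ∈ 𝒜 i) :
    glue 𝒜 φ a = φ i a := by
  change DirectSum.toModule ℚ ℕ K _ (DirectSum.decompose 𝒜 a) = _
  rw [DirectSum.decompose_of_mem 𝒜 ha]
  exact DirectSum.toModule_lof ℚ i _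

theorem K_rec {P : K → Prop} (h0 : P 0) (hadd : ∀ x y, P x → P y → P (x + y))
    (h : ∀ i, ∀ a ∈ 𝒜 i, P a) (x : K) : P x :=
  DirectSum.Decomposition.inductionOn 𝒜 h0 (fun {i} a => h i a a.2) hadd x

theorem K_ext {M : Type*} [AddCommGroup M] [Module ℚ M] {f g : K →ₗ[ℚ] M}
    (h : ∀ i, ∀ a ∈ 𝒜 i, f a = g a) : f = g :=
  LinearMap.ext (K_rec (𝒜 := 𝒜) (by simp) (fun x y hx hy => by rw [map_add, map_add, hx, hy]) h)

theorem proj_mem (i : ℕ) (a : K) : GradedAlgebra.proj 𝒜 i a ∈ 𝒜 i :=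
  (DirectSum.decompose 𝒜 a i).2

theorem proj_same {i : ℕ} {a : K} (ha : a ∈ 𝒜 i) : GradedAlgebra.proj 𝒜 i a = a :=
  DirectSum.decompose_of_mem_same 𝒜 ha

theorem proj_ne {i j : ℕ} {a : K} (ha : a ∈ 𝒜 i) (h : i ≠ j) : GradedAlgebra.proj 𝒜 j a = 0 :=
  DirectSum.decompose_of_mem_ne 𝒜 ha h

theorem exists_contr {d : Module.End ℚ K} (hd : ∀ i, ∀ a ∈ 𝒜 i, d a ∈ 𝒜 (i + 1))
    (dd : d * d = 0) : ∃ s : Module.End ℚ K, Contr d s ∧ (∀ i, ∀ a ∈ 𝒜 (i + 1), s a ∈ 𝒜 i) ∧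
      ∀ a ∈ 𝒜 0, s a = 0 := by
  obtain ⟨g, hg⟩ := d.rangeRestrict.exists_rightInverse_of_surjective d.range_rangeRestrict
  obtain ⟨s', hs'⟩ := g.exists_extend
  have h1 : ∀ x, d (s' (d x)) = d x := fun x => by
    have e1 := DFunLike.congr_fun hs' (d.rangeRestrict x)
    have e2 := congrArg Subtype.val (DFunLike.congr_fun hg (d.rangeRestrict x))
    change s' (d x) = _ at e1
    rw [e1]
    exact e2
  let s0 := glue 𝒜 fun i => if i = 0 then 0 else GradedAlgebra.proj 𝒜 (i - 1) ∘ₗ s'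
  have s1 : ∀ i, ∀ a ∈ 𝒜 (i + 1), s0 a = GradedAlgebra.proj 𝒜 i (s' a) := fun i a ha => by
    simp [s0, glue_of_mem _ ha]
  have s2 : ∀ a ∈ 𝒜 0, s0 a = 0 := fun a ha => by simp [s0, glue_of_mem _ ha]
  have s3 : ∀ i, ∀ a ∈ 𝒜 (i + 1), s0 a ∈ 𝒜 i := fun i a ha => s1 i a ha ▸ proj_mem i _
  have h2 : ∀ i, d ∘ₗ GradedAlgebra.proj 𝒜 i = GradedAlgebra.proj 𝒜 (i + 1) ∘ₗ d := fun i =>
    K_ext (𝒜 := 𝒜) fun j a ha => by
      by_cases h : j = i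
      · subst h
        simp only [LinearMap.comp_apply, proj_same ha, proj_same (hd j a ha)]
      · simp only [LinearMap.comp_apply, proj_ne ha h, map_zero,
          proj_ne (hd j a ha) (show j + 1 ≠ i + 1 by omega)]
  have dsd : d * s0 * d = d := K_ext (𝒜 := 𝒜) fun i a ha => by
    change d (s0 (d a)) = d a
    rw [s1 i _ (hd i a ha)]
    refine (DFunLike.congr_fun (h2 i) _).trans ?_
    rw [LinearMap.comp_apply, h1, proj_same (hd i a ha)]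
  have h3 : ∀ i, ∀ a ∈ 𝒜 i, a - s0 (d a) ∈ 𝒜 i := fun i a ha =>
    sub_mem ha (s3 i _ (hd i a ha))
  refine ⟨_, contr_of dd dsd, fun i a ha => ?_, fun a ha => ?_⟩
  · exact s3 i _ (hd i _ (s3 i _ (h3 _ a ha)))
  · change s0 (d (s0 (a - s0 (d a)))) = 0
    rw [s2 _ (h3 0 a ha), map_zero, map_zero]

variable (𝒜) in
/-- The parity involution. -/
noncomputable def sgn : Module.End ℚ K := glue 𝒜 fun i => ((-1 : ℚ) ^ i) • LinearMap.id

theorem sgn_of_mem {i : ℕ} {a : K} (ha : a ∈ 𝒜 i) : sgn 𝒜 a = ((-1 : ℚ) ^ i) • a :=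
  glue_of_mem _ ha

theorem exists_top {e : Module.End ℚ K} (he : ∀ i, ∀ a ∈ 𝒜 i, e a ∈ 𝒜 i)
    [Module.Finite ℚ (LinearMap.range e)] (h1 : e 1 ≠ 0) :
    ∃ n, (∃ a ∈ 𝒜 n, e a ≠ 0) ∧ ∀ i, n < i → ∀ a ∈ 𝒜 i, e a = 0 := by
  classical
  obtain ⟨t, ht⟩ : (LinearMap.range e).FG := Module.Finite.iff_fg.1 inferInstance
  let n0 := t.sup fun x => (DirectSum.decompose 𝒜 x).support.sup id
  have h2 : ∀ i, n0 < i → ∀ a ∈ 𝒜 i, e a = 0 := by
    intro i hi a ha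
    have h3 : LinearMap.range e ≤ LinearMap.ker (GradedAlgebra.proj 𝒜 i) := by
      rw [← ht, Submodule.span_le]
      intro x hx
      by_contra h4
      have h5 := Finset.le_sup (f := id) ((GradedAlgebra.mem_support_iff 𝒜 x i).2 h4)
      have h6 := Finset.le_sup (f := fun x => (DirectSum.decompose 𝒜 x).support.sup id) hx
      exact absurd (h5.trans h6) (not_le.2 hi)
    rw [← proj_same (he i a ha)]
    exact h3 ⟨a, rfl⟩
  have hfin : {i | ∃ a ∈ 𝒜 i, e a ≠ 0}.Finite :=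
    (Set.finite_le_nat n0).subset fun i ⟨a, a1, a2⟩ => not_lt.1 fun hi => a2 (h2 i hi a a1)
  obtain ⟨n, n1, n2⟩ := Set.exists_max_image _ id hfin ⟨0, 1, SetLike.one_mem_graded 𝒜, h1⟩
  exact ⟨n, n1, fun i hi a ha => by_contra fun h => absurd (n2 i ⟨a, ha, h⟩) (not_le.2 hi)⟩

variable {σ : Type} [Fintype σ] [DecidableEq σ]

section MSub

variable {M M' : Type*} [AddCommGroup M] [Module (MvPolynomial σ ℚ) M] [AddCommGroup M']
  [Module (MvPolynomial σ ℚ) M']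

variable (σ M) in
/-- The submodule `(x₁, …, x_r) M`. -/
noncomputable def mSub : Submodule (MvPolynomial σ ℚ) M :=
  LinearMap.range (∑ b : σ, (X b : MvPolynomial σ ℚ) •
    (LinearMap.proj b : (σ → M) →ₗ[MvPolynomial σ ℚ] M))

theorem mem_mSub {x : M} :
    x ∈ mSub σ M ↔ ∃ w : σ → M, x = ∑ b, (X b : MvPolynomial σ ℚ) • w b := by
  simp [mSub, eq_comm]

theorem map_mSub (f : M →ₗ[MvPolynomial σ ℚ] M') {x : M} (hx : x ∈ mSub σ M) :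
    f x ∈ mSub σ M' := by
  obtain ⟨w, rfl⟩ := mem_mSub.1 hx
  exact mem_mSub.2 ⟨fun b => f (w b), by simp⟩

theorem smul_mSub {c : MvPolynomial σ ℚ} (hc : constantCoeff c = 0) (x : M) :
    c • x ∈ mSub σ M := by
  classical
  obtain ⟨w, -, rfl⟩ := exists_eq_sum_of_mem_PI (mem_PI_one_univ hc)
  exact mem_mSub.2 ⟨fun b => w b • x, by simp [Finset.sum_smul, mul_smul]⟩

theorem cc_mSub {x : MvPolynomial σ ℚ} (hx : x ∈ mSub σ (MvPolynomial σ ℚ)) :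
    constantCoeff x = 0 := by
  obtain ⟨w, rfl⟩ := mem_mSub.1 hx
  simp

end MSub

omit [Fintype σ] [DecidableEq σ] in
theorem B_rec {P : MvPolynomial σ ℚ ⊗[ℚ] K → Prop} (hadd : ∀ x y, P x → P y → P (x + y))
    (hsmul : ∀ (c : MvPolynomial σ ℚ) x, P x → P (c • x))
    (h : ∀ i, ∀ a ∈ 𝒜 i, P (1 ⊗ₜ a)) (x : MvPolynomial σ ℚ ⊗[ℚ] K) : P x := by
  have h0 : P 0 := by simpa using h 0 0 (zero_mem _)
  induction x using TensorProduct.induction_on with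
  | zero => exact h0
  | add x y hx hy => exact hadd x y hx hy
  | tmul c a =>
    rw [show c ⊗ₜ[ℚ] a = c • ((1 : MvPolynomial σ ℚ) ⊗ₜ[ℚ] a) by simp [smul_tmul']]
    refine hsmul _ _ (K_rec (𝒜 := 𝒜) (P := fun a => P (1 ⊗ₜ a)) (by simpa using h0)
      (fun x y hx hy => ?_) h a)
    rw [tmul_add]
    exact hadd _ _ hx hy

theorem B_ext {M : Type*} [AddCommGroup M] [Module (MvPolynomial σ ℚ) M]
    {f g : MvPolynomial σ ℚ ⊗[ℚ] K →ₗ[MvPolynomial σ ℚ] M}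
    (h : ∀ i, ∀ a ∈ 𝒜 i, f (1 ⊗ₜ a) = g (1 ⊗ₜ a)) : f = g :=
  LinearMap.ext (B_rec (𝒜 := 𝒜) (fun x y hx hy => by rw [map_add, map_add, hx, hy])
    (fun c x hx => by rw [map_smul, map_smul, hx]) h)

variable (σ 𝒜) in
/-- The filtration by the degree in `K`. -/
noncomputable def Fil (j : ℕ) : Submodule (MvPolynomial σ ℚ) (MvPolynomial σ ℚ ⊗[ℚ] K) :=
  Submodule.span _ {z | ∃ i < j, ∃ a ∈ 𝒜 i, z = 1 ⊗ₜ a}

theorem mem_Fil {i j : ℕ} (h : i < j) {a : K} (ha : a ∈ 𝒜 i) : 1 ⊗ₜ a ∈ Fil 𝒜 σ j :=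
  Submodule.subset_span ⟨i, h, a, ha, rfl⟩

theorem Fil_map {M : Type*} [AddCommGroup M] [Module (MvPolynomial σ ℚ) M]
    (f : MvPolynomial σ ℚ ⊗[ℚ] K →ₗ[MvPolynomial σ ℚ] M) (p : Submodule (MvPolynomial σ ℚ) M)
    {j : ℕ} (h : ∀ i < j, ∀ a ∈ 𝒜 i, f (1 ⊗ₜ a) ∈ p) : ∀ x ∈ Fil 𝒜 σ j, f x ∈ p := by
  have : Fil 𝒜 σ j ≤ p.comap f := Submodule.span_le.2 (by
    rintro _ ⟨i, hi, a, ha, rfl⟩
    exact h i hi a ha)
  exact this

theorem Fil_mono {i j : ℕ} (h : i ≤ j) : Fil 𝒜 σ i ≤ Fil 𝒜 σ j :=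
  Fil_map LinearMap.id _ fun l hl a ha => mem_Fil (hl.trans_le h) ha

theorem Fil_zero : Fil 𝒜 σ 0 = ⊥ :=
  eq_bot_iff.2 (Fil_map LinearMap.id _ fun l hl => absurd hl (Nat.not_lt_zero l))

theorem exists_Fil (x : MvPolynomial σ ℚ ⊗[ℚ] K) : ∃ j, x ∈ Fil 𝒜 σ j :=
  B_rec (𝒜 := 𝒜) (P := fun x => ∃ j, x ∈ Fil 𝒜 σ j)
    (fun x y ⟨i, hi⟩ ⟨j, hj⟩ => ⟨max i j,
      add_mem (Fil_mono (le_max_left _ _) hi) (Fil_mono (le_max_right _ _) hj)⟩)
    (fun c x ⟨i, hi⟩ => ⟨i, Submodule.smul_mem _ _ hi⟩)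
    (fun i a ha => ⟨i + 1, mem_Fil (Nat.lt_succ_self i) ha⟩) x

variable (σ K) in
/-- Reduction modulo the variables. -/
noncomputable def eps : MvPolynomial σ ℚ ⊗[ℚ] K →ₗ[ℚ] K :=
  (TensorProduct.lid ℚ K).toLinearMap ∘ₗ LinearMap.rTensor K (lcoeff ℚ 0)

theorem eps_tmul (c : MvPolynomial σ ℚ) (a : K) : eps K σ (c ⊗ₜ a) = constantCoeff c • a := by
  simp [eps, constantCoeff_eq]

theorem eps_mSub {x : MvPolynomial σ ℚ ⊗[ℚ] K} (hx : x ∈ mSub σ (MvPolynomial σ ℚ ⊗[ℚ] K)) :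
    eps K σ x = 0 := by
  obtain ⟨w, rfl⟩ := mem_mSub.1 hx
  rw [map_sum]
  refine Finset.sum_eq_zero fun b _ => ?_
  induction w b using TensorProduct.induction_on with
  | zero => simp
  | add x y hx hy => rw [smul_add, map_add, hx, hy, add_zero]
  | tmul c a => simp [smul_tmul', eps_tmul]

theorem of_span {i : ℕ} {y : MvPolynomial σ ℚ ⊗[ℚ] K}
    (hy : y ∈ Submodule.span ℚ {z | ∃ (m : σ →₀ ℕ) (j : ℕ), ∃ b ∈ 𝒜 j,
      2 * (∑ l, m l) + j = i + 1 ∧ z = monomial m (1 : ℚ) ⊗ₜ[ℚ] b}) :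
    eps K σ y ∈ 𝒜 (i + 1) ∧ y - 1 ⊗ₜ eps K σ y ∈ Fil 𝒜 σ i ∧
      y - 1 ⊗ₜ eps K σ y ∈ mSub σ (MvPolynomial σ ℚ ⊗[ℚ] K) ∧
      (sgn 𝒜).baseChange (MvPolynomial σ ℚ) y = ((-1 : ℚ) ^ (i + 1)) • y := by
  induction hy using Submodule.span_induction with
  | mem z hz =>
    obtain ⟨m, j, b, hb, hm, rfl⟩ := hz
    have hs : (sgn 𝒜).baseChange (MvPolynomial σ ℚ) (monomial m (1 : ℚ) ⊗ₜ[ℚ] b)
        = ((-1 : ℚ) ^ (i + 1)) • (monomial m (1 : ℚ) ⊗ₜ[ℚ] b) := by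
      rw [LinearMap.baseChange_tmul, sgn_of_mem hb, tmul_smul, ← hm, pow_add, pow_mul]
      simp
    by_cases h0 : m = 0
    · subst h0
      have : j = i + 1 := by simpa using hm
      subst this
      refine ⟨by simpa [eps_tmul] using hb, ?_, ?_, hs⟩ <;> simp [eps_tmul]
    · have hc : constantCoeff (monomial m (1 : ℚ)) = 0 := by
        rw [constantCoeff_monomial, if_neg h0]
      have h1 : ∑ l, m l ≠ 0 := fun h =>
        h0 (Finsupp.ext fun l => Finset.sum_eq_zero_iff.1 h l (Finset.mem_univ l))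
      rw [eps_tmul, hc, zero_smul, tmul_zero, sub_zero]
      have e : monomial m (1 : ℚ) ⊗ₜ[ℚ] b
          = monomial m (1 : ℚ) • ((1 : MvPolynomial σ ℚ) ⊗ₜ[ℚ] b) := by simp [smul_tmul']
      refine ⟨zero_mem _, ?_, ?_, hs⟩
      · rw [e]
        exact Submodule.smul_mem _ _ (mem_Fil (by omega) hb)
      · rw [e]
        exact smul_mSub hc _
  | zero => simp
  | add x y _ _ hx hy =>
    rw [map_add, tmul_add, add_sub_add_comm, map_add, smul_add, hx.2.2.2, hy.2.2.2]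
    exact ⟨add_mem hx.1 hy.1, add_mem hx.2.1 hy.2.1, add_mem hx.2.2.1 hy.2.2.1, rfl⟩
  | smul c x _ hx =>
    rw [map_smul, tmul_smul, ← smul_sub, LinearMap.map_smul_of_tower, hx.2.2.2, smul_comm]
    exact ⟨Submodule.smul_mem _ _ hx.1, Submodule.smul_of_tower_mem _ _ hx.2.1,
      Submodule.smul_of_tower_mem _ _ hx.2.2.1, rfl⟩

end Pool.Agent.Toral
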