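import Pool.Agent.Lib.MP_238ec1_gt.Top

/-!
Minimal Hirsch-Brown models.
-/

set_option linter.unusedVariables false
set_option linter.unusedSectionVars false
set_option linter.style.haveILetI false

namespace Pool.Agent.Toral

open MvPolynomial Module

variable {σ : Type} [Fintype σ] [DecidableEq σ]

theorem kill_of_finite {F : Type*} [AddCommGroup F] [Module (MvPolynomial σ ℚ) F] [Module ℚ F]
    [IsScalarTower ℚ (MvPolynomial σ ℚ) F] (d : F →ₗ[MvPolynomial σ ℚ] F)
    [Module.Finite ℚ (LinearMap.ker d ⧸ (LinearMap.range d).submoduleOf (LinearMap.ker d))] :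
    ∃ (η : MvPolynomial σ ℚ) (n : ℕ), constantCoeff η ≠ 0 ∧ Kills d d η (n + 1) := by
  have h1 : ∀ i : σ, ∃ (η : MvPolynomial σ ℚ) (n : ℕ), constantCoeff η ≠ 0 ∧
      ∀ x, d x = 0 → ∃ y, d y = (η * X i ^ n : MvPolynomial σ ℚ) • x := by
    intro i
    let L : MvPolynomial σ ℚ →ₐ[ℚ] Module.End ℚ
        (LinearMap.ker d ⧸ (LinearMap.range d).submoduleOf (LinearMap.ker d)) :=
      Algebra.lsmul ℚ ℚ _
    obtain ⟨p, p1, p2⟩ := LinearMap.exists_monic_and_aeval_eq_zero ℚ (L (X i))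
    obtain ⟨q, q1, q2⟩ := Polynomial.exists_eq_pow_rootMultiplicity_mul_and_not_dvd p p1.ne_zero 0
    rw [map_zero, sub_zero] at q1 q2
    refine ⟨Polynomial.aeval (X i) q, p.rootMultiplicity 0, ?_, fun x hx => ?_⟩
    · have e : (constantCoeff : MvPolynomial σ ℚ →+* ℚ).comp
          (Polynomial.aeval (X i : MvPolynomial σ ℚ)).toRingHom = Polynomial.constantCoeff :=
        Polynomial.ringHom_ext (fun a => by simp) (by simp)
      rw [Polynomial.X_dvd_iff] at q2
      exact fun h => q2 ((DFunLike.congr_fun e q).symm.trans h)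
    · rw [Polynomial.aeval_algHom_apply] at p2
      have h2 : (Polynomial.aeval (X i : MvPolynomial σ ℚ) p) •
          (Submodule.Quotient.mk ⟨x, hx⟩ :
            LinearMap.ker d ⧸ (LinearMap.range d).submoduleOf (LinearMap.ker d)) = 0 :=
        DFunLike.congr_fun p2 _
      rw [← Submodule.Quotient.mk_smul, Submodule.Quotient.mk_eq_zero] at h2
      obtain ⟨y, hy⟩ := h2
      refine ⟨y, hy.trans ?_⟩
      conv_lhs => rw [q1]
      simp [mul_comm]
  choose η n hη hk using h1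
  refine ⟨∏ i, η i, ∑ i, n i, ?_, fun i x hx => ?_⟩
  · rw [map_prod]
    exact Finset.prod_ne_zero_iff.2 fun i _ => hη i
  · obtain ⟨y, hy⟩ := hk i x hx
    refine ⟨((∏ j ∈ Finset.univ.erase i, η j) * X i ^ (∑ j ∈ Finset.univ.erase i, n j + 1) :
      MvPolynomial σ ℚ) • y, ?_⟩
    rw [map_smul, hy, ← Finset.prod_erase_mul _ _ (Finset.mem_univ i),
      ← Finset.sum_erase_add _ _ (Finset.mem_univ i)]
    module

section Blocks

variable {R ι : Type*} [CommRing R] [Fintype ι] [DecidableEq ι]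

/-- Extension by zero. -/
def ext0 (R : Type*) [CommRing R] (P : ι → Prop) [DecidablePred P] :
    ({i // P i} → R) →ₗ[R] (ι → R) :=
  LinearMap.pi fun i => if h : P i then LinearMap.proj (⟨i, h⟩ : {i // P i}) else 0

/-- Restriction. -/
def res0 (R : Type*) [CommRing R] (P : ι → Prop) : (ι → R) →ₗ[R] ({i // P i} → R) :=
  LinearMap.funLeft R R Subtype.val

/-- A block of a matrix. -/
def blk (D : Matrix ι ι R) (P Q : ι → Prop) [DecidablePred P] :
    ({i // P i} → R) →ₗ[R] ({i // Q i} → R) :=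
  res0 R Q ∘ₗ D.mulVecLin ∘ₗ ext0 R P

variable {P Q : ι → Prop} [DecidablePred P] [DecidablePred Q] {D : Matrix ι ι R}

theorem ext0_pos (x : {i // P i} → R) {i : ι} (h : P i) : ext0 R P x i = x ⟨i, h⟩ := by
  simp [ext0, h]

theorem ext0_neg (x : {i // P i} → R) {i : ι} (h : ¬ P i) : ext0 R P x i = 0 := by
  simp [ext0, h]

theorem ext0_single {i : ι} (h : P i) :
    ext0 R P (Pi.single ⟨i, h⟩ 1) = Pi.single i 1 := by
  funext j
  by_cases hj : P j
  · rw [ext0_pos _ hj]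
    simp [Pi.single_apply]
  · rw [ext0_neg _ hj, Pi.single_eq_of_ne]
    exact fun e => hj (e ▸ h)

theorem blk_apply (x : {i // P i} → R) (i : {i // Q i}) :
    blk D P Q x i = D.mulVecLin (ext0 R P x) i := rfl

theorem d_ext0 (hPQ : ∀ i, Q i ↔ ¬ P i) (hD : ∀ i j, P i → P j → D i j = 0)
    (x : {i // P i} → R) : D.mulVecLin (ext0 R P x) = ext0 R Q (blk D P Q x) := by
  funext i
  by_cases hi : Q i
  · rw [ext0_pos _ hi, blk_apply]
  · rw [ext0_neg _ hi]
    change ∑ j, D i j * ext0 R P x j = 0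
    refine Finset.sum_eq_zero fun j _ => ?_
    by_cases hj : P j
    · rw [hD i j (by simpa [hPQ] using hi) hj, zero_mul]
    · rw [ext0_neg _ hj, mul_zero]

theorem blk_blk (hPQ : ∀ i, Q i ↔ ¬ P i) (hD : ∀ i j, P i → P j → D i j = 0) (hDD : D * D = 0)
    (x : {i // P i} → R) : blk D Q P (blk D P Q x) = 0 := by
  funext i
  rw [blk_apply, ← d_ext0 hPQ hD]
  simp [hDD]

theorem blk_kill (hPQ : ∀ i, Q i ↔ ¬ P i) (hD : ∀ i j, P i → P j → D i j = 0) {s : R}
    (h : ∀ v, D.mulVecLin v = 0 → ∃ w, D.mulVecLin w = s • v) (x : {i // P i} → R)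
    (hx : blk D P Q x = 0) : ∃ y, blk D Q P y = s • x := by
  obtain ⟨w, hw⟩ := h (ext0 R P x) (by rw [d_ext0 hPQ hD, hx, map_zero])
  refine ⟨res0 R Q w, funext fun i => ?_⟩
  have e : w = ext0 R P (res0 R P w) + ext0 R Q (res0 R Q w) := by
    funext j
    by_cases hj : P j
    · rw [Pi.add_apply, ext0_pos _ hj, ext0_neg _ (by simpa [hPQ] using hj), add_zero]
      rfl
    · rw [Pi.add_apply, ext0_neg _ hj, ext0_pos _ ((hPQ j).2 hj), zero_add]
      rfl
  have h1 := congrFun hw i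
  rw [e, map_add, d_ext0 hPQ hD, Pi.add_apply, ext0_neg _ (by simpa [hPQ] using i.2), zero_add,
    Pi.smul_apply, ext0_pos _ i.2] at h1
  exact h1

theorem bilin_vanish {G : Type*} [AddCommGroup G] [Module R G]
    (L : (ι → R) →ₗ[R] (ι → R) →ₗ[R] G)
    (h : ∀ i j, P i → L (Pi.single i 1) (Pi.single j 1) = 0) (x : {i // P i} → R) (v : ι → R) :
    L (ext0 R P x) v = 0 := by
  have e : ∀ i : ι, (fun j => if i = j then (1 : R) else 0) = Pi.single i 1 := fun i => by
    funext j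
    simp [Pi.single_apply, eq_comm]
  rw [LinearMap.pi_apply_eq_sum_univ L, LinearMap.sum_apply]
  refine Finset.sum_eq_zero fun i _ => ?_
  by_cases hi : P i
  · rw [LinearMap.smul_apply, LinearMap.pi_apply_eq_sum_univ _ v,
      Finset.sum_eq_zero fun j _ => by rw [e, e, h i j hi, smul_zero], smul_zero]
  · rw [ext0_neg _ hi, zero_smul, LinearMap.zero_apply]

end Blocks

theorem four_distinct (h : 4 ≤ Fintype.card σ) : ∃ i1 i2 i3 i4 : σ, i2 ≠ i1 ∧ i3 ≠ i1 ∧ i3 ≠ i2 ∧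
    i4 ≠ i1 ∧ i4 ≠ i2 ∧ i4 ≠ i3 := by
  obtain ⟨f⟩ : Nonempty (Fin 4 ↪ σ) := Function.Embedding.nonempty_of_card_le (by simpa using h)
  exact ⟨f 0, f 1, f 2, f 3, by simp, by simp, by simp, by simp, by simp, by simp⟩

theorem exists_div {J : Type*} (v : J → MvPolynomial σ ℚ) (h : ∀ j, constantCoeff (v j) = 0) :
    ∃ w : σ → J → MvPolynomial σ ℚ, v = ∑ b, (X b : MvPolynomial σ ℚ) • w b := by
  classical
  choose c _ hc using fun j => exists_eq_sum_of_mem_PI (mem_PI_one_univ (h j))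
  exact ⟨fun b j => c j b, funext fun j => by simpa using hc j⟩

variable {ι : Type} [Fintype ι] [DecidableEq ι]

/-- The main estimate, for a splitting of the generators into two classes. -/
theorem main_split {D : Matrix ι ι (MvPolynomial σ ℚ)} {P Q : ι → Prop} [DecidablePred P]
    [DecidablePred Q] (h4 : 4 ≤ Fintype.card σ) (hPQ : ∀ i, Q i ↔ ¬ P i)
    (hD : ∀ i j, P i → P j → D i j = 0) (hD' : ∀ i j, Q i → Q j → D i j = 0) (hDD : D * D = 0)
    (hmin : ∀ i j, constantCoeff (D i j) = 0)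
    [Module.Finite ℚ (LinearMap.ker D.mulVecLin ⧸
      (LinearMap.range D.mulVecLin).submoduleOf (LinearMap.ker D.mulVecLin))]
    {u τ : ι} (hu : P u) (hu0 : ∀ i, D i u = 0) (hτ : ∀ j, D τ j = 0) :
    4 * Fintype.card σ ≤ Fintype.card ι + 2 ∧
    ∀ μ : (ι → MvPolynomial σ ℚ) →ₗ[MvPolynomial σ ℚ] (ι → MvPolynomial σ ℚ) →ₗ[MvPolynomial σ ℚ]
        (ι → MvPolynomial σ ℚ),
      (∀ x v, D.mulVecLin (μ (ext0 _ P x) v)
        = μ (D.mulVecLin (ext0 _ P x)) v + μ (ext0 _ P x) (D.mulVecLin v)) →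
      (∀ y v, D.mulVecLin (μ (ext0 _ Q y) v)
        = μ (D.mulVecLin (ext0 _ Q y)) v - μ (ext0 _ Q y) (D.mulVecLin v)) →
      (∀ x v, μ (ext0 _ P x) v = μ v (ext0 _ P x)) → (∀ v, μ (Pi.single u 1) v = v) →
      Even (Fintype.card σ) → 4 * Fintype.card σ ≤ Fintype.card ι := by
  have hQP : ∀ i, P i ↔ ¬ Q i := fun i => by simp [hPQ]
  obtain ⟨i1, i2, i3, i4, h21, h31, h32, h41, h42, h43⟩ := four_distinct h4
  obtain ⟨η, n, hη, hk⟩ := kill_of_finite D.mulVecLin
  set d0 := blk D P Q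
  set d1 := blk D Q P
  have k0 : Kills d0 d1 η (n + 1) := fun i => blk_kill hPQ hD (hk i)
  have k1 : Kills d1 d0 η (n + 1) := fun i => blk_kill hQP hD' (hk i)
  have dd0 : ∀ x, d1 (d0 x) = 0 := blk_blk hPQ hD hDD
  have dd1 : ∀ y, d0 (d1 y) = 0 := blk_blk hQP hD' hDD
  have x0 : ∀ x, D.mulVecLin (ext0 _ P x) = ext0 _ Q (d0 x) := d_ext0 hPQ hD
  have x1 : ∀ y, D.mulVecLin (ext0 _ Q y) = ext0 _ P (d1 y) := d_ext0 hQP hD'
  have cc : ∀ v i, constantCoeff (D.mulVecLin v i) = 0 := fun v i => by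
    change constantCoeff (∑ j, D i j * v j) = 0
    simp [hmin]
  have top : ∀ v, D.mulVecLin v τ = 0 := fun v => by
    change ∑ j, D τ j * v j = 0
    simp [hτ]
  let e0 : ({i // P i} → MvPolynomial σ ℚ) →ₗ[MvPolynomial σ ℚ] MvPolynomial σ ℚ :=
    LinearMap.proj ⟨u, hu⟩
  have he0 : ∀ y, constantCoeff (e0 (d1 y)) = 0 := fun y => cc _ _
  obtain ⟨N, g, a, θ, hf, hθ⟩ := exists_frame (e0 := e0) hη k0 k1 (z0 := Pi.single ⟨u, hu⟩ 1)
    (by
      funext i
      rw [blk_apply, ext0_single]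
      simp [hu0])
    (by simp [e0])
  have hη3 : constantCoeff (η ^ 3) ≠ 0 := by
    rw [map_pow]
    exact pow_ne_zero _ hη
  have cnt : 2 * (finrank (MvPolynomial σ ℚ) (LinearMap.range d0)
      + finrank (MvPolynomial σ ℚ) (LinearMap.range d1)) ≤ Fintype.card ι := by
    have h1 := rank_nullity d0
    have h2 := rank_nullity d1
    have h3 : finrank (MvPolynomial σ ℚ) (LinearMap.range d1)
        ≤ finrank (MvPolynomial σ ℚ) (LinearMap.ker d0) :=
      Submodule.finrank_mono (by rintro _ ⟨y, rfl⟩; exact dd1 y)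
    have h5 : finrank (MvPolynomial σ ℚ) (LinearMap.range d0)
        ≤ finrank (MvPolynomial σ ℚ) (LinearMap.ker d1) :=
      Submodule.finrank_mono (by rintro _ ⟨y, rfl⟩; exact dd0 y)
    rw [finrank_fintype_fun_eq_card] at h1 h2
    have h6 : Fintype.card {i // Q i} = Fintype.card ι - Fintype.card {i // P i} := by
      rw [← Fintype.card_subtype_compl]
      exact Fintype.card_congr (Equiv.subtypeEquivRight hPQ)
    have h7 := Fintype.card_subtype_le P
    omega
  have r0 := hf.odd_rank he0 i1 (B := LinearMap.range d0) fun i j => ⟨_, rfl⟩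
  have r1 := hf.even_rank he0 dd0 h21 (B := LinearMap.range d1) ⟨_, rfl⟩ fun i j l => ⟨_, hθ i j l⟩
  by_cases hp : P τ
  · let o : ({i // P i} → MvPolynomial σ ℚ) →ₗ[MvPolynomial σ ℚ] MvPolynomial σ ℚ :=
      LinearMap.proj ⟨τ, hp⟩
    have ho : ∀ x, d0 x = 0 → o x = 0 := k0.form hη i1 fun y => top _
    have hω : o (Pi.single ⟨τ, hp⟩ 1) = 1 := by simp [o]
    obtain ⟨g', a', hf', ha'⟩ := hf.top_even dd0 h21 h31 h32 ho hω
    have r2 := hf'.odd_rank he0 i1 (B := (LinearMap.ker o).map d0) fun i j => ⟨_, ha' i j, rfl⟩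
    have r3 := rank_step d0 o ho (hω ▸ one_ne_zero)
    refine ⟨by omega, fun μ L0 L1 hc hun _ => ?_⟩
    obtain ⟨w, hw⟩ := exists_div (d0 (Pi.single ⟨τ, hp⟩ 1)) fun j => cc _ _
    have r4 := hf'.pair_even
      ((μ.compl₁₂ (ext0 _ P) (ext0 _ P)).compr₂ (LinearMap.proj τ))
      ((μ.compl₁₂ (ext0 _ Q) (ext0 _ Q)).compr₂ (LinearMap.proj τ)) (w := w) (η := η ^ 3)
      (fun x y => by
        have := congrFun (L0 x (ext0 _ Q y)) τ
        rw [top, x0, x1, Pi.add_apply] at this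
        exact eq_neg_of_add_eq_zero_right this.symm)
      (fun i j => by
        change μ (ext0 _ P (a' i j)) (ext0 _ P ((η ^ 3 : MvPolynomial σ ℚ) • _)) τ = 0
        rw [hc, map_smul, ext0_single, map_smul, LinearMap.smul_apply, hun, Pi.smul_apply,
          ext0_pos _ hp]
        exact smul_eq_zero_of_right _ (ha' i j))
      hη3 (fun i => by
        have h1 := congrFun (L1 (g' i) (ext0 _ P (Pi.single ⟨τ, hp⟩ 1))) τ
        rw [top, x0, x1, hw, hf'.hg, Pi.sub_apply] at h1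
        simp only [map_sum, map_smul, Finset.sum_apply, Pi.smul_apply, smul_eq_mul, ext0_single,
          LinearMap.smul_apply, hun, Pi.single_eq_same, mul_one] at h1
        change ∑ b, X b * μ (ext0 _ Q (g' i)) (ext0 _ Q (w b)) τ = _
        linear_combination h1) i1
    omega
  · have hq : Q τ := (hPQ τ).2 hp
    let o : ({i // Q i} → MvPolynomial σ ℚ) →ₗ[MvPolynomial σ ℚ] MvPolynomial σ ℚ :=
      LinearMap.proj ⟨τ, hq⟩
    have ho : ∀ y, d1 y = 0 → o y = 0 := k1.form hη i1 fun y => top _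
    have hω : o (Pi.single ⟨τ, hq⟩ 1) = 1 := by simp [o]
    obtain ⟨z', g', a', hf', hg', ha'⟩ := hf.top_odd dd1 he0 hθ h21 h31 h32 h41 h42 h43 ho
      (fun x => top _) hω
    have r2 := hf'.even_rank he0 dd0 h21 (B := (LinearMap.ker o).map d1) ⟨_, hg' _, rfl⟩ ha'
    have r3 := rank_step d1 o ho (hω ▸ one_ne_zero)
    refine ⟨by omega, fun μ L0 L1 hc hun hev => ?_⟩
    obtain ⟨w, hw⟩ := exists_div (d1 (Pi.single ⟨τ, hq⟩ 1)) fun j => cc _ _
    have r4 := hf.pair_odd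
      ((μ.compl₁₂ (ext0 _ Q) (ext0 _ P)).compr₂ (LinearMap.proj τ)) (w := w) (η := η ^ 3)
      (fun x y => by
        have := congrFun (L0 x (ext0 _ P y)) τ
        rw [top, x0, x0, Pi.add_apply, hc x] at this
        exact eq_neg_of_add_eq_zero_left this.symm)
      hη3 (fun i => by
        have h1 := congrFun (L1 (g i) (ext0 _ Q (Pi.single ⟨τ, hq⟩ 1))) τ
        rw [top, x1, x1, hw, hf.hg, Pi.sub_apply] at h1
        simp only [map_sum, map_smul, Finset.sum_apply, Pi.smul_apply, smul_eq_mul, ext0_single,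
          LinearMap.smul_apply, hun, Pi.single_eq_same, mul_one] at h1
        change ∑ b, X b * μ (ext0 _ Q (g i)) (ext0 _ P (w b)) τ = _
        linear_combination h1) hev i1
    omega

end Pool.Agent.Toral
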