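import Mathlib

/-!
Monomial ideals generated by powers of variables, Koszul cocycles of small degree.
-/

set_option linter.unusedVariables false
set_option linter.unusedSectionVars false

namespace Pool.Agent.Toral

open MvPolynomial

section Mono

variable {σ k : Type*} [CommRing k]

/-- The ideal generated by the `n`-th powers of the variables in `T`. -/
noncomputable def PI (k : Type*) [CommRing k] (n : ℕ) (T : Set σ) : Ideal (MvPolynomial σ k) :=
  Ideal.span ((fun i => (X i : MvPolynomial σ k) ^ n) '' T)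

theorem mem_PI {n : ℕ} {T : Set σ} {p : MvPolynomial σ k} :
    p ∈ PI k n T ↔ ∀ m ∈ p.support, ∃ i ∈ T, n ≤ m i := by
  have := @mem_ideal_span_monomial_image σ k _ p ((fun i => Finsupp.single i n) '' T)
  rw [Set.image_image] at this
  unfold PI
  simp only [X_pow_eq_monomial]
  refine this.trans ?_
  simp

theorem pow_mem_PI {n : ℕ} {T : Set σ} {i : σ} (hi : i ∈ T) :
    (X i : MvPolynomial σ k) ^ n ∈ PI k n T :=
  Ideal.subset_span ⟨i, hi, rfl⟩

theorem PI_nzd {n e : ℕ} {T : Set σ} {j : σ} (hj : j ∉ T) {p : MvPolynomial σ k}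
    (h : X j ^ e * p ∈ PI k n T) : p ∈ PI k n T := by
  classical
  rw [mem_PI] at h ⊢
  intro m hm
  obtain ⟨i, hi, hle⟩ := h (Finsupp.single j e + m) (by
    rw [mem_support_iff, X_pow_eq_monomial, coeff_monomial_mul, one_mul]
    exact mem_support_iff.1 hm)
  refine ⟨i, hi, ?_⟩
  have : j ≠ i := fun e => hj (e ▸ hi)
  simpa [Finsupp.single_apply, this] using hle

theorem reg2 {n e : ℕ} {a b : σ} (hab : b ≠ a) {p q : MvPolynomial σ k}
    (h : X b ^ e * p = X a ^ n * q) : ∃ s, p = X a ^ n * s := by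
  have h1 : p ∈ PI k n {a} := PI_nzd (e := e) (j := b) (by simpa using hab)
    (h ▸ Ideal.mul_mem_right _ _ (pow_mem_PI rfl))
  unfold PI at h1
  rw [Set.image_singleton, Ideal.mem_span_singleton'] at h1
  obtain ⟨s, hs⟩ := h1
  exact ⟨s, by rw [← hs]; ring⟩

theorem reg3 {n e : ℕ} {a b c : σ} (hca : c ≠ a) (hcb : c ≠ b) {p q q' : MvPolynomial σ k}
    (h : X c ^ e * p = X a ^ n * q + X b ^ n * q') : ∃ s t, p = X a ^ n * s + X b ^ n * t := by
  have h1 : p ∈ PI k n {a, b} := PI_nzd (e := e) (j := c) (by simp [hca, hcb])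
    (h ▸ Ideal.add_mem _ (Ideal.mul_mem_right _ _ (pow_mem_PI (by simp)))
      (Ideal.mul_mem_right _ _ (pow_mem_PI (by simp))))
  unfold PI at h1
  rw [Set.image_pair, Ideal.mem_span_pair] at h1
  obtain ⟨s, t, hs⟩ := h1
  exact ⟨s, t, by rw [← hs]; ring⟩

theorem reg4 {n e : ℕ} {a b c d : σ} (hda : d ≠ a) (hdb : d ≠ b) (hdc : d ≠ c)
    {p q q' q'' : MvPolynomial σ k}
    (h : X d ^ e * p = X a ^ n * q + X b ^ n * q' + X c ^ n * q'') :
    ∃ s t u, p = X a ^ n * s + X b ^ n * t + X c ^ n * u := by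
  have h1 : p ∈ PI k n {a, b, c} := PI_nzd (e := e) (j := d) (by simp [hda, hdb, hdc])
    (h ▸ Ideal.add_mem _ (Ideal.add_mem _ (Ideal.mul_mem_right _ _ (pow_mem_PI (by simp)))
      (Ideal.mul_mem_right _ _ (pow_mem_PI (by simp))))
      (Ideal.mul_mem_right _ _ (pow_mem_PI (by simp))))
  unfold PI at h1
  rw [Set.image_insert_eq, Set.image_pair, Ideal.mem_span_insert] at h1
  obtain ⟨s, z, hz, hs⟩ := h1
  rw [Ideal.mem_span_pair] at hz
  obtain ⟨t, u, rfl⟩ := hz
  exact ⟨s, t, u, by rw [hs]; ring⟩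

/-- A polynomial without constant term is a combination of the variables. -/
theorem exists_eq_sum_of_mem_PI [Fintype σ] {T : Set σ} [DecidablePred (· ∈ T)] {n : ℕ}
    {p : MvPolynomial σ k} (h : p ∈ PI k n T) :
    ∃ c : σ → MvPolynomial σ k, (∀ i, i ∉ T → c i = 0) ∧ p = ∑ i, X i ^ n * c i := by
  unfold PI at h
  induction h using Submodule.span_induction with
  | mem x hx =>
    classical
    obtain ⟨i, hi, rfl⟩ := hx
    refine ⟨Pi.single i 1, fun j hj => ?_, ?_⟩
    · have : j ≠ i := fun e => hj (e ▸ hi)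
      simp [this]
    · simp [Pi.single_apply]
  | zero => exact ⟨0, fun _ _ => rfl, by simp⟩
  | add x y _ _ hx hy =>
    obtain ⟨c, c1, rfl⟩ := hx
    obtain ⟨d, d1, rfl⟩ := hy
    exact ⟨c + d, fun i hi => by simp [c1 i hi, d1 i hi], by
      simp [mul_add, Finset.sum_add_distrib]⟩
  | smul a x _ hx =>
    obtain ⟨c, c1, rfl⟩ := hx
    exact ⟨fun i => a * c i, fun i hi => by simp [c1 i hi], by
      rw [smul_eq_mul, Finset.mul_sum]
      exact Finset.sum_congr rfl fun i _ => by ring⟩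

theorem mem_PI_one_univ {p : MvPolynomial σ k} (h : constantCoeff p = 0) :
    p ∈ PI k 1 (Set.univ : Set σ) := by
  rw [mem_PI]
  intro m hm
  by_contra hcon
  push Not at hcon
  have : m = 0 := Finsupp.ext fun i => by simpa using hcon i trivial
  subst this
  exact mem_support_iff.1 hm h

end Mono

section Cocycle

variable {A V : Type*} [CommRing A]

/-- Koszul 2-cocycles are coboundaries up to a multiplier. -/
theorem cob2 {c u1 u2 u3 a12 a13 a23 : A} {f p1 p2 : V → A} {α : V → V → A}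
    (h1 : ∀ b, u1 * b = 0 → b = 0) (h2 : ∀ b s, u2 * b = u1 * s → ∃ t, c * b = u1 * t)
    (h3 : ∀ b s t, u3 * b = u1 * s + u2 * t → ∃ s' t', c * b = u1 * s' + u2 * t')
    (I1 : u1 * a23 - u2 * a13 + u3 * a12 = 0)
    (I2 : ∀ v, u1 * p2 v - u2 * p1 v + f v * a12 = 0)
    (I3 : ∀ v w, u1 * α v w - f v * p1 w + f w * p1 v = 0) :
    ∃ b : V → A, ∀ v w, c ^ 2 * α v w = f v * b w - f w * b v := by
  obtain ⟨s, t, hst⟩ := h3 a12 (-a23) a13 (by linear_combination I1)
  have : ∀ v, ∃ b, c * (c * p1 v - f v * t) = u1 * b := fun v =>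
    h2 _ (c * p2 v + f v * s) (by linear_combination (-c) * I2 v + f v * hst)
  choose b hb using this
  refine ⟨b, fun v w => ?_⟩
  have := h1 (c ^ 2 * α v w - (f v * b w - f w * b v))
    (by linear_combination c ^ 2 * I3 v w + f v * hb w - f w * hb v)
  linear_combination this

/-- Koszul 3-cocycles are coboundaries. -/
theorem cob3 {f : V → A} {κ : V → V → V → A} (i1 i2 i3 i4 : V)
    (h1 : ∀ b, f i1 * b = 0 → b = 0) (h2 : ∀ b s, f i2 * b = f i1 * s → ∃ t, b = f i1 * t)
    (h3 : ∀ b s t, f i3 * b = f i1 * s + f i2 * t → ∃ s' t', b = f i1 * s' + f i2 * t')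
    (h4 : ∀ b s t u, f i4 * b = f i1 * s + f i2 * t + f i3 * u →
      ∃ s' t' u', b = f i1 * s' + f i2 * t' + f i3 * u')
    (I : ∀ i j l m, f i * κ j l m - f j * κ i l m + f l * κ i j m - f m * κ i j l = 0) :
    ∃ β : V → V → A, ∀ i j l, κ i j l = f i * β j l - f j * β i l + f l * β i j := by
  obtain ⟨s, t, u, hstu⟩ := h4 (κ i1 i2 i3) (κ i2 i3 i4) (-κ i1 i3 i4) (κ i1 i2 i4)
    (by linear_combination (-1) * I i1 i2 i3 i4)
  have e2 : ∀ v, ∃ q2 q1, κ i1 i2 v - f v * u = f i1 * q2 + f i2 * q1 := fun v =>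
    h3 _ (f v * s - κ i2 i3 v) (f v * t + κ i1 i3 v)
      (by linear_combination I i1 i2 i3 v + f v * hstu)
  choose q2 q1 hq using e2
  have e3 : ∀ v w, ∃ b, κ i1 v w - f v * q1 w + f w * q1 v = f i1 * b := fun v w =>
    h2 _ (κ i2 v w + f v * q2 w - f w * q2 v)
      (by linear_combination (-1) * I i1 i2 v w + f v * hq w - f w * hq v)
  choose β hβ using e3
  refine ⟨β, fun v w y => ?_⟩
  have := h1 (κ v w y - (f v * β w y - f w * β v y + f y * β v w))
    (by linear_combination I i1 v w y + f v * hβ w y - f w * hβ v y + f y * hβ v w)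
  linear_combination this

end Cocycle

section Func

variable {C M : Type*} [CommRing C] [IsDomain C] [AddCommGroup M] [Module C M]

/-- A finite torsion free module is free up to a multiplier. -/
theorem almost_free [Module.Finite C M] (htf : ∀ (a : C) (x : M), a • x = 0 → a = 0 ∨ x = 0) :
    ∃ (m : ℕ) (I : Set (Fin m)) (s : M →ₗ[C] (I → C)) (t : (I → C) →ₗ[C] M) (c : C), c ≠ 0 ∧
      ∀ x, t (s x) = c • x := by
  classical
  obtain ⟨m, v, hv⟩ := Module.Finite.exists_fin (R := C) (M := M)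
  obtain ⟨I, li, hI⟩ := exists_maximal_linearIndepOn C v
  have hex : ∀ i, ∃ a : C, a ≠ 0 ∧ a • v i ∈ Submodule.span C (v '' I) := fun i => by
    by_cases hi : i ∈ I
    · exact ⟨1, one_ne_zero, by
        rw [one_smul]; exact Submodule.subset_span (Set.mem_image_of_mem v hi)⟩
    · exact hI i hi
  choose a ha0 ha using hex
  let N := Submodule.span C (Set.range fun i : I => v i)
  have hN : N = Submodule.span C (v '' I) := by
    simp only [N]
    rw [← Set.image_eq_range]
  let b : Module.Basis I C N := Module.Basis.span li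
  have hc : ∀ x : M, (∏ i, a i) • x ∈ N := by
    intro x
    have hx : x ∈ Submodule.span C (Set.range v) := hv ▸ Submodule.mem_top
    induction hx using Submodule.span_induction with
    | mem x hx =>
      obtain ⟨i, rfl⟩ := hx
      rw [← Finset.prod_erase_mul _ _ (Finset.mem_univ i), mul_smul, hN]
      exact Submodule.smul_mem _ _ (ha i)
    | zero => simp
    | add x y _ _ hx hy => rw [smul_add]; exact N.add_mem hx hy
    | smul r x _ hx => rw [smul_comm]; exact N.smul_mem _ hx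
  refine ⟨m, I, b.equivFun.toLinearMap ∘ₗ
    LinearMap.codRestrict N ((LinearMap.lsmul C M) (∏ i, a i)) hc,
    N.subtype ∘ₗ b.equivFun.symm.toLinearMap, ∏ i, a i,
    Finset.prod_ne_zero_iff.2 fun i _ => ha0 i, fun x => ?_⟩
  simp

/-- A non-torsion element of a finite module is seen by a linear form. -/
theorem exists_dual_ne_zero [Module.Finite C M] {x : M} (hx : ∀ a : C, a ≠ 0 → a • x ≠ 0) :
    ∃ θ : M →ₗ[C] C, θ x ≠ 0 := by
  let T := Submodule.torsion C M
  have htf : ∀ (a : C) (y : M ⧸ T), a • y = 0 → a = 0 ∨ y = 0 := by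
    intro a y h
    by_cases ha : a = 0
    · exact Or.inl ha
    right
    obtain ⟨y, rfl⟩ := Submodule.mkQ_surjective T y
    rw [← map_smul, Submodule.mkQ_apply, Submodule.Quotient.mk_eq_zero] at h
    rw [Submodule.mkQ_apply, Submodule.Quotient.mk_eq_zero]
    obtain ⟨⟨b, hb⟩, hb'⟩ := h
    refine ⟨⟨b * a, mul_mem hb (mem_nonZeroDivisors_of_ne_zero ha)⟩, ?_⟩
    simpa [Submonoid.smul_def, mul_smul] using hb'
  obtain ⟨m, I, s, t, c, hc, h⟩ := almost_free (C := C) (M := M ⧸ T) htf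
  have hx' : T.mkQ x ≠ 0 := by
    intro h0
    rw [Submodule.mkQ_apply, Submodule.Quotient.mk_eq_zero] at h0
    obtain ⟨⟨b, hb⟩, hb'⟩ := h0
    exact hx b (nonZeroDivisors.ne_zero hb) hb'
  have hs : s (T.mkQ x) ≠ 0 := by
    intro h0
    have := h (T.mkQ x)
    rw [h0, map_zero] at this
    rcases htf _ _ this.symm with h1 | h1
    · exact hc h1
    · exact hx' h1
  obtain ⟨i, hi⟩ := Function.ne_iff.1 hs
  exact ⟨(LinearMap.proj i) ∘ₗ s ∘ₗ T.mkQ, hi⟩

end Func

end Pool.Agent.Toral
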