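import Pool.Agent.Lib.MP_238ec1_gt.Main

/-!
The perturbation lemma as ring identities, and the abstract form of the main estimate.
-/

set_option linter.unusedVariables false
set_option linter.unusedSectionVars false
set_option linter.style.haveILetI false

namespace Pool.Agent.Toral

open MvPolynomial Module

section Ring

variable {E : Type*} [Ring E]

/-- A contraction. -/
structure Contr (d s : E) : Prop where
  dd : d * d = 0
  dsd : d * s * d = d
  sds : s * d * s = s
  ss : s * s = 0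

theorem contr_of {d s : E} (dd : d * d = 0) (dsd : d * s * d = d) :
    Contr d (s * d * s * (1 - s * d)) := by
  have h1 : (1 - s * d) * d = d := by rw [sub_mul, one_mul, mul_assoc, dd, mul_zero, sub_zero]
  have h2 : (1 - s * d) * (s * d) = 0 := by
    rw [sub_mul, one_mul, mul_assoc s d, ← mul_assoc d s d, dsd, sub_self]
  refine ⟨dd, ?_, ?_, ?_⟩
  · calc d * (s * d * s * (1 - s * d)) * d = d * s * d * s * ((1 - s * d) * d) := by noncomm_ring
      _ = d := by rw [h1, dsd, dsd]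
  · calc s * d * s * (1 - s * d) * d * (s * d * s * (1 - s * d))
        = s * (d * s * ((1 - s * d) * d)) * s * d * s * (1 - s * d) := by noncomm_ring
      _ = s * d * s * d * s * (1 - s * d) := by rw [h1, dsd]
      _ = s * (d * s * d) * s * (1 - s * d) := by noncomm_ring
      _ = _ := by rw [dsd]
  · calc s * d * s * (1 - s * d) * (s * d * s * (1 - s * d))
        = s * d * s * ((1 - s * d) * (s * d)) * s * (1 - s * d) := by noncomm_ring
      _ = 0 := by rw [h2]; simp

variable {d s D U : E}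

theorem Contr.es (h : Contr d s) : (1 - d * s - s * d) * s = 0 := by
  rw [sub_mul, sub_mul, one_mul, mul_assoc d s s, h.ss, h.sds]
  simp

theorem Contr.se (h : Contr d s) : s * (1 - d * s - s * d) = 0 := by
  rw [mul_sub, mul_sub, mul_one, ← mul_assoc s d s, ← mul_assoc s s d, h.ss, h.sds]
  simp

theorem Contr.ed (h : Contr d s) : (1 - d * s - s * d) * d = 0 := by
  rw [sub_mul, sub_mul, one_mul, mul_assoc s d d, h.dd, h.dsd]
  simp

theorem Contr.de (h : Contr d s) : d * (1 - d * s - s * d) = 0 := by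
  rw [mul_sub, mul_sub, mul_one, ← mul_assoc d d s, ← mul_assoc d s d, h.dd, h.dsd]
  simp

theorem Contr.ee (h : Contr d s) :
    (1 - d * s - s * d) * (1 - d * s - s * d) = 1 - d * s - s * d := by
  nth_rewrite 1 [sub_mul, sub_mul]
  rw [mul_assoc d s, h.se, mul_assoc s d, h.de]
  simp

theorem pert (h : Contr d s) (DD : D * D = 0) (U1 : U * (1 + (D - d) * s) = 1)
    (U2 : (1 + (D - d) * s) * U = 1) {e : E} (he : e = 1 - d * s - s * d) :
    e * U * ((1 - s * U * D) * e) = e ∧ e * U * D = e * U * D * (e * U) ∧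
      D * ((1 - s * U * D) * e) = (1 - s * U * D) * e * (e * U * D * e) := by
  have es : e * s = 0 := he ▸ h.es
  have se : s * e = 0 := he ▸ h.se
  have ed : e * d = 0 := he ▸ h.ed
  have ee : e * e = e := he ▸ h.ee
  have Ue : U * e = e := by
    calc U * e = U * ((1 + (D - d) * s) * e) := by
          rw [add_mul, one_mul, mul_assoc, se, mul_zero, add_zero]
      _ = e := by rw [← mul_assoc, U1, one_mul]
  have Us : U * s = s := by
    calc U * s = U * ((1 + (D - d) * s) * s) := by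
          rw [add_mul, one_mul, mul_assoc, h.ss, mul_zero, add_zero]
      _ = s := by rw [← mul_assoc, U1, one_mul]
  have UDs : U * D * s = d * s := by
    calc U * D * s = U * (d * s + (D - d) * (s * d * s)) := by rw [h.sds]; noncomm_ring
      _ = U * (1 + (D - d) * s) * (d * s) := by noncomm_ring
      _ = d * s := by rw [U1, one_mul]
  have one : (e + s * d + D * s) * U = 1 := by
    rw [← U2, he]
    noncomm_ring
  have h1 : D * e = e * U * D * e + s * d * U * D * e + D * s * U * D * e := by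
    calc D * e = (e + s * d + D * s) * U * (D * e) := by rw [one, one_mul]
      _ = _ := by noncomm_ring
  refine ⟨?_, ?_, ?_⟩
  · calc e * U * ((1 - s * U * D) * e) = e * (U * e) - e * (U * s) * U * D * e := by noncomm_ring
      _ = e := by rw [Ue, Us, es, ee]; simp
  · calc e * U * D = e * U * D * ((e + s * d + D * s) * U) := by rw [one, mul_one]
      _ = e * U * D * (e * U) + e * (U * D * s) * d * U + e * U * (D * D) * s * U := by
          noncomm_ring
      _ = _ := by rw [UDs, DD, ← mul_assoc e d s, ed]; simp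
  · have h2 : s * U * D * (e * U * D * e) + s * d * U * D * e = 0 := by
      calc s * U * D * (e * U * D * e) + s * d * U * D * e
          = s * U * D * (e * U * D * e) + s * d * s * d * U * D * e := by rw [h.sds]
        _ = s * U * D * (e * U * D * e) + s * (U * D * s) * d * U * D * e
            + s * U * (D * D) * s * U * D * e := by rw [UDs, DD]; noncomm_ring
        _ = s * U * D * (e * U * D * e + s * d * U * D * e + D * s * U * D * e) := by noncomm_ring
        _ = s * U * (D * D) * e := by rw [← h1]; noncomm_ring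
        _ = 0 := by rw [DD]; simp
    calc D * ((1 - s * U * D) * e) = D * e - D * s * U * D * e := by noncomm_ring
      _ = e * U * D * e + s * d * U * D * e := by nth_rewrite 1 [h1]; noncomm_ring
      _ = e * U * D * e - s * U * D * (e * U * D * e)
          + (s * U * D * (e * U * D * e) + s * d * U * D * e) := by noncomm_ring
      _ = (1 - s * U * D) * (e * e * U * D * e) := by rw [h2, ee]; noncomm_ring
      _ = _ := by noncomm_ring

theorem comm_of_inv {S T : E} (U1 : U * T = 1) (U2 : T * U = 1) (h : S * T = T * S) :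
    S * U = U * S := by
  calc S * U = U * T * S * U := by rw [U1, one_mul]
    _ = U * S * (T * U) := by rw [mul_assoc U T S, ← h]; noncomm_ring
    _ = U * S := by rw [U2, mul_one]

end Ring

theorem exists_inv_of_nilpotent {C M : Type*} [CommRing C] [AddCommGroup M] [Module C M]
    (Θ : Module.End C M) (Fil : ℕ → Submodule C M) (h0 : Fil 0 = ⊥)
    (h1 : ∀ j, ∀ x ∈ Fil (j + 1), Θ x ∈ Fil j) (h2 : ∀ j, Fil j ≤ Fil (j + 1))
    (h3 : ∀ x, ∃ j, x ∈ Fil j) :
    ∃ U : Module.End C M, U * (1 + Θ) = 1 ∧ (1 + Θ) * U = 1 ∧ ∀ j, ∀ x ∈ Fil j, U x ∈ Fil j := by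
  have inj : ∀ j, ∀ x ∈ Fil j, (1 + Θ) x = 0 → x = 0 := by
    intro j
    induction j with
    | zero => intro x hx _; simpa [h0] using hx
    | succ j ih =>
      intro x hx h
      refine ih x ?_ h
      have : x = -Θ x := eq_neg_of_add_eq_zero_left h
      rw [this]
      exact neg_mem (h1 j x hx)
  have sur : ∀ j, ∀ x ∈ Fil j, ∃ y ∈ Fil j, (1 + Θ) y = x := by
    intro j
    induction j with
    | zero => intro x hx; exact ⟨0, zero_mem _, by simpa [h0, eq_comm] using hx⟩
    | succ j ih =>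
      intro x hx
      obtain ⟨y, y1, y2⟩ := ih _ (h1 j x hx)
      refine ⟨x - y, sub_mem hx (h2 j y1), ?_⟩
      rw [map_sub, y2]
      simp
  have hi : Function.Injective (1 + Θ : Module.End C M) := by
    rw [injective_iff_map_eq_zero]
    exact fun x hx => (h3 x).elim fun j hj => inj j x hj hx
  let e := LinearEquiv.ofBijective (1 + Θ : Module.End C M)
    ⟨hi, fun x => (h3 x).elim fun j hj => (sur j x hj).imp fun y hy => hy.2⟩
  refine ⟨e.symm, LinearMap.ext fun x => e.symm_apply_apply x,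
    LinearMap.ext fun x => e.apply_symm_apply x, fun j x hx => ?_⟩
  obtain ⟨y, y1, rfl⟩ := sur j x hx
  exact (e.symm_apply_apply y).symm ▸ y1

variable {σ : Type} [Fintype σ] [DecidableEq σ]

variable {F0 F1 : Type*} [AddCommGroup F0] [Module (MvPolynomial σ ℚ) F0] [AddCommGroup F1]
  [Module (MvPolynomial σ ℚ) F1] [Module.Free (MvPolynomial σ ℚ) F0]
  [Module.Finite (MvPolynomial σ ℚ) F0] [Module.Free (MvPolynomial σ ℚ) F1]
  [Module.Finite (MvPolynomial σ ℚ) F1]
  {d0 : F0 →ₗ[MvPolynomial σ ℚ] F1} {d1 : F1 →ₗ[MvPolynomial σ ℚ] F0}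
  {e0 : F0 →ₗ[MvPolynomial σ ℚ] MvPolynomial σ ℚ} {η : MvPolynomial σ ℚ} {n : ℕ} {z0 : F0}

theorem abs_count (dd0 : ∀ x, d1 (d0 x) = 0) (dd1 : ∀ y, d0 (d1 y) = 0) :
    2 * (finrank (MvPolynomial σ ℚ) (LinearMap.range d0)
      + finrank (MvPolynomial σ ℚ) (LinearMap.range d1))
      ≤ finrank (MvPolynomial σ ℚ) F0 + finrank (MvPolynomial σ ℚ) F1 := by
  have h1 := rank_nullity d0
  have h2 := rank_nullity d1
  have h3 : finrank (MvPolynomial σ ℚ) (LinearMap.range d1)
      ≤ finrank (MvPolynomial σ ℚ) (LinearMap.ker d0) :=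
    Submodule.finrank_mono (by rintro _ ⟨y, rfl⟩; exact dd1 y)
  have h5 : finrank (MvPolynomial σ ℚ) (LinearMap.range d0)
      ≤ finrank (MvPolynomial σ ℚ) (LinearMap.ker d1) :=
    Submodule.finrank_mono (by rintro _ ⟨y, rfl⟩; exact dd0 y)
  omega

theorem abs_even (h4 : 4 ≤ Fintype.card σ) (hη : constantCoeff η ≠ 0)
    (k0 : Kills d0 d1 η (n + 1)) (k1 : Kills d1 d0 η (n + 1)) (dd0 : ∀ x, d1 (d0 x) = 0)
    (dd1 : ∀ y, d0 (d1 y) = 0) (he0 : ∀ y, constantCoeff (e0 (d1 y)) = 0) (hz : d0 z0 = 0)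
    (he : constantCoeff (e0 z0) ≠ 0)
    (P0 : F0 →ₗ[MvPolynomial σ ℚ] F0 →ₗ[MvPolynomial σ ℚ] MvPolynomial σ ℚ)
    (P1 : F1 →ₗ[MvPolynomial σ ℚ] F1 →ₗ[MvPolynomial σ ℚ] MvPolynomial σ ℚ) {ω : F0}
    (hP : ∀ x y, P0 x (d1 y) = -P1 (d0 x) y) (hs : ∀ x, P0 x z0 = P0 z0 x)
    (hQ : ∀ y, P1 y (d0 ω) = P0 (d1 y) ω) (hω : P0 z0 ω = 1)
    (hm : ∃ w : σ → F1, d0 ω = ∑ b, (X b : MvPolynomial σ ℚ) • w b) :
    4 * Fintype.card σ ≤ finrank (MvPolynomial σ ℚ) F0 + finrank (MvPolynomial σ ℚ) F1 := by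
  obtain ⟨i1, i2, i3, i4, h21, h31, h32, h41, h42, h43⟩ := four_distinct h4
  obtain ⟨N, g, a, θ, hf, hθ⟩ := exists_frame (e0 := e0) hη k0 k1 hz he
  have ho : ∀ x, d0 x = 0 → P0 z0 x = 0 := k0.form hη i1 fun y => by simp [hP, hz]
  obtain ⟨g', a', hf', ha'⟩ := hf.top_even dd0 h21 h31 h32 ho hω
  have r2 := hf'.odd_rank he0 i1 (B := (LinearMap.ker (P0 z0)).map d0)
    fun i j => ⟨_, ha' i j, rfl⟩
  have r3 := rank_step d0 (P0 z0) ho (hω ▸ one_ne_zero)
  obtain ⟨w, hw⟩ := hm
  have r4 := hf'.pair_even P0 P1 (w := w) (η := η ^ 3) hP (fun i j => by simp [hs, ha'])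
    (by rw [map_pow]; exact pow_ne_zero _ hη) (fun i => by
      have h1 := hQ (g' i)
      rw [hw, hf'.hg] at h1
      simp only [map_sum, map_smul, smul_eq_mul, LinearMap.smul_apply, hω, mul_one] at h1
      linear_combination h1) i1
  have := abs_count dd0 dd1
  omega

theorem abs_odd (h4 : 4 ≤ Fintype.card σ) (hη : constantCoeff η ≠ 0)
    (k0 : Kills d0 d1 η (n + 1)) (k1 : Kills d1 d0 η (n + 1)) (dd0 : ∀ x, d1 (d0 x) = 0)
    (dd1 : ∀ y, d0 (d1 y) = 0) (he0 : ∀ y, constantCoeff (e0 (d1 y)) = 0) (hz : d0 z0 = 0)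
    (he : constantCoeff (e0 z0) ≠ 0)
    (P : F1 →ₗ[MvPolynomial σ ℚ] F0 →ₗ[MvPolynomial σ ℚ] MvPolynomial σ ℚ)
    (P' : F0 →ₗ[MvPolynomial σ ℚ] F1 →ₗ[MvPolynomial σ ℚ] MvPolynomial σ ℚ) {ω : F1}
    (hP : ∀ x y, P (d0 x) y = -P' x (d0 y)) (hs : ∀ x y, P' x y = P y x)
    (hQ : ∀ y, P y (d1 ω) = P' (d1 y) ω) (hω : P' z0 ω = 1)
    (hm : ∃ w : σ → F0, d1 ω = ∑ b, (X b : MvPolynomial σ ℚ) • w b) :
    4 * Fintype.card σ ≤ finrank (MvPolynomial σ ℚ) F0 + finrank (MvPolynomial σ ℚ) F1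
      + 2 * (Fintype.card σ % 2) := by
  obtain ⟨i1, i2, i3, i4, h21, h31, h32, h41, h42, h43⟩ := four_distinct h4
  obtain ⟨N, g, a, θ, hf, hθ⟩ := exists_frame (e0 := e0) hη k0 k1 hz he
  have ho' : ∀ x, P' z0 (d0 x) = 0 := fun x => by
    have := hP z0 x
    rw [hz, map_zero, LinearMap.zero_apply] at this
    exact neg_eq_zero.1 this.symm
  have ho : ∀ y, d1 y = 0 → P' z0 y = 0 := k1.form hη i1 ho'
  obtain ⟨z', g', a', hf', hg', ha'⟩ := hf.top_odd dd1 he0 hθ h21 h31 h32 h41 h42 h43 ho ho' hω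
  have r0 := hf.odd_rank he0 i1 (B := LinearMap.range d0) fun i j => ⟨_, rfl⟩
  have r2 := hf'.even_rank he0 dd0 h21 (B := (LinearMap.ker (P' z0)).map d1) ⟨_, hg' _, rfl⟩ ha'
  have r3 := rank_step d1 (P' z0) ho (hω ▸ one_ne_zero)
  have := abs_count dd0 dd1
  rcases Nat.even_or_odd (Fintype.card σ) with hev | hod
  · obtain ⟨w, hw⟩ := hm
    have r4 := hf.pair_odd P (w := w) (η := η ^ 3) (fun x y => by rw [hP, hs])
      (by rw [map_pow]; exact pow_ne_zero _ hη) (fun i => by
        have h1 := hQ (g i)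
        rw [hw, hf.hg] at h1
        simp only [map_sum, map_smul, smul_eq_mul, LinearMap.smul_apply, hω, mul_one] at h1
        linear_combination h1) hev i1
    omega
  · rw [Nat.odd_iff] at hod
    omega

end Pool.Agent.Toral
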