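import Pool.Agent.Lib.MP_238ec1_gt.Rees

/-!
Lower bounds for the ranks of the boundaries.
-/

set_option linter.unusedVariables false
set_option linter.unusedSectionVars false
set_option linter.style.haveILetI false

namespace Pool.Agent.Toral

open MvPolynomial Module

variable {σ : Type} [Fintype σ] [DecidableEq σ]

theorem PI_mono {k : Type*} [CommRing k] {n : ℕ} {T T' : Set σ} (h : T ⊆ T') :
    PI k n T ≤ PI k n T' := Ideal.span_mono (Set.image_mono h)

theorem PI_insert {k : Type*} [CommRing k] {n : ℕ} {T : Set σ} {i : σ} {p : MvPolynomial σ k}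
    (h : p ∈ PI k n (insert i T)) : ∃ κ, p - X i ^ n * κ ∈ PI k n T := by
  unfold PI at h
  rw [Set.image_insert_eq, Ideal.mem_span_insert] at h
  obtain ⟨s, z, hz, rfl⟩ := h
  exact ⟨s, by rw [show s * X i ^ n + z - X i ^ n * s = z by ring]; exact hz⟩

theorem det_ne_zero {k : Type*} [Field k] {N : ℕ} {G : Matrix σ σ (MvPolynomial σ k)}
    {η : MvPolynomial σ k} (hη : constantCoeff η ≠ 0)
    (hG : ∀ i, ∑ a, X a * G i a = η * X i ^ (N + 1)) : G.det ≠ 0 := by
  let G0 : Matrix σ σ (MvPolynomial σ k) := Matrix.diagonal fun i => η * X i ^ N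
  have hG0 : ∀ i, ∑ a, X a * G0 i a = η * X i ^ (N + 1) := fun i => by
    simp only [G0, Matrix.diagonal_apply, mul_ite, mul_zero, Finset.sum_ite_eq, Finset.mem_univ,
      if_true]
    ring
  let M : Finset σ → Matrix σ σ (MvPolynomial σ k) := fun U =>
    Matrix.of fun i => if i ∈ U then G0 i else G i
  have hM : ∀ U i, ∑ a, X a * M U i a = η * X i ^ (N + 1) := fun U i => by
    by_cases hi : i ∈ U
    · simpa [M, hi] using hG0 i
    · simpa [M, hi] using hG i
  have key : ∀ U, (M U).det - G.det ∈ PI k (N + 1) (Set.univ : Set σ) := by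
    intro U
    induction U using Finset.induction_on with
    | empty =>
      have : M ∅ = G := by ext i j; simp [M]
      rw [this, sub_self]
      exact Ideal.zero_mem _
    | insert a U ha ih =>
      let M' := (M U).updateRow a (G0 a - G a)
      have e1 : M (insert a U) = (M U).updateRow a ((G0 a - G a) + M U a) := by
        ext i j
        by_cases hi : i = a
        · subst hi
          simp [M, ha]
        · simp [M, hi, Matrix.updateRow_ne]
      have e2 : (M (insert a U)).det = M'.det + (M U).det := by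
        rw [e1, Matrix.det_updateRow_add, Matrix.updateRow_eq_self]
      have e3 : M'.det ∈ PI k (N + 1) {j | j ≠ a} := by
        refine PI_nzd (e := 1) (j := a) (by simp) ?_
        have h1 := congrFun (congrArg (fun B => Matrix.mulVec B fun i => (X i : MvPolynomial σ k))
          (Matrix.adjugate_mul M')) a
        simp only [← Matrix.mulVec_mulVec, Matrix.smul_mulVec, Matrix.one_mulVec, Pi.smul_apply,
          smul_eq_mul] at h1
        rw [pow_one, mul_comm, ← h1]
        refine Ideal.sum_mem _ fun j _ => Ideal.mul_mem_left _ _ ?_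
        have h2 : (M'.mulVec fun i => (X i : MvPolynomial σ k)) j = ∑ b, X b * M' j b :=
          Finset.sum_congr rfl fun b _ => mul_comm _ _
        rw [h2]
        by_cases hj : j = a
        · subst hj
          simp only [M', Matrix.updateRow_self, Pi.sub_apply, mul_sub, Finset.sum_sub_distrib, hG0,
            hG, sub_self]
          exact Ideal.zero_mem _
        · simp only [M', Matrix.updateRow_ne hj, hM]
          exact Ideal.mul_mem_left _ _ (pow_mem_PI hj)
      rw [e2, add_sub_assoc]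
      exact Ideal.add_mem _ (PI_mono (Set.subset_univ _) e3) ih
  intro h0
  have h1 := key Finset.univ
  have e : M Finset.univ = G0 := by ext i j; simp [M]
  rw [h0, sub_zero, e, Matrix.det_diagonal, Finset.prod_mul_distrib, mem_PI] at h1
  have e2 : ∏ i, (X i : MvPolynomial σ k) ^ N = monomial (∑ i, Finsupp.single i N) 1 := by
    rw [monomial_sum_one]
    exact Finset.prod_congr rfl fun i _ => X_pow_eq_monomial
  obtain ⟨i, -, hi⟩ := h1 (0 + ∑ i, Finsupp.single i N) (by
    rw [MvPolynomial.mem_support_iff, e2, coeff_mul_monomial, mul_one, ← constantCoeff_eq, map_prod]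
    exact Finset.prod_ne_zero_iff.2 fun _ _ => hη)
  simp [Finsupp.finsetSum_apply, Finsupp.single_apply] at hi

variable {F F0 F1 : Type*} [AddCommGroup F] [Module (MvPolynomial σ ℚ) F]
  [AddCommGroup F0] [Module (MvPolynomial σ ℚ) F0] [AddCommGroup F1]
  [Module (MvPolynomial σ ℚ) F1]

theorem lift_form [Module.Free (MvPolynomial σ ℚ) F] {T : Set σ}
    (φ : F →ₗ[MvPolynomial σ ℚ] MvPolynomial σ ℚ) (h : ∀ x, φ x ∈ PI ℚ 1 T) :
    ∃ ψ : F →ₗ[MvPolynomial σ ℚ] (σ → MvPolynomial σ ℚ),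
      (∀ x i, i ∉ T → ψ x i = 0) ∧ ∀ x, ∑ a, X a * ψ x a = φ x := by
  classical
  let b := Module.Free.chooseBasis (MvPolynomial σ ℚ) F
  choose c c1 c2 using fun j => exists_eq_sum_of_mem_PI (h (b j))
  refine ⟨b.constr (MvPolynomial σ ℚ) c, fun x i hi => ?_, fun x => ?_⟩
  · have : (LinearMap.proj i) ∘ₗ b.constr (MvPolynomial σ ℚ) c = 0 :=
      b.ext fun j => by simpa using c1 j i hi
    exact DFunLike.congr_fun this x
  · have : (∑ a, (X a : MvPolynomial σ ℚ) • LinearMap.proj a) ∘ₗ b.constr (MvPolynomial σ ℚ) c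
        = φ := b.ext fun j => by simpa using (c2 j).symm
    simpa using DFunLike.congr_fun this x

/-- The image of the beginning of a Koszul complex. -/
structure Frame (d0 : F0 →ₗ[MvPolynomial σ ℚ] F1) (d1 : F1 →ₗ[MvPolynomial σ ℚ] F0)
    (e0 : F0 →ₗ[MvPolynomial σ ℚ] MvPolynomial σ ℚ) (N : ℕ) (z : F0) (g : σ → F1)
    (a : σ → σ → F0) : Prop where
  hz : d0 z = 0
  he : constantCoeff (e0 z) ≠ 0
  hg : ∀ i, d1 (g i) = (X i ^ (N + 1) : MvPolynomial σ ℚ) • z
  ha : ∀ i j, d0 (a i j) = (X i ^ (N + 1) : MvPolynomial σ ℚ) • g j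
    - (X j ^ (N + 1) : MvPolynomial σ ℚ) • g i

/-- The second syzygies. -/
noncomputable def syz (N : ℕ) (a : σ → σ → F0) (i j l : σ) : F0 :=
  (X i ^ (N + 1) : MvPolynomial σ ℚ) • a j l - (X j ^ (N + 1) : MvPolynomial σ ℚ) • a i l
    + (X l ^ (N + 1) : MvPolynomial σ ℚ) • a i j

variable {d0 : F0 →ₗ[MvPolynomial σ ℚ] F1} {d1 : F1 →ₗ[MvPolynomial σ ℚ] F0}
  {e0 : F0 →ₗ[MvPolynomial σ ℚ] MvPolynomial σ ℚ} {N : ℕ} {z : F0} {g : σ → F1} {a : σ → σ → F0}

theorem Frame.syz_cycle (h : Frame d0 d1 e0 N z g a) (i j l : σ) : d0 (syz N a i j l) = 0 := by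
  simp only [syz, map_add, map_sub, map_smul, h.ha]
  module

theorem Frame.odd_rank [Module.Free (MvPolynomial σ ℚ) F1] [Module.Finite (MvPolynomial σ ℚ) F1]
    (h : Frame d0 d1 e0 N z g a) (he0 : ∀ y, constantCoeff (e0 (d1 y)) = 0) (i0 : σ)
    {B : Submodule (MvPolynomial σ ℚ) F1} (hB : ∀ i j, d0 (a i j) ∈ B) :
    Fintype.card σ ≤ finrank (MvPolynomial σ ℚ) B + 1 := by
  obtain ⟨e1, -, he1⟩ := lift_form (T := Set.univ) (e0 ∘ₗ d1) fun y => mem_PI_one_univ (he0 y)
  have hdet : (Matrix.of fun i b => e1 (g i) b).det ≠ 0 :=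
    det_ne_zero (N := N) h.he fun i => by
      simp only [Matrix.of_apply, he1, LinearMap.comp_apply, h.hg, map_smul, smul_eq_mul]
      ring
  have li : LinearIndependent (MvPolynomial σ ℚ)
      fun j : {j // j ≠ i0} => (⟨d0 (a i0 j), hB _ _⟩ : B) := by
    rw [Fintype.linearIndependent_iff]
    intro s hs
    have h1 : ∑ j : {j // j ≠ i0}, s j • d0 (a i0 j) = 0 := by
      simpa using congrArg B.subtype hs
    let w : σ → MvPolynomial σ ℚ := fun j =>
      if hj : j = i0 then -∑ j : {j // j ≠ i0}, s j * X j.1 ^ (N + 1) else s ⟨j, hj⟩ * X i0 ^ (N + 1)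
    have hw : Matrix.vecMul w (Matrix.of fun i b => e1 (g i) b) = 0 := by
      funext b
      have h2 := congrFun (congrArg e1 h1) b
      simp only [map_sum, map_smul, h.ha, map_sub, Finset.sum_apply, Pi.smul_apply, Pi.sub_apply,
        smul_eq_mul, map_zero, Pi.zero_apply] at h2
      change ∑ j, w j * e1 (g j) b = 0
      rw [Fintype.sum_eq_add_sum_subtype_ne _ i0, ← h2]
      simp only [w, dif_pos, neg_mul, Finset.sum_mul]
      rw [neg_add_eq_sub, ← Finset.sum_sub_distrib]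
      refine Finset.sum_congr rfl fun j _ => ?_
      rw [dif_neg j.2]
      ring
    intro j
    have h3 := congrFun (Matrix.eq_zero_of_vecMul_eq_zero hdet hw) j
    simp only [w, dif_neg j.2, Pi.zero_apply, mul_eq_zero] at h3
    exact h3.resolve_right (pow_ne_zero _ (X_ne_zero _))
  have := li.fintype_card_le_finrank
  rw [Fintype.card_subtype_compl, Fintype.card_subtype_eq] at this
  omega

theorem sum_oth {M : Type*} [AddCommMonoid M] {i0 i1 : σ} (h01 : i0 ≠ i1) (f : σ → M) :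
    ∑ a, f a = f i0 + f i1 + ∑ a ∈ oth i0 i1, f a := by
  rw [oth, add_assoc, Finset.add_sum_erase _ _ (by simpa using h01.symm),
    Finset.add_sum_erase _ _ (Finset.mem_univ _)]

theorem socle_form {k : Type*} [CommRing k] {i0 i1 : σ} (h01 : i0 ≠ i1)
    {η α : MvPolynomial σ k} {G0 G1 E : σ → MvPolynomial σ k}
    (r0 : ∑ b, X b * G0 b = η * X i0 ^ (N + 1)) (r1 : ∑ b, X b * G1 b = η * X i1 ^ (N + 1))
    (r2 : X i0 * α + ∑ b ∈ oth i0 i1, X b * E b
      = η * (X i0 ^ (N + 1) * G1 i1 - X i1 ^ (N + 1) * G0 i1)) :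
    ∃ (κ0 κ1 : MvPolynomial σ k) (μ : σ → MvPolynomial σ k),
      α = η ^ 2 * (X i0 * X i1) ^ N + X i0 ^ (N + 1) * κ0 + X i1 ^ (N + 1) * κ1
        + ∑ b ∈ oth i0 i1, X b * μ b := by
  classical
  rw [sum_oth h01] at r0 r1
  set T : Set σ := (oth i0 i1 : Set σ)
  have hq : ∀ E : σ → MvPolynomial σ k, ∑ b ∈ oth i0 i1, X b * E b ∈ PI k 1 T := fun E =>
    Ideal.sum_mem _ fun b hb => Ideal.mul_mem_right _ _ (by
      simpa using pow_mem_PI (k := k) (n := 1) (T := T) hb)
  have n0 : i0 ∉ T := by simp [T, mem_oth]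
  have n1 : i1 ∉ T := by simp [T, mem_oth]
  have x0 : ∀ p : MvPolynomial σ k, X i0 * p ∈ PI k 1 (insert i0 T) := fun p =>
    Ideal.mul_mem_right _ _ (by simpa using pow_mem_PI (k := k) (n := 1) (Set.mem_insert i0 T))
  have x1 : ∀ p : MvPolynomial σ k, X i1 * p ∈ PI k 1 (insert i1 T) := fun p =>
    Ideal.mul_mem_right _ _ (by simpa using pow_mem_PI (k := k) (n := 1) (Set.mem_insert i1 T))
  obtain ⟨κ, hκ⟩ := PI_insert (p := G0 i1) (i := i0) (T := T) (n := 1)
    (PI_nzd (e := 1) (j := i1) (by simp [h01.symm, n1]) (by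
      rw [show X i1 ^ 1 * G0 i1 = X i0 * (η * X i0 ^ N - G0 i0) - ∑ b ∈ oth i0 i1, X b * G0 b by
        linear_combination r0]
      exact Ideal.sub_mem _ (x0 _) (PI_mono (Set.subset_insert _ _) (hq _))))
  obtain ⟨κ', hκ'⟩ := PI_insert (p := G1 i0) (i := i1) (T := T) (n := 1)
    (PI_nzd (e := 1) (j := i0) (by simp [h01, n0]) (by
      rw [show X i0 ^ 1 * G1 i0 = X i1 * (η * X i1 ^ N - G1 i1) - ∑ b ∈ oth i0 i1, X b * G1 b by
        linear_combination r1]
      exact Ideal.sub_mem _ (x1 _) (PI_mono (Set.subset_insert _ _) (hq _))))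
  have h3 : G1 i1 - η * X i1 ^ N + X i0 * κ' ∈ PI k 1 T := PI_nzd (e := 1) n1 (by
    rw [show X i1 ^ 1 * (G1 i1 - η * X i1 ^ N + X i0 * κ')
      = -(X i0 * (G1 i0 - X i1 ^ 1 * κ')) - ∑ b ∈ oth i0 i1, X b * G1 b by linear_combination r1]
    exact Ideal.sub_mem _ (neg_mem (Ideal.mul_mem_left _ _ hκ')) (hq _))
  have h4 : α - (η ^ 2 * (X i0 * X i1) ^ N + X i0 ^ (N + 1) * (-η * κ')
      + X i1 ^ (N + 1) * (-η * κ)) ∈ PI k 1 T := PI_nzd (e := 1) n0 (by
    rw [show X i0 ^ 1 * (α - (η ^ 2 * (X i0 * X i1) ^ N + X i0 ^ (N + 1) * (-η * κ')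
      + X i1 ^ (N + 1) * (-η * κ))) = η * X i0 ^ (N + 1) * (G1 i1 - η * X i1 ^ N + X i0 * κ')
        - η * X i1 ^ (N + 1) * (G0 i1 - X i0 ^ 1 * κ) - ∑ b ∈ oth i0 i1, X b * E b by
      linear_combination r2]
    exact Ideal.sub_mem _ (Ideal.sub_mem _ (Ideal.mul_mem_left _ _ h3)
      (Ideal.mul_mem_left _ _ hκ)) (hq _))
  obtain ⟨μ, μ1, μ2⟩ := exists_eq_sum_of_mem_PI h4
  rw [sum_oth h01, μ1 i0 n0, μ1 i1 n1] at μ2
  refine ⟨-η * κ', -η * κ, μ, ?_⟩
  simp only [pow_one] at μ2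
  linear_combination μ2

theorem Frame.even_rank [Module.Free (MvPolynomial σ ℚ) F0] [Module.Finite (MvPolynomial σ ℚ) F0]
    [Module.Free (MvPolynomial σ ℚ) F1] (h : Frame d0 d1 e0 N z g a)
    (he0 : ∀ y, constantCoeff (e0 (d1 y)) = 0) (hdd : ∀ x, d1 (d0 x) = 0) {i0 i1 : σ}
    (h01 : i0 ≠ i1) {B : Submodule (MvPolynomial σ ℚ) F0} (hB0 : d1 (g i0) ∈ B)
    (hB : ∀ i j l, syz N a i j l ∈ B) : Fintype.card σ ≤ finrank (MvPolynomial σ ℚ) B + 1 := by
  classical
  obtain ⟨e1, -, he1⟩ := lift_form (T := Set.univ) (e0 ∘ₗ d1) fun y => mem_PI_one_univ (he0 y)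
  obtain ⟨e2, e2z, he2⟩ := lift_form (T := {b | b ≠ i1}) ((LinearMap.proj i1) ∘ₗ e1 ∘ₗ d0)
    fun x => PI_nzd (e := 1) (j := i1) (by simp) (by
      have h1 := he1 (d0 x)
      rw [LinearMap.comp_apply, hdd, map_zero,
        ← Finset.add_sum_erase _ _ (Finset.mem_univ i1)] at h1
      change X i1 ^ 1 * e1 (d0 x) i1 ∈ _
      rw [pow_one, eq_neg_of_add_eq_zero_left h1]
      exact neg_mem (Ideal.sum_mem _ fun b hb => Ideal.mul_mem_right _ _ (by
        simpa using pow_mem_PI (k := ℚ) (n := 1) (T := {b | b ≠ i1}) (Finset.mem_erase.1 hb).1)))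
  let E : σ → F0 →ₗ[MvPolynomial σ ℚ] MvPolynomial σ ℚ := fun b =>
    e0 z • ((LinearMap.proj b) ∘ₗ e2) - e2 z b • e0
  have hE : ∀ b x, E b x = e0 z * e2 x b - e2 z b * e0 x := fun b x => rfl
  have hEz : ∀ b, E b z = 0 := fun b => by rw [hE]; ring
  have hEs : ∀ x, X i0 * E i0 x + ∑ b ∈ oth i0 i1, X b * E b x = e0 z * e1 (d0 x) i1 := fun x => by
    have h1 := he2 x
    have h2 := he2 z
    simp only [LinearMap.comp_apply, LinearMap.proj_apply, h.hz, map_zero] at h1 h2
    rw [sum_oth h01, e2z _ i1 (by simp)] at h1 h2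
    have h3 : ∑ b ∈ oth i0 i1, X b * E b x = e0 z * ∑ b ∈ oth i0 i1, X b * e2 x b
        - (∑ b ∈ oth i0 i1, X b * e2 z b) * e0 x := by
      rw [Finset.mul_sum, Finset.sum_mul, ← Finset.sum_sub_distrib]
      exact Finset.sum_congr rfl fun b _ => by rw [hE]; ring
    rw [h3, hE]
    linear_combination e0 z * h1 - e0 x * h2
  let Φ : F0 →ₗ[MvPolynomial σ ℚ] (Option (oth i0 i1) → MvPolynomial σ ℚ) :=
    LinearMap.pi fun o => o.elim e0 fun b => E b
  by_contra hcon
  have hcard : Fintype.card (Option (oth i0 i1)) + 1 = Fintype.card σ := by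
    have := sum_oth h01 fun _ : σ => 1
    simp only [Finset.sum_const, Finset.card_univ, smul_eq_mul, mul_one] at this
    simp only [Fintype.card_option, Fintype.card_coe]
    omega
  have h1 : finrank (MvPolynomial σ ℚ)
      ((Option (oth i0 i1) → MvPolynomial σ ℚ) ⧸ B.map Φ) ≠ 0 := by
    have h2 := Submodule.finrank_quotient_add_finrank (B.map Φ)
    have h3 := Submodule.finrank_map_le Φ B
    rw [finrank_fintype_fun_eq_card] at h2
    omega
  rw [Ne, finrank_eq_zero_iff] at h1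
  push Not at h1
  obtain ⟨x, hx⟩ := h1
  obtain ⟨θ, hθ⟩ := exists_dual_ne_zero hx
  let lam := θ ∘ₗ (B.map Φ).mkQ
  let t : Option (oth i0 i1) → MvPolynomial σ ℚ := fun o => lam (Pi.single o 1)
  have hlam : ∀ v, lam v = ∑ o, v o * t o := fun v => by
    rw [LinearMap.pi_apply_eq_sum_univ]
    refine Finset.sum_congr rfl fun o _ => ?_
    rw [smul_eq_mul]
    congr 2
    funext j
    simp [Pi.single_apply, eq_comm]
  have hk : ∀ y ∈ B, e0 y * t none + ∑ b : oth i0 i1, E b y * t (some b) = 0 := fun y hy => by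
    have h2 : lam (Φ y) = 0 := by
      change θ (Submodule.Quotient.mk _) = 0
      rw [(Submodule.Quotient.mk_eq_zero _).2 (Submodule.mem_map_of_mem hy), map_zero]
    rw [hlam, Fintype.sum_option] at h2
    exact h2
  have hη : e0 z ≠ 0 := fun e => h.he (by rw [e, map_zero])
  have t0 : t none = 0 := by
    have h2 := hk _ hB0
    simp only [h.hg, map_smul, hEz, smul_eq_mul, mul_zero, zero_mul, Finset.sum_const_zero,
      add_zero, mul_eq_zero] at h2
    exact h2.resolve_left fun h3 => h3.elim (pow_ne_zero _ (X_ne_zero _)) hη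
  have ht : ∃ b, t (some b) ≠ 0 := by
    by_contra h2
    push Not at h2
    obtain ⟨v, rfl⟩ := (B.map Φ).mkQ_surjective x
    apply hθ
    change lam v = 0
    rw [hlam, Fintype.sum_option, t0]
    simp [h2]
  have hG : ∀ i, ∑ b, X b * e1 (g i) b = e0 z * X i ^ (N + 1) := fun i => by
    simp only [he1, LinearMap.comp_apply, h.hg, map_smul, smul_eq_mul]
    ring
  obtain ⟨κ0, κ1, μ, hs⟩ := socle_form h01 (hG i0) (hG i1) (α := E i0 (a i0 i1))
    (E := fun b => E b (a i0 i1)) (by rw [hEs, h.ha]; simp)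
  refine not_bad_rat h01 (N := N) (α := fun i j => E i0 (a i j))
    (W := fun b i j l => -E b (syz N a i j l))
    (t := fun b => if hb : b ∈ oth i0 i1 then t (some ⟨b, hb⟩) else 0) (μ := μ)
    (η := e0 z ^ 2) (κ0 := κ0) (κ1 := κ1) ⟨fun i j l => ?_, fun i j l => ?_, hs⟩ ?_ ?_
  · have h2 := hk _ (hB i j l)
    rw [t0, mul_zero, zero_add] at h2
    rw [← Finset.sum_coe_sort, ← neg_eq_zero, ← Finset.sum_neg_distrib]
    refine Eq.trans (Finset.sum_congr rfl fun b _ => ?_) h2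
    simp only [dif_pos b.2]
    ring
  · have h2 := hEs (syz N a i j l)
    rw [h.syz_cycle, map_zero, Pi.zero_apply, mul_zero] at h2
    simp only [mul_neg, Finset.sum_neg_distrib]
    rw [← eq_neg_of_add_eq_zero_left h2]
    simp [syz]
  · obtain ⟨b, hb⟩ := ht
    exact ⟨b, b.2, by rwa [dif_pos b.2]⟩
  · rw [map_pow]
    exact pow_ne_zero _ h.he

end Pool.Agent.Toral
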