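import Pool.Agent.Lib.MP_238ec1_gt.Core

/-!
Independence of the rows in characteristic `p` (Rees algebra and Krull's height theorem), and
over the rationals (reduction modulo a prime).
-/

set_option linter.unusedVariables false
set_option linter.unusedSectionVars false
set_option linter.style.haveILetI false

namespace Pool.Agent.Toral

open MvPolynomial

variable {σ : Type} [Fintype σ] [DecidableEq σ]

/-- The indices other than two given ones. -/
def oth (i0 i1 : σ) : Finset σ := (Finset.univ.erase i0).erase i1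

theorem mem_oth {i0 i1 a : σ} : a ∈ oth i0 i1 ↔ a ≠ i1 ∧ a ≠ i0 := by simp [oth]

/-- The configuration that cannot exist. -/
def Bad (k : Type*) [CommRing k] (i0 i1 : σ) (N : ℕ) (α : σ → σ → MvPolynomial σ k)
    (W : σ → σ → σ → σ → MvPolynomial σ k) (t μ : σ → MvPolynomial σ k)
    (η κ0 κ1 : MvPolynomial σ k) : Prop :=
  (∀ i j l, ∑ a ∈ oth i0 i1, t a * W a i j l = 0) ∧
  (∀ i j l, X i0 * (X i ^ (N + 1) * α j l - X j ^ (N + 1) * α i l + X l ^ (N + 1) * α i j)
    = ∑ a ∈ oth i0 i1, X a * W a i j l) ∧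
  α i0 i1 = η * (X i0 * X i1) ^ N + X i0 ^ (N + 1) * κ0 + X i1 ^ (N + 1) * κ1
    + ∑ a ∈ oth i0 i1, X a * μ a

theorem height_chain {k S : Type*} [Field k] [CommRing S] [IsDomain S]
    (ev : S →+* MvPolynomial σ k) (hs : Function.Surjective ev) (hk : ∃ z, z ≠ 0 ∧ ev z = 0)
    (U : Finset σ) : ((U.card : ℕ∞) + 1) ≤ (RingHom.ker
      ((aeval fun i => if i ∈ U then 0 else X i :
        MvPolynomial σ k →ₐ[k] MvPolynomial σ k).toRingHom.comp ev)).height := by
  induction U using Finset.induction_on with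
  | empty =>
    haveI := RingHom.ker_isPrime ((aeval fun i => if i ∈ (∅ : Finset σ) then 0 else X i :
        MvPolynomial σ k →ₐ[k] MvPolynomial σ k).toRingHom.comp ev)
    refine le_trans ?_ (Ideal.height_add_one_le_of_lt_of_isPrime (I := ⊥) ?_)
    · simp
    · obtain ⟨z, z1, z2⟩ := hk
      exact SetLike.lt_iff_le_and_exists.2 ⟨bot_le, z, by simp [RingHom.mem_ker, z2], by simpa⟩
  | insert a U ha ih =>
    haveI := RingHom.ker_isPrime ((aeval fun i => if i ∈ U then 0 else X i :
        MvPolynomial σ k →ₐ[k] MvPolynomial σ k).toRingHom.comp ev)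
    haveI := RingHom.ker_isPrime ((aeval fun i => if i ∈ insert a U then 0 else X i :
        MvPolynomial σ k →ₐ[k] MvPolynomial σ k).toRingHom.comp ev)
    rw [Finset.card_insert_of_notMem ha, Nat.cast_add, Nat.cast_one]
    refine le_trans (by gcongr) (Ideal.height_add_one_le_of_lt_of_isPrime (I := RingHom.ker
      ((aeval fun i => if i ∈ U then 0 else X i :
        MvPolynomial σ k →ₐ[k] MvPolynomial σ k).toRingHom.comp ev)) ?_)
    obtain ⟨z, hz⟩ := hs (X a)
    refine SetLike.lt_iff_le_and_exists.2 ⟨fun x hx => ?_, z, ?_, ?_⟩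
    · have e : (aeval fun i => if i ∈ insert a U then 0 else X i :
          MvPolynomial σ k →ₐ[k] MvPolynomial σ k).comp (aeval fun i => if i ∈ U then 0 else X i)
          = aeval fun i => if i ∈ insert a U then 0 else X i := by
        refine algHom_ext fun i => ?_
        by_cases hi : i ∈ U <;> simp [hi]
      have h1 := DFunLike.congr_fun e (ev x)
      have h2 : (aeval fun i => if i ∈ U then 0 else X i :
          MvPolynomial σ k →ₐ[k] MvPolynomial σ k) (ev x) = 0 := hx
      rw [AlgHom.comp_apply, h2, map_zero] at h1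
      exact h1.symm
    · simp [RingHom.mem_ker, hz]
    · simp [RingHom.mem_ker, hz, ha]

theorem not_bad_aux {k S : Type*} [Field k] (p : ℕ) [Fact p.Prime] [CharP k p] {i0 i1 : σ}
    (h01 : i0 ≠ i1) {N : ℕ} {α : σ → σ → MvPolynomial σ k}
    {W : σ → σ → σ → σ → MvPolynomial σ k} {t μ : σ → MvPolynomial σ k}
    {η κ0 κ1 : MvPolynomial σ k} (hb : Bad k i0 i1 N α W t μ η κ0 κ1)
    (hη : constantCoeff η ≠ 0) [CommRing S] [IsDomain S] [Algebra (MvPolynomial σ k) S] [Algebra k S]
    [IsScalarTower k (MvPolynomial σ k) S] [Algebra.FiniteType k S] (T : σ → S)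
    (ev : S →ₐ[MvPolynomial σ k] MvPolynomial σ k) (evT : ∀ a ∈ oth i0 i1, ev (T a) = 0)
    (ht : ∃ a ∈ oth i0 i1, T a ≠ 0)
    (hgen : ∀ z, z ∈ Algebra.adjoin (MvPolynomial σ k) (T '' (oth i0 i1 : Set σ)))
    (hrel : ∀ i j l, ∑ a ∈ oth i0 i1, T a * algebraMap (MvPolynomial σ k) S (W a i j l) = 0) :
    False := by
  classical
  obtain ⟨b1, b2, b3⟩ := hb
  haveI : IsNoetherianRing S := Algebra.FiniteType.isNoetherianRing k S
  let ρ0 : (MvPolynomial σ k) →ₐ[k] MvPolynomial (Fin 2) k :=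
    aeval fun i => if i = i0 then X 0 else if i = i1 then X 1 else 0
  let ι0 : MvPolynomial (Fin 2) k →ₐ[k] (MvPolynomial σ k) := rename ![i0, i1]
  have ρ00 : ρ0 (X i0) = X 0 := by simp [ρ0]
  have ρ01 : ρ0 (X i1) = X 1 := by simp [ρ0, h01.symm]
  have ρ0a : ∀ a ∈ oth i0 i1, ρ0 (X a) = 0 := fun a ha => by
    rw [mem_oth] at ha
    simp [ρ0, ha.1, ha.2]
  have hρι0 : ∀ d, ρ0 (ι0 d) = d := fun d => by
    have : ρ0.comp ι0 = AlgHom.id _ _ := algHom_ext fun i => by
      fin_cases i
      · simpa [ι0] using ρ00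
      · simpa [ι0] using ρ01
    exact DFunLike.congr_fun this d
  let π : S →ₐ[k] MvPolynomial (Fin 2) k := ρ0.comp (ev.restrictScalars k)
  have hπ : ∀ x : (MvPolynomial σ k), π (algebraMap (MvPolynomial σ k) S x) = ρ0 x := fun x => by simp [π]
  let Q : Ideal S := RingHom.ker π
  haveI : Q.IsPrime := RingHom.ker_isPrime _
  have hQ : (((oth i0 i1).card : ℕ∞) + 1) ≤ Ideal.height (R := S) Q := by
    refine (height_chain ev.toRingHom (fun x => ⟨algebraMap (MvPolynomial σ k) S x, by simp⟩) ?_ (oth i0 i1)).trans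
      (Ideal.height_mono fun x hx => ?_)
    · obtain ⟨a, ha, hta⟩ := ht
      exact ⟨T a, hta, evT a ha⟩
    · have e : ρ0.comp (aeval fun i => if i ∈ oth i0 i1 then 0 else X i) = ρ0 := by
        refine algHom_ext fun i => ?_
        by_cases hi : i ∈ oth i0 i1
        · simp [hi, ρ0a i hi]
        · simp [hi]
      have h1 := DFunLike.congr_fun e (ev x)
      have h2 : (aeval fun i => if i ∈ oth i0 i1 then 0 else X i : (MvPolynomial σ k) →ₐ[k] (MvPolynomial σ k)) (ev x) = 0 := hx
      rw [AlgHom.comp_apply, h2, map_zero] at h1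
      exact h1.symm
  let I : Ideal S := Ideal.span
    (((oth i0 i1).image fun a => T a - algebraMap (MvPolynomial σ k) S (X a) : Finset S) : Set S)
  have hIQ : I ≤ Q := by
    rw [Ideal.span_le]
    intro x hx
    obtain ⟨a, ha, rfl⟩ := Finset.mem_image.1 (Finset.mem_coe.1 hx)
    change π _ = 0
    rw [map_sub, hπ, ρ0a a ha]
    simp [π, evT a ha]
  obtain ⟨P, hP, hPQ⟩ := Ideal.exists_minimalPrimes_le hIQ
  haveI : P.IsPrime := hP.isPrime
  have hPh : Ideal.height (R := S) P ≤ (oth i0 i1).card :=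
    (Ideal.height_le_card_of_mem_minimalPrimes_span_finset hP).trans
      (by exact_mod_cast Finset.card_image_le)
  have hne : ∃ z ∈ Q, z ∉ P := by
    by_contra hcon
    push Not at hcon
    have : Q = P := le_antisymm hcon hPQ
    rw [this] at hQ
    have := hQ.trans hPh
    norm_cast at this
    omega
  let am : (MvPolynomial σ k) →ₐ[k] S ⧸ P := (Ideal.Quotient.mkₐ k P).comp (IsScalarTower.toAlgHom k (MvPolynomial σ k) S)
  let ρ : (S ⧸ P) →ₐ[k] MvPolynomial (Fin 2) k := Ideal.Quotient.liftₐ P π fun x hx => hPQ hx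
  have hρ : ∀ x, ρ (am x) = ρ0 x := fun x => hπ x
  have hTx : ∀ a ∈ oth i0 i1, Ideal.Quotient.mk P (T a) = am (X a) := fun a ha =>
    Ideal.Quotient.eq.2 (hP.le (Ideal.subset_span
      (Finset.mem_coe.2 (Finset.mem_image.2 ⟨a, ha, rfl⟩))))
  have hsurj : ∀ z, ∃ x, am x = z := by
    intro z
    obtain ⟨z, rfl⟩ := Ideal.Quotient.mk_surjective z
    have hz := hgen z
    induction hz using Algebra.adjoin_induction with
    | mem x hx =>
      obtain ⟨a, ha, rfl⟩ := hx
      exact ⟨X a, (hTx a ha).symm⟩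
    | algebraMap r => exact ⟨r, rfl⟩
    | add x y hx hy ihx ihy =>
      obtain ⟨u, hu⟩ := ihx
      obtain ⟨v, hv⟩ := ihy
      exact ⟨u + v, by rw [map_add, hu, hv, ← map_add]⟩
    | mul x y hx hy ihx ihy =>
      obtain ⟨u, hu⟩ := ihx
      obtain ⟨v, hv⟩ := ihy
      exact ⟨u * v, by rw [map_mul, hu, hv, ← map_mul]⟩
  refine core (σ := σ) p (am.comp ι0) ρ (fun d => (hρ _).trans (hρι0 d)) ?_
    (f := fun i => am (X i ^ (N + 1))) (fun z hz => ?_) (i0 := i0) (i1 := i1) (N := N)
    (by simp [ι0]) (by simp [ι0]) (α := fun i j => am (α i j)) (fun i j l => ?_)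
    (η := ρ0 η) (κ0 := ρ0 κ0) (κ1 := ρ0 κ1) ?_ ?_
  · obtain ⟨z, z1, z2⟩ := hne
    exact ⟨Ideal.Quotient.mk P z, fun h => z2 (Ideal.Quotient.eq_zero_iff_mem.1 h), z1⟩
  · obtain ⟨x, rfl⟩ := hsurj z
    have e : (constantCoeff : MvPolynomial (Fin 2) k →+* k).comp ρ0.toRingHom = constantCoeff := by
      refine ringHom_ext (fun r => by simp [ρ0]) fun i => ?_
      simp only [ρ0, RingHom.comp_apply, AlgHom.toRingHom_eq_coe, RingHom.coe_coe, aeval_X]
      split_ifs <;> simp
    have hx : constantCoeff x = 0 := by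
      rw [hρ] at hz
      exact (DFunLike.congr_fun e x).symm.trans hz
    have h1 : PI k 1 (Set.univ : Set σ) ≤ (PI k (N + 1) (Set.univ : Set σ)).radical := by
      refine Ideal.span_le.2 ?_
      rintro _ ⟨i, -, rfl⟩
      exact ⟨N + 1, by simpa using pow_mem_PI (k := k) (n := N + 1) (Set.mem_univ i)⟩
    obtain ⟨M, hM⟩ := h1 (mem_PI_one_univ hx)
    obtain ⟨c, -, hc⟩ := exists_eq_sum_of_mem_PI hM
    exact ⟨M, fun i => am (c i), by rw [← map_pow, hc]; simp⟩
  · have h1 : am (X i0) ≠ 0 := fun h => by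
      have := hρ (X i0)
      rw [h, map_zero, ρ00] at this
      exact X_ne_zero _ this.symm
    have h2 := hrel i j l
    have h3 := congrArg am (b2 i j l)
    have h4 : am (∑ a ∈ oth i0 i1, X a * W a i j l) = 0 := by
      have := congrArg (Ideal.Quotient.mk P) h2
      rw [map_sum, map_zero] at this
      rw [map_sum, ← this]
      exact Finset.sum_congr rfl fun a ha => by rw [map_mul, map_mul, hTx a ha]; rfl
    rw [h4, map_mul, mul_eq_zero] at h3
    simpa only [map_add, map_sub, map_mul] using h3.resolve_left h1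
  · have e : (constantCoeff : MvPolynomial (Fin 2) k →+* k).comp ρ0.toRingHom = constantCoeff := by
      refine ringHom_ext (fun r => by simp [ρ0]) fun i => ?_
      simp only [ρ0, RingHom.comp_apply, AlgHom.toRingHom_eq_coe, RingHom.coe_coe, aeval_X]
      split_ifs <;> simp
    exact fun h => hη ((DFunLike.congr_fun e η).symm.trans h)
  · rw [hρ, b3]
    simp only [map_add, map_mul, map_pow, map_sum, ρ00, ρ01]
    rw [Finset.sum_eq_zero fun a ha => by rw [ρ0a a ha, zero_mul], add_zero]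

theorem not_bad_charP {k : Type*} [Field k] (p : ℕ) [Fact p.Prime] [CharP k p] {i0 i1 : σ}
    (h01 : i0 ≠ i1) {N : ℕ} {α : σ → σ → MvPolynomial σ k}
    {W : σ → σ → σ → σ → MvPolynomial σ k} {t μ : σ → MvPolynomial σ k}
    {η κ0 κ1 : MvPolynomial σ k} (hb : Bad k i0 i1 N α W t μ η κ0 κ1)
    (ht : ∃ a ∈ oth i0 i1, t a ≠ 0) (hη : constantCoeff η ≠ 0) : False := by
  classical
  let gen : σ → Polynomial (MvPolynomial σ k) := fun a => Polynomial.C (t a) * Polynomial.X
  let S : Subalgebra (MvPolynomial σ k) (Polynomial (MvPolynomial σ k)) := Algebra.adjoin (MvPolynomial σ k) (gen '' (oth i0 i1 : Set σ))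
  haveI : Algebra.FiniteType (MvPolynomial σ k) S :=
    Algebra.FiniteType.adjoin_of_finite ((Finset.finite_toSet _).image _)
  haveI : Algebra.FiniteType k S := Algebra.FiniteType.trans (S := MvPolynomial σ k) inferInstance inferInstance
  let T : σ → S := fun a => if h : a ∈ oth i0 i1 then ⟨gen a, Algebra.subset_adjoin ⟨a, h, rfl⟩⟩
    else 0
  have hT : ∀ a ∈ oth i0 i1, (T a : Polynomial (MvPolynomial σ k)) = gen a := fun a ha => by simp [T, ha]
  let ev : S →ₐ[(MvPolynomial σ k)] (MvPolynomial σ k) := (Polynomial.aeval (0 : (MvPolynomial σ k))).comp S.val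
  have evT : ∀ a ∈ oth i0 i1, ev (T a) = 0 := fun a ha => by simp [ev, hT a ha, gen]
  refine not_bad_aux (S := S) p h01 hb hη T ev evT ?_ ?_ fun i j l => ?_
  · obtain ⟨a, ha, hta⟩ := ht
    refine ⟨a, ha, fun h => ?_⟩
    have := hT a ha
    rw [h] at this
    exact mul_ne_zero (Polynomial.C_ne_zero.2 hta) Polynomial.X_ne_zero this.symm
  · intro z
    have h1 : z ∈ Algebra.adjoin (MvPolynomial σ k)
        (((↑) : S → Polynomial (MvPolynomial σ k)) ⁻¹' (gen '' (oth i0 i1 : Set σ))) := by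
      rw [Algebra.adjoin_adjoin_coe_preimage]
      trivial
    refine Algebra.adjoin_mono ?_ h1
    rintro x ⟨a, ha, hx⟩
    exact ⟨a, ha, Subtype.ext ((hT a ha).trans hx)⟩
  · apply Subtype.ext
    have : ∑ a ∈ oth i0 i1, gen a * Polynomial.C (W a i j l) = 0 := by
      have h3 := congrArg (fun x => Polynomial.C x * (Polynomial.X : Polynomial (MvPolynomial σ k)))
        (hb.1 i j l)
      simp only [map_sum, map_mul, map_zero, zero_mul, Finset.sum_mul] at h3
      rw [← h3]
      exact Finset.sum_congr rfl fun a _ => by simp only [gen]; ring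
    change S.val _ = 0
    rw [map_sum, ← this]
    refine Finset.sum_congr rfl fun a ha => ?_
    rw [map_mul, AlgHom.commutes, Polynomial.algebraMap_eq, ← hT a ha]
    rfl

theorem Bad.map {k k' : Type*} [CommRing k] [CommRing k'] (f : k →+* k') {i0 i1 : σ} {N : ℕ}
    {α : σ → σ → MvPolynomial σ k} {W : σ → σ → σ → σ → MvPolynomial σ k}
    {t μ : σ → MvPolynomial σ k} {η κ0 κ1 : MvPolynomial σ k}
    (hb : Bad k i0 i1 N α W t μ η κ0 κ1) :
    Bad k' i0 i1 N (fun i j => map f (α i j)) (fun a i j l => map f (W a i j l))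
      (fun a => map f (t a)) (fun a => map f (μ a)) (map f η) (map f κ0) (map f κ1) := by
  obtain ⟨b1, b2, b3⟩ := hb
  refine ⟨fun i j l => ?_, fun i j l => ?_, ?_⟩
  · simpa using congrArg (MvPolynomial.map f) (b1 i j l)
  · simpa using congrArg (MvPolynomial.map f) (b2 i j l)
  · simpa using congrArg (MvPolynomial.map f) b3

theorem clear_denominators {J : Type*} [Finite J] (v : J → MvPolynomial σ ℚ) :
    ∃ (M : ℤ) (w : J → MvPolynomial σ ℤ), M ≠ 0 ∧
      ∀ j, map (Int.castRingHom ℚ) (w j) = C (M : ℚ) * v j := by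
  letI := MvPolynomial.algebraMvPolynomial (σ := σ) (R := ℤ) (S := ℚ)
  obtain ⟨⟨_, M, hM, rfl⟩, hb⟩ := IsLocalization.exist_integer_multiples_of_finite
    ((nonZeroDivisors ℤ).map (C (σ := σ))) v
  choose w hw using hb
  refine ⟨M, w, nonZeroDivisors.ne_zero hM, fun j => ?_⟩
  have := hw j
  rw [Algebra.smul_def] at this
  rw [algebraMap_def] at this
  rw [show (C (M : ℚ) : MvPolynomial σ ℚ) = map (algebraMap ℤ ℚ) (C M) by simp]
  exact this

theorem not_bad_rat {i0 i1 : σ} (h01 : i0 ≠ i1) {N : ℕ} {α : σ → σ → MvPolynomial σ ℚ}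
    {W : σ → σ → σ → σ → MvPolynomial σ ℚ} {t μ : σ → MvPolynomial σ ℚ}
    {η κ0 κ1 : MvPolynomial σ ℚ} (hb : Bad ℚ i0 i1 N α W t μ η κ0 κ1)
    (ht : ∃ a ∈ oth i0 i1, t a ≠ 0) (hη : constantCoeff η ≠ 0) : False := by
  obtain ⟨M, w, hM, hw⟩ := clear_denominators
    (J := (σ × σ) ⊕ (σ × σ × σ × σ) ⊕ σ ⊕ σ ⊕ Fin 3)
    (Sum.elim (fun x => α x.1 x.2) (Sum.elim (fun x => W x.1 x.2.1 x.2.2.1 x.2.2.2)
      (Sum.elim t (Sum.elim μ ![η, κ0, κ1]))))
  have inj : Function.Injective (map (Int.castRingHom ℚ) : MvPolynomial σ ℤ → MvPolynomial σ ℚ) :=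
    map_injective _ Int.cast_injective
  obtain ⟨b1, b2, b3⟩ := hb
  have hZ : Bad ℤ i0 i1 N (fun i j => w (.inl (i, j))) (fun a i j l => w (.inr (.inl (a, i, j, l))))
      (fun a => w (.inr (.inr (.inl a)))) (fun a => w (.inr (.inr (.inr (.inl a)))))
      (w (.inr (.inr (.inr (.inr 0))))) (w (.inr (.inr (.inr (.inr 1)))))
      (w (.inr (.inr (.inr (.inr 2))))) := by
    refine ⟨fun i j l => inj ?_, fun i j l => inj ?_, inj ?_⟩
    · simp only [map_sum, map_mul, map_zero, hw, Sum.elim_inl, Sum.elim_inr]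
      have := congrArg (fun x => C (M : ℚ) * C (M : ℚ) * x) (b1 i j l)
      simp only [Finset.mul_sum, mul_zero] at this
      rw [← this]
      exact Finset.sum_congr rfl fun a _ => by ring
    · simp only [map_sum, map_mul, map_add, map_sub, map_pow, map_X, hw, Sum.elim_inl,
        Sum.elim_inr]
      have := congrArg (fun x => C (M : ℚ) * x) (b2 i j l)
      simp only [Finset.mul_sum] at this
      refine Eq.trans (by ring) (this.trans (Finset.sum_congr rfl fun a _ => by ring))
    · simp only [map_sum, map_mul, map_add, map_pow, map_X, hw, Sum.elim_inl, Sum.elim_inr,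
        Matrix.cons_val_zero, Matrix.cons_val_one, Matrix.cons_val]
      rw [b3, mul_add, Finset.mul_sum]
      congr 1
      · ring
      · exact Finset.sum_congr rfl fun a _ => by ring
  obtain ⟨a, ha, hta⟩ := ht
  have hMq : (M : ℚ) ≠ 0 := Int.cast_ne_zero.2 hM
  have h1 : w (.inr (.inr (.inl a))) ≠ 0 := fun h => by
    have := hw (.inr (.inr (.inl a)))
    rw [h, map_zero] at this
    exact mul_ne_zero (C_ne_zero.2 hMq) hta this.symm
  obtain ⟨m, hm⟩ := ne_zero_iff.1 h1
  have h2 : constantCoeff (w (.inr (.inr (.inr (.inr 0))))) ≠ 0 := fun h => by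
    have := congrArg constantCoeff (hw (.inr (.inr (.inr (.inr 0)))))
    rw [constantCoeff_map, h, map_zero, map_mul, constantCoeff_C] at this
    exact mul_ne_zero hMq hη this.symm
  obtain ⟨p, hp1, hp⟩ := Nat.exists_infinite_primes
    ((coeff m (w (.inr (.inr (.inl a))))).natAbs
      + (constantCoeff (w (.inr (.inr (.inr (.inr 0)))))).natAbs + 1)
  haveI := Fact.mk hp
  have hz : ∀ z : ℤ, z ≠ 0 → z.natAbs < p → (z : ZMod p) ≠ 0 := fun z z1 z2 h => by
    rw [ZMod.intCast_zmod_eq_zero_iff_dvd] at h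
    have := Nat.le_of_dvd (Int.natAbs_pos.2 z1) (Int.natCast_dvd.1 h)
    omega
  refine not_bad_charP p h01 (hZ.map (Int.castRingHom (ZMod p))) ⟨a, ha, fun h => ?_⟩ ?_
  · have := congrArg (coeff m) h
    rw [coeff_map] at this
    exact hz _ hm (by omega) this
  · rw [constantCoeff_map]
    exact hz _ h2 (by omega)

end Pool.Agent.Toral
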