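import Pool.Agent.Lib.MP_238ec1_gt.SpSetup

/-! The Borel chain complex and its exactness in high degrees. -/

set_option linter.unusedSectionVars false

namespace Pool.Agent.ToralSp

open Finsupp

lemma sq_zero {E σ : Type*} [Ring E] [Module ℚ E] [Fintype σ] {δ : E} {Y : σ → E} (h1 : δ * δ = 0)
    (h2 : ∀ j, δ * Y j + Y j * δ = 0) (h3 : ∀ i j, Y i * Y j + Y j * Y i = 0) :
    (δ + ∑ j, Y j) * (δ + ∑ j, Y j) = 0 := by
  have h4 : (∑ j, Y j) * ∑ j, Y j = 0 := by
    have : (2 : ℚ) • ((∑ j, Y j) * ∑ j, Y j) = 0 := by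
      rw [two_smul, Finset.sum_mul_sum]
      nth_rewrite 2 [Finset.sum_comm]
      simp only [← Finset.sum_add_distrib, h3, Finset.sum_const_zero]
    simpa using this
  rw [add_mul, mul_add, mul_add, h1, h4, zero_add, add_zero, Finset.mul_sum, Finset.sum_mul,
    ← Finset.sum_add_distrib]
  simp only [h2, Finset.sum_const_zero]

variable {σ ι M : Type} [Fintype σ] [DecidableEq σ] [AddCommGroup M] [Module ℚ M]

/-- Coefficientwise action. -/
noncomputable def lift (σ : Type) (T : Module.End ℚ M) : Module.End ℚ ((σ →₀ ℕ) →₀ M) :=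
  mapRange.linearMap T

/-- Lowering an exponent. -/
noncomputable def low (M : Type) [AddCommGroup M] [Module ℚ M] (j : σ) :
    Module.End ℚ ((σ →₀ ℕ) →₀ M) :=
  lcomapDomain (· + single j 1) (add_left_injective _)

/-- Raising an exponent. -/
noncomputable def up (M : Type) [AddCommGroup M] [Module ℚ M] (j : σ) :
    Module.End ℚ ((σ →₀ ℕ) →₀ M) := lmapDomain M ℚ (· + single j 1)

@[simp] lemma lift_apply (T : Module.End ℚ M) (c : (σ →₀ ℕ) →₀ M) (m : σ →₀ ℕ) :
    lift σ T c m = T (c m) := rfl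

@[simp] lemma low_apply (j : σ) (c : (σ →₀ ℕ) →₀ M) (m : σ →₀ ℕ) :
    low M j c m = c (m + single j 1) := rfl

lemma lift_single (T : Module.End ℚ M) (m : σ →₀ ℕ) (x : M) :
    lift σ T (single m x) = single m (T x) := mapRange_single (hf := map_zero T)

lemma up_single (j : σ) (m : σ →₀ ℕ) (x : M) :
    up M j (single m x) = single (m + single j 1) x := mapDomain_single

lemma low_up (j : σ) (c : (σ →₀ ℕ) →₀ M) : low M j (up M j c) = c :=
  leftInverse_lcomapDomain_mapDomain (R := ℚ) _ (add_left_injective _) c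

lemma low_single1 (j : σ) (m : σ →₀ ℕ) (x : M) :
    low M j (single (m + single j 1) x) = single m x := by rw [← up_single, low_up]

lemma low_single0 {j : σ} {m : σ →₀ ℕ} (h : m j = 0) (x : M) : low M j (single m x) = 0 := by
  ext m'
  rw [low_apply, single_eq_of_ne, Finsupp.zero_apply]
  intro e
  simp [← e] at h

lemma exp_cases (j : σ) (m : σ →₀ ℕ) : m j = 0 ∨ ∃ m', m = m' + single j 1 := by
  by_cases h : m j = 0
  · exact Or.inl h
  · exact Or.inr ⟨m - single j 1, (tsub_add_cancel_of_le (single_le_iff.2 (by omega))).symm⟩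

namespace Setup

variable (S : Setup σ ι M)

/-- The differential of the Borel complex. -/
noncomputable def Δ : Module.End ℚ ((σ →₀ ℕ) →₀ M) :=
  lift σ S.d + ∑ j, low M j * lift σ (S.l j)

lemma Δ_apply (c : (σ →₀ ℕ) →₀ M) (m : σ →₀ ℕ) :
    S.Δ c m = S.d (c m) + ∑ j, S.l j (c (m + single j 1)) := by
  simp [Δ, LinearMap.sum_apply]

lemma low_Δ (j : σ) (c : (σ →₀ ℕ) →₀ M) : low M j (S.Δ c) = S.Δ (low M j c) := by
  ext m
  simp only [low_apply, Δ_apply, add_right_comm m (single j 1)]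

lemma low_pow_Δ (j : σ) (k : ℕ) (c : (σ →₀ ℕ) →₀ M) :
    (low M j ^ k) (S.Δ c) = S.Δ ((low M j ^ k) c) := by
  induction k with
  | zero => rfl
  | succ k ih => rw [pow_succ', Module.End.mul_apply, ih, low_Δ, Module.End.mul_apply]

/-- Borel chains of degree `n` in the variables `J` and the members `T` of the cover. -/
noncomputable def N (J : Finset σ) (T : Set ι) (n : ℕ) : Submodule ℚ ((σ →₀ ℕ) →₀ M) :=
  Submodule.span ℚ {c | ∃ m u p x, (∀ j ∉ J, m j = 0) ∧ u ∈ T ∧ x ∈ S.A u p ∧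
    p + 2 * degree m = n ∧ c = single m x}

variable {S} {J : Finset σ} {T : Set ι} {n : ℕ} {c : (σ →₀ ℕ) →₀ M}

lemma single_N {m : σ →₀ ℕ} {u p x} (h1 : ∀ j ∉ J, m j = 0) (h2 : u ∈ T) (h3 : x ∈ S.A u p)
    (h4 : p + 2 * degree m = n) : single m x ∈ S.N J T n :=
  Submodule.subset_span ⟨m, u, p, x, h1, h2, h3, h4, rfl⟩

lemma N_map {M' : Type} [AddCommGroup M'] [Module ℚ M'] (f : ((σ →₀ ℕ) →₀ M) →ₗ[ℚ] M')
    {P : Submodule ℚ M'} (h : ∀ (m : σ →₀ ℕ) u p x, (∀ j ∉ J, m j = 0) → u ∈ T → x ∈ S.A u p →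
      p + 2 * degree m = n → f (single m x) ∈ P) (hc : c ∈ S.N J T n) : f c ∈ P := by
  refine (Submodule.span_le (p := P.comap f)).2 ?_ hc
  rintro _ ⟨m, u, p, x, h1, h2, h3, h4, rfl⟩
  exact h m u p x h1 h2 h3 h4

lemma N_mono {J' : Finset σ} {T' : Set ι} (hJ : J ⊆ J') (hT : T ⊆ T') (hc : c ∈ S.N J T n) :
    c ∈ S.N J' T' n :=
  N_map LinearMap.id (fun _ _ _ _ h1 h2 h3 h4 =>
    single_N (fun j hj => h1 j fun h => hj (hJ h)) (hT h2) h3 h4) hc

lemma low_N (j : σ) (hc : c ∈ S.N J T (n + 2)) : low M j c ∈ S.N J T n :=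
  N_map _ (fun m u p x h1 h2 h3 h4 => by
    rcases exp_cases j m with h | ⟨m, rfl⟩
    · rw [low_single0 h]
      exact zero_mem _
    · rw [low_single1]
      rw [map_add, degree_single] at h4
      exact single_N (fun i hi => Nat.eq_zero_of_add_eq_zero_right (h1 i hi)) h2 h3 (by omega)) hc

lemma low_pow_N (j : σ) (k : ℕ) (hc : c ∈ S.N J T (n + 2 * k)) : (low M j ^ k) c ∈ S.N J T n := by
  induction k generalizing c with
  | zero => exact hc
  | succ k ih => rw [pow_succ, Module.End.mul_apply]; exact ih (low_N j hc)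

lemma up_N {j : σ} (hj : j ∈ J) (hc : c ∈ S.N J T n) : up M j c ∈ S.N J T (n + 2) :=
  N_map _ (fun m u p x h1 h2 h3 h4 => by
    rw [up_single]
    refine single_N (fun i hi => ?_) h2 h3 (by rw [map_add, degree_single]; omega)
    rw [Finsupp.add_apply, h1 i hi, single_eq_of_ne (fun e : i = j => hi (e ▸ hj)), add_zero]) hc

lemma Δ_N (hc : c ∈ S.N J T (n + 1)) : S.Δ c ∈ S.N J T n :=
  N_map _ (fun m u p x h1 h2 h3 h4 => by
    rw [Δ, LinearMap.add_apply, LinearMap.sum_apply, lift_single]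
    refine add_mem ?_ (sum_mem fun j _ => ?_)
    · cases p with
      | zero => rw [S.d0 h3, single_zero]; exact zero_mem _
      | succ p => exact single_N h1 h2 (S.dA h3) (by omega)
    · rw [Module.End.mul_apply, lift_single]
      exact low_N j (single_N h1 h2 (S.lA j h3) (by omega))) hc

lemma κ_N (φ : M →ₗ[ℚ] ℚ) (hc : c ∈ S.N J T (n + 1)) : lift σ (S.κ 1 φ) c ∈ S.N J T n :=
  N_map _ (fun m u p x h1 h2 h3 h4 => by
    rw [lift_single]
    cases p with
    | zero => rw [S.κ0 φ h3 one_pos, single_zero]; exact zero_mem _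
    | succ p => exact single_N h1 h2 (S.κA 1 φ h3) (by omega)) hc

lemma exists_finset (hc : c ∈ S.N J T n) : ∃ T' : Finset ι, c ∈ S.N J T' n := by
  classical
  induction hc using Submodule.span_induction with
  | mem c h =>
    obtain ⟨m, u, p, x, h1, h2, h3, h4, rfl⟩ := h
    exact ⟨{u}, single_N h1 (by simp) h3 h4⟩
  | zero => exact ⟨∅, zero_mem _⟩
  | add x y _ _ hx hy =>
    obtain ⟨T1, h1⟩ := hx
    obtain ⟨T2, h2⟩ := hy
    exact ⟨T1 ∪ T2, add_mem (N_mono le_rfl (by simp) h1) (N_mono le_rfl (by simp) h2)⟩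
  | smul r x _ hx => exact hx.imp fun _ h => Submodule.smul_mem _ r h

/-- On a member of the cover, lowering an exponent is homotopic to zero. -/
lemma homotopy (u : ι) (j : σ) : ∃ φ : M →ₗ[ℚ] ℚ, ∀ (m : σ →₀ ℕ) p x, x ∈ S.A u p →
    (low M j - S.Δ * lift σ (S.κ 1 φ) - lift σ (S.κ 1 φ) * S.Δ) (single m x) = 0 := by
  obtain ⟨φ, h1, h2⟩ := S.ang u j
  refine ⟨φ, fun m p x hx => ?_⟩
  have h3 : ∀ m', single m x m' ∈ S.A u p := fun m' => by
    rw [single_apply]
    split_ifs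
    exacts [hx, zero_mem _]
  generalize single m x = c at h3
  have h4 : ∀ y ∈ S.A u p, S.d (S.κ 1 φ y) = -S.κ 1 φ (S.d y) := fun y hy => by
    rw [S.κd 1 φ hy, S.κc (φ := φ ∘ₗ S.d) h1 hy]
    simp
  have h5 : ∀ i, ∀ y ∈ S.A u p, S.κ 1 φ (S.l i y) = -S.l i (S.κ 1 φ y) + if i = j then y else 0 :=
    fun i y hy => by
      rw [S.κl i 0 φ hy, κcongr (φ := φ ∘ₗ S.l i) (ψ := if i = j then S.e else 0) (fun z hz => by
        rw [LinearMap.comp_apply, h2 i z hz]
        split_ifs <;> rfl) hy]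
      split_ifs <;> simp [S.κ1 hy]
  ext m'
  simp only [LinearMap.sub_apply, Module.End.mul_apply, Finsupp.sub_apply, low_apply, lift_apply,
    Δ_apply, h4 _ (h3 _), h5 _ _ (h3 _), map_add, map_sum, Finset.sum_add_distrib,
    Finset.sum_neg_distrib, Finset.sum_ite_eq', Finset.mem_univ, if_true,
    Finsupp.zero_apply]
  abel

section top

variable (h : S.tot = ⊤)
include h

lemma hext {M' : Type} [AddCommGroup M'] [Module ℚ M'] {f g : M →ₗ[ℚ] M'}
    (H : ∀ u p x, x ∈ S.A u p → f x = g x) : f = g :=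
  LinearMap.ext fun _ => (show S.tot ≤ LinearMap.eqLocus f g from
    iSup_le fun u => iSup_le fun p x hx => H u p x hx) (h ▸ Submodule.mem_top)

lemma dd' : S.d * S.d = 0 := hext h fun _ _ _ hx => S.dd hx

lemma dl' (j : σ) : S.d * S.l j + S.l j * S.d = 0 := hext h fun _ _ _ hx => S.dl j hx

lemma ll' (i j : σ) : S.l i * S.l j + S.l j * S.l i = 0 := hext h fun _ _ _ hx => S.ll i j hx

lemma e_d (x : M) : S.e (S.d x) = 0 :=
  DFunLike.congr_fun (hext h (f := S.e ∘ₗ S.d) (g := 0) fun u p x hx => by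
    rcases p with _ | _ | p
    · exact (congrArg S.e (S.d0 hx)).trans (map_zero _)
    · exact S.ed hx
    · exact S.eA (S.dA hx)) x

lemma e_l (j : σ) (x : M) : S.e (S.l j x) = 0 :=
  DFunLike.congr_fun (hext h (f := S.e ∘ₗ S.l j) (g := 0) fun _ _ _ hx => S.eA (S.lA j hx)) x

lemma Δ_Δ (c : (σ →₀ ℕ) →₀ M) : S.Δ (S.Δ c) = 0 := by
  refine DFunLike.congr_fun (sq_zero (δ := lift σ S.d) (Y := fun j => low M j * lift σ (S.l j))
    ?_ (fun j => ?_) fun i j => ?_) c <;> refine LinearMap.ext fun c => Finsupp.ext fun m => ?_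
  · exact DFunLike.congr_fun (dd' h) _
  · exact DFunLike.congr_fun (dl' h j) _
  · have := DFunLike.congr_fun (ll' h i j) (c (m + single i 1 + single j 1))
    simpa [add_right_comm m (single j 1)] using this

lemma nilp (j : σ) (T : Finset ι) (hc : c ∈ S.N J T (n + 2 * T.card)) (h0 : S.Δ c = 0) :
    ∃ y ∈ S.N J T (n + 1), S.Δ y = (low M j ^ T.card) c := by
  classical
  induction T using Finset.induction_on generalizing c with
  | empty =>
    have : c = 0 := N_map LinearMap.id (P := ⊥) (fun _ _ _ _ _ h2 => by simp at h2) hc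
    exact ⟨0, zero_mem _, by simp [this]⟩
  | insert u T hu ih =>
    obtain ⟨φ, hφ⟩ := homotopy (S := S) u j
    rw [Finset.card_insert_of_notMem hu] at hc ⊢
    have h1 : (low M j - S.Δ * lift σ (S.κ 1 φ) - lift σ (S.κ 1 φ) * S.Δ) c ∈
        S.N J T (n + 2 * T.card) := N_map _ (fun m v p x h1 h2 h3 h4 => by
      rcases Finset.mem_insert.1 h2 with rfl | h2
      · rw [hφ m p x h3]
        exact zero_mem _
      · have h5 : single m x ∈ S.N J T (n + 2 * T.card + 2) := single_N h1 h2 h3 h4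
        exact sub_mem (sub_mem (low_N j h5) (Δ_N (κ_N φ h5))) (κ_N φ (Δ_N h5))) hc
    simp only [LinearMap.sub_apply, Module.End.mul_apply, h0, map_zero, sub_zero] at h1
    obtain ⟨y, y1, y2⟩ := ih h1 (by rw [map_sub, Δ_Δ h, ← low_Δ, h0, map_zero, sub_zero])
    refine ⟨y + (low M j ^ T.card) (lift σ (S.κ 1 φ) c), add_mem (N_mono le_rfl (by simp) y1)
      (low_pow_N j _ (κ_N φ (by convert hc using 2; omega))), ?_⟩
    rw [map_add, y2, ← low_pow_Δ, ← map_add, sub_add_cancel, pow_succ, Module.End.mul_apply]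

theorem gysin {d0 : ℕ} (T : Finset ι) (van : ∀ p, d0 < p → ∀ x ∈ ⨆ u ∈ T, S.A u p, S.d x = 0 →
      ∃ y ∈ ⨆ u ∈ T, S.A u (p + 1), S.d y = x) (J : Finset σ) (hn : d0 < n)
    (hc : c ∈ S.N J T n) (h0 : S.Δ c = 0) : ∃ y ∈ S.N J T (n + 1), S.Δ y = c := by
  induction J using Finset.induction_on generalizing c n with
  | empty =>
    have e0 : ∀ m : σ →₀ ℕ, (∀ j ∉ (∅ : Finset σ), m j = 0) → m = 0 := fun m hm =>
      Finsupp.ext fun j => hm j (by simp)
    have h1 : c 0 ∈ ⨆ u ∈ T, S.A u n := N_map (lapply 0) (fun m u p x h1 h2 h3 h4 => by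
      obtain rfl := e0 m h1
      obtain rfl : p = n := by simpa using h4
      simpa using Submodule.mem_iSup_of_mem u (Submodule.mem_iSup_of_mem h2 h3)) hc
    have h2 : c = single 0 (c 0) := sub_eq_zero.1 (N_map (LinearMap.id - lsingle 0 ∘ₗ lapply 0)
      (P := ⊥) (fun m u p x h1 h2 h3 h4 => by simp [e0 m h1]) hc)
    have h3 : ∀ x : M, S.Δ (single 0 x) = single 0 (S.d x) := fun x => by
      simp [Δ, LinearMap.sum_apply, lift_single, low_single0]
    obtain ⟨y, y1, y2⟩ := van n hn _ h1 (by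
      rw [h2, h3] at h0
      exact single_eq_zero.1 h0)
    refine ⟨single 0 y, ?_, by rw [h3, y2, ← h2]⟩
    exact (show (⨆ u ∈ T, S.A u (n + 1)) ≤ (S.N ∅ T (n + 1)).comap (lsingle 0) from
      iSup₂_le fun u hu x hx => single_N (fun _ _ => rfl) hu hx (by simp)) y1
  | insert j J hj ih =>
    have sur : ∀ n, d0 < n → ∀ c ∈ S.N (insert j J) T n, S.Δ c = 0 →
        ∃ c' ∈ S.N (insert j J) T (n + 2), S.Δ c' = 0 ∧ low M j c' = c := by
      intro n hn c hc h0
      have h1 := up_N (Finset.mem_insert_self j J) hc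
      have h2 : (1 - up M j * low M j) (S.Δ (up M j c)) ∈ S.N J T (n + 1) :=
        N_map _ (fun m u p x h1 h2 h3 h4 => by
          rcases exp_cases j m with h5 | ⟨m, rfl⟩
          · simp only [LinearMap.sub_apply, Module.End.mul_apply, low_single0 h5, map_zero,
              sub_zero, Module.End.one_apply]
            refine single_N (fun i hi => ?_) h2 h3 h4
            by_cases e : i = j
            exacts [e ▸ h5, h1 i (by simp [e, hi])]
          · simp [low_single1, up_single]) (Δ_N h1)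
      simp only [LinearMap.sub_apply, Module.End.mul_apply, low_Δ, low_up, h0, map_zero,
        sub_zero, Module.End.one_apply] at h2
      obtain ⟨y, y1, y2⟩ := ih (by omega) h2 (Δ_Δ h _)
      have y3 : low M j y = 0 := N_map _ (P := ⊥)
        (fun m u p x h1 _ _ _ => low_single0 (h1 j hj) x) y1
      exact ⟨up M j c - y, sub_mem h1 (N_mono (Finset.subset_insert j J) le_rfl y1),
        by rw [map_sub, y2, sub_self], by rw [map_sub, y3, low_up, sub_zero]⟩
    have sur' : ∀ k, ∃ c' ∈ S.N (insert j J) T (n + 2 * k), S.Δ c' = 0 ∧ (low M j ^ k) c' = c := by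
      intro k
      induction k with
      | zero => exact ⟨c, hc, h0, rfl⟩
      | succ k ih =>
        obtain ⟨c1, a1, a2, a3⟩ := ih
        obtain ⟨c2, b1, b2, b3⟩ := sur _ (by omega) c1 a1 a2
        exact ⟨c2, b1, b2, by rw [pow_succ, Module.End.mul_apply, b3, a3]⟩
    obtain ⟨c', a1, a2, rfl⟩ := sur' T.card
    exact nilp h j T a1 a2

theorem e_cycle {d0 : ℕ} (van : ∀ (T : Finset ι) p, d0 < p → ∀ x ∈ ⨆ u ∈ T, S.A u p, S.d x = 0 →
      ∃ y ∈ ⨆ u ∈ T, S.A u (p + 1), S.d y = x) (hn : d0 < n) (hc : c ∈ S.N J T n)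
    (h0 : S.Δ c = 0) (m : σ →₀ ℕ) : S.e (c m) = 0 := by
  obtain ⟨T', hT⟩ := exists_finset hc
  obtain ⟨y, -, rfl⟩ := gysin h T' (van T') J hn hT h0
  simp [Δ_apply, e_d h, e_l h]

end top

end Setup

end Pool.Agent.ToralSp
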