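import Mathlib

/-! Finite cell complexes inside a space. -/

namespace Pool.Agent.ToralSp

open Set Metric

/-- Sets obtained from the empty set by attaching finitely many cells of dimension at most `d`. -/
inductive Built {X : Type} [TopologicalSpace X] (d : ℕ) : Set X → Prop
  | empty : Built d ∅
  | attach {Y : Set X} (k : ℕ) (Φ : PartialEquiv (Fin k → ℝ) X) : Built d Y → k ≤ d →
      Φ.source = ball 0 1 → ContinuousOn Φ (closedBall 0 1) → ContinuousOn Φ.symm Φ.target →
      MapsTo Φ (sphere 0 1) Y → Disjoint (Φ '' ball 0 1) Y → Built d (Y ∪ Φ '' closedBall 0 1)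

theorem Built.isCompact {X : Type} [TopologicalSpace X] {d : ℕ} {Y : Set X} (h : Built d Y) :
    IsCompact Y := by
  induction h with
  | empty => exact isCompact_empty
  | attach k Φ _ _ _ hc _ _ _ ih =>
    exact ih.union ((isCompact_closedBall _ _).image_of_continuousOn hc)

end Pool.Agent.ToralSp
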