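import Pool.Agent.Lib.MP_238ec1_gt.SpBuilt

/-! Two facts on the topology of CW complexes. -/

namespace Pool.Agent.ToralSp

open Set Metric Topology

section

open Topology.RelCWComplex (cell openCell closedCell cellFrontier map)

variable {X : Type} [TopologicalSpace X] [CWComplex (univ : Set X)]

theorem cw_eq {c c' : Σ n, cell (univ : Set X) n} {y : X} (h : y ∈ openCell c.1 c.2)
    (h' : y ∈ openCell c'.1 c'.2) : c = c' :=
  RelCWComplex.eq_of_not_disjoint_openCell (C := univ) (not_disjoint_iff.2 ⟨y, h, h'⟩)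

theorem cw_closed_sub (n : ℕ) (j : cell (univ : Set X) n) :
    ∃ F : Set (Σ n, cell (univ : Set X) n), F.Finite ∧
      ∀ y ∈ closedCell n j, ∃ c ∈ F, y ∈ openCell c.1 c.2 := by
  classical
  obtain ⟨I, hI⟩ := CWComplex.cellFrontier_subset_finite_openCell n j
  refine ⟨insert ⟨n, j⟩ ((Finset.range n).sigma I : Finset _),
    (Finset.finite_toSet _).insert _, fun y hy => ?_⟩
  rw [← RelCWComplex.cellFrontier_union_openCell_eq_closedCell] at hy
  rcases hy with hy | hy
  · have := hI hy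
    simp only [mem_iUnion, exists_prop] at this
    obtain ⟨m, hm, i, hi, hyi⟩ := this
    exact ⟨⟨m, i⟩, Or.inr (by simp [hm, hi]), hyi⟩
  · exact ⟨⟨n, j⟩, Or.inl rfl, hy⟩

theorem cw_front_not {m n : ℕ} (h : m ≤ n) (j : cell (univ : Set X) m) (i : cell (univ : Set X) n)
    {y : X} (hy : y ∈ cellFrontier m j) : y ∉ openCell n i := by
  obtain ⟨I, hI⟩ := CWComplex.cellFrontier_subset_finite_openCell m j
  have := hI hy
  simp only [mem_iUnion, exists_prop] at this
  obtain ⟨l, hl, k, -, hyk⟩ := this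
  intro hyi
  have := congrArg Sigma.fst (cw_eq (c := ⟨l, k⟩) (c' := ⟨n, i⟩) hyk hyi)
  simp only at this
  omega

theorem cw_closed_not {m n : ℕ} (h : m < n) (j : cell (univ : Set X) m)
    (i : cell (univ : Set X) n) {y : X} (hy : y ∈ closedCell m j) : y ∉ openCell n i := by
  rw [← RelCWComplex.cellFrontier_union_openCell_eq_closedCell] at hy
  rcases hy with hy | hy
  · exact cw_front_not h.le j i hy
  · intro hyi
    have := congrArg Sigma.fst (cw_eq (c := ⟨m, j⟩) (c' := ⟨n, i⟩) hy hyi)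
    simp only at this
    omega

theorem cw_cover (y : X) : ∃ c : Σ n, cell (univ : Set X) n, y ∈ openCell c.1 c.2 := by
  have h : y ∈ ⋃ (n : ℕ) (j : cell (univ : Set X) n), openCell n j := by
    rw [CWComplex.iUnion_openCell_eq_complex]; trivial
  simp only [mem_iUnion] at h
  obtain ⟨n, j, h⟩ := h
  exact ⟨⟨n, j⟩, h⟩

theorem cw_finite [T2Space X] {K : Set X} (hK : IsCompact K) :
    {c : Σ n, cell (univ : Set X) n | (openCell c.1 c.2 ∩ K).Nonempty}.Finite := by
  set T := {c : Σ n, cell (univ : Set X) n | (openCell c.1 c.2 ∩ K).Nonempty} with hT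
  have h1 : ∀ c : Σ n, cell (univ : Set X) n, ∃ y, y ∈ openCell c.1 c.2 ∧ (c ∈ T → y ∈ K) := by
    intro c
    by_cases hc : c ∈ T
    · obtain ⟨y, hy1, hy2⟩ := hc
      exact ⟨y, hy1, fun _ => hy2⟩
    · exact ⟨_, RelCWComplex.map_zero_mem_openCell c.1 c.2, fun h => absurd h hc⟩
  choose p hp1 hp2 using h1
  have hinj : Function.Injective p := fun c c' h => cw_eq (hp1 c) (h ▸ hp1 c')
  have hcl : ∀ A ⊆ p '' T, IsClosed A := by
    intro A hA
    rw [CWComplex.closed univ A (subset_univ _)]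
    intro n j
    obtain ⟨F, hF, hFc⟩ := cw_closed_sub n j
    refine ((hF.image p).subset ?_).isClosed
    rintro y ⟨hyA, hy⟩
    obtain ⟨c, -, rfl⟩ := hA hyA
    obtain ⟨c', hc', hy'⟩ := hFc _ hy
    exact ⟨c, cw_eq hy' (hp1 c) ▸ hc', rfl⟩
  have hPK : p '' T ⊆ K := by
    rintro _ ⟨c, hc, rfl⟩
    exact hp2 c hc
  have hP : IsCompact (p '' T) := hK.of_isClosed_subset (hcl _ subset_rfl) hPK
  obtain ⟨t, -, ht⟩ := hP.elim_nhds_subcover (fun y => (p '' T \ {y})ᶜ) (fun y _ =>
    (hcl _ sdiff_subset).isOpen_compl.mem_nhds (by simp))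
  refine Set.Finite.of_finite_image ((Finset.finite_toSet t).subset ?_) hinj.injOn
  intro y hy
  have := ht hy
  simp only [mem_iUnion, exists_prop] at this
  obtain ⟨z, hz, hyz⟩ := this
  by_contra hne
  exact hyz ⟨hy, fun h => hne (by rw [mem_singleton_iff.1 h]; exact hz)⟩

/-- Every open cell lies inside the set or misses it. -/
def cw_Sat (Y : Set X) : Prop :=
  ∀ c : Σ n, cell (univ : Set X) n, openCell c.1 c.2 ⊆ Y ∨ Disjoint (openCell c.1 c.2) Y

/-- The closed cell can be added to any saturated finite complex. -/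
def cw_Add (d : ℕ) (c : Σ n, cell (univ : Set X) n) : Prop :=
  ∀ Y : Set X, Built d Y → cw_Sat Y →
    ∃ Z : Set X, Built d Z ∧ cw_Sat Z ∧ Y ⊆ Z ∧ closedCell c.1 c.2 ⊆ Z

theorem cw_many (d : ℕ) (T : Set (Σ n, cell (univ : Set X) n)) (hT : T.Finite)
    (h : ∀ c ∈ T, cw_Add d c) (Y : Set X) (hY : Built d Y) (hS : cw_Sat Y) :
    ∃ Z : Set X, Built d Z ∧ cw_Sat Z ∧ Y ⊆ Z ∧ ∀ c ∈ T, closedCell c.1 c.2 ⊆ Z := by
  induction T, hT using Set.Finite.induction_on with
  | empty => exact ⟨Y, hY, hS, subset_rfl, fun _ h => absurd h (notMem_empty _)⟩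
  | @insert a s _ _ ih =>
    obtain ⟨Z, h1, h2, h3, h4⟩ := ih (fun c hc => h c (mem_insert_of_mem _ hc))
    obtain ⟨W, g1, g2, g3, g4⟩ := h a (mem_insert _ _) Z h1 h2
    refine ⟨W, g1, g2, h3.trans g3, fun c hc => ?_⟩
    rcases hc with rfl | hc
    · exact g4
    · exact (h4 c hc).trans g3

theorem cw_add (d m : ℕ) : m ≤ d → ∀ e : cell (univ : Set X) m, cw_Add d ⟨m, e⟩ := by
  classical
  induction m using Nat.strong_induction_on with
  | _ m ih =>
    intro hm e Y hY hS
    obtain ⟨I, hI⟩ := CWComplex.cellFrontier_subset_finite_closedCell m e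
    obtain ⟨Z, h1, h2, h3, h4⟩ := cw_many d ((Finset.range m).sigma I : Finset _)
      (Finset.finite_toSet _) (fun c hc => by
        have hc1 : c.1 < m := by
          simp only [Finset.coe_sigma, mem_sigma_iff, Finset.coe_range, mem_Iio] at hc
          exact hc.1
        exact ih c.1 hc1 (by omega) c.2) Y hY hS
    have hfr : cellFrontier m e ⊆ Z := by
      intro y hy
      have := hI hy
      simp only [mem_iUnion, exists_prop] at this
      obtain ⟨l, hl, k, hk, hyk⟩ := this
      exact h4 ⟨l, k⟩ (by simp [hl, hk]) hyk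
    rcases h2 ⟨m, e⟩ with h5 | h5
    · refine ⟨Z, h1, h2, h3, ?_⟩
      rw [← RelCWComplex.cellFrontier_union_openCell_eq_closedCell]
      exact union_subset hfr h5
    · refine ⟨Z ∪ closedCell m e, Built.attach m (map m e) h1 hm (RelCWComplex.source_eq m e)
        (RelCWComplex.continuousOn m e) (RelCWComplex.continuousOn_symm m e)
        (fun u hu => hfr ⟨u, hu, rfl⟩) h5, fun c => ?_, h3.trans subset_union_left,
        subset_union_right⟩
      rcases h2 c with h6 | h6
      · exact Or.inl (h6.trans subset_union_left)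
      · by_cases hc : c = ⟨m, e⟩
        · subst hc
          exact Or.inl ((RelCWComplex.openCell_subset_closedCell _ _).trans subset_union_right)
        · refine Or.inr (disjoint_left.2 fun y hy hyZ => ?_)
          rw [← RelCWComplex.cellFrontier_union_openCell_eq_closedCell] at hyZ
          rcases hyZ with hyZ | hyZ | hyZ
          · exact disjoint_left.1 h6 hy hyZ
          · exact disjoint_left.1 h6 hy (hfr hyZ)
          · exact hc (cw_eq (c' := ⟨m, e⟩) hy hyZ)

theorem cw_dim [hf : RelCWComplex.FiniteDimensional (univ : Set X)] :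
    ∃ d : ℕ, ∀ c : Σ n, cell (univ : Set X) n, c.1 < d := by
  obtain ⟨d, hd⟩ := Filter.eventually_atTop.1 hf.eventually_isEmpty_cell
  refine ⟨d, fun c => ?_⟩
  by_contra h
  exact (hd c.1 (not_lt.1 h)).false c.2

theorem cw_contOn [T2Space X] {n : ℕ} (i : cell (univ : Set X) n) {g : X → ℝ}
    (hg : ContinuousOn (fun u => g (map n i u)) (closedBall 0 1)) :
    ContinuousOn g (closedCell n i) := by
  rw [continuousOn_iff_isClosed]
  intro t ht
  have h1 : IsClosed (closedBall (0 : Fin n → ℝ) 1 ∩ (fun u => g (map n i u)) ⁻¹' t) :=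
    hg.preimage_isClosed_of_isClosed isClosed_closedBall ht
  have h2 : IsCompact (closedBall (0 : Fin n → ℝ) 1 ∩ (fun u => g (map n i u)) ⁻¹' t) :=
    (isCompact_closedBall _ _).of_isClosed_subset h1 inter_subset_left
  refine ⟨_, (h2.image_of_continuousOn
    ((RelCWComplex.continuousOn n i).mono inter_subset_left)).isClosed, ?_⟩
  ext y
  constructor
  · rintro ⟨hy, u, hu, rfl⟩
    exact ⟨⟨u, ⟨hu, hy⟩, rfl⟩, u, hu, rfl⟩
  · rintro ⟨⟨u, ⟨hu, hy⟩, rfl⟩, h⟩
    exact ⟨hy, h⟩

theorem cw_front_cont [T2Space X] {n : ℕ} (i : cell (univ : Set X) n) {g : X → ℝ}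
    (hg : ∀ m < n, ∀ j : cell (univ : Set X) m, ContinuousOn g (closedCell m j)) :
    ContinuousOn g (cellFrontier n i) := by
  obtain ⟨I, hI⟩ := CWComplex.cellFrontier_subset_finite_closedCell n i
  rw [continuousOn_iff_isClosed]
  intro t ht
  refine ⟨⋃ m ∈ Finset.range n, ⋃ j ∈ I m, (closedCell m j ∩ g ⁻¹' t), ?_, ?_⟩
  · refine isClosed_biUnion_finset fun m hm => isClosed_biUnion_finset fun j _ => ?_
    exact (hg m (Finset.mem_range.1 hm) j).preimage_isClosed_of_isClosed
      RelCWComplex.isClosed_closedCell ht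
  · ext y
    simp only [mem_inter_iff, mem_iUnion, exists_prop, Finset.mem_range]
    constructor
    · rintro ⟨hy, hf⟩
      have := hI hf
      simp only [mem_iUnion, exists_prop] at this
      obtain ⟨l, hl, k, hk, hyk⟩ := this
      exact ⟨⟨l, hl, k, hk, hyk, hy⟩, hf⟩
    · rintro ⟨⟨l, -, k, -, -, hy⟩, hf⟩
      exact ⟨hy, hf⟩

theorem cw_ext [T2Space X] {K : Set X} (hK : IsClosed K) {x : X} {n : ℕ}
    (i : cell (univ : Set X) n) {g : X → ℝ} (h1 : g x = 1) (h0 : ∀ y ∈ K, g y = 0)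
    (hg : ContinuousOn g (cellFrontier n i)) :
    ∃ G : (Fin n → ℝ) → ℝ, Continuous G ∧ ∀ u ∈ closedBall (0 : Fin n → ℝ) 1,
      (u ∈ sphere (0 : Fin n → ℝ) 1 ∨ map n i u ∈ K ∨ map n i u = x) → G u = g (map n i u) := by
  have hc := RelCWComplex.continuousOn (C := (univ : Set X)) n i
  have c1 : IsClosed (closedBall (0 : Fin n → ℝ) 1 ∩ map n i ⁻¹' K) :=
    hc.preimage_isClosed_of_isClosed isClosed_closedBall hK
  have c2 : IsClosed (closedBall (0 : Fin n → ℝ) 1 ∩ map n i ⁻¹' {x}) :=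
    hc.preimage_isClosed_of_isClosed isClosed_closedBall isClosed_singleton
  have d0 : ContinuousOn (fun u => g (map n i u)) (sphere (0 : Fin n → ℝ) 1) :=
    hg.comp (hc.mono sphere_subset_closedBall) (fun u hu => ⟨u, hu, rfl⟩)
  have d1 : ContinuousOn (fun u => g (map n i u))
      (closedBall (0 : Fin n → ℝ) 1 ∩ map n i ⁻¹' K) :=
    (continuousOn_const (c := (0 : ℝ))).congr fun u hu => h0 _ hu.2
  have d2 : ContinuousOn (fun u => g (map n i u))
      (closedBall (0 : Fin n → ℝ) 1 ∩ map n i ⁻¹' {x}) :=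
    (continuousOn_const (c := (1 : ℝ))).congr fun u hu => by
      have : map n i u = x := hu.2
      simp only [this, h1]
  have d3 := d0.union_of_isClosed (d1.union_of_isClosed d2 c1 c2) isClosed_sphere (c1.union c2)
  obtain ⟨G, hG⟩ := ContinuousMap.exists_restrict_eq (isClosed_sphere.union (c1.union c2))
    (⟨_, continuousOn_iff_continuous_domRestrict.1 d3⟩ : C(_, ℝ))
  refine ⟨G, G.continuous, fun u hu h => ?_⟩
  have hmem : u ∈ sphere (0 : Fin n → ℝ) 1 ∪ (closedBall (0 : Fin n → ℝ) 1 ∩ map n i ⁻¹' K ∪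
      closedBall (0 : Fin n → ℝ) 1 ∩ map n i ⁻¹' {x}) := by
    rcases h with h | h | h
    · exact Or.inl h
    · exact Or.inr (Or.inl ⟨hu, h⟩)
    · exact Or.inr (Or.inr ⟨hu, h⟩)
  exact congrArg (fun f : C(_, ℝ) => f ⟨u, hmem⟩) hG

theorem cw_stage [T2Space X] {K : Set X} (hK : IsClosed K) {x : X} (hx : x ∉ K) (n : ℕ) :
    ∃ g : X → ℝ, g x = 1 ∧ (∀ y ∈ K, g y = 0) ∧
      ∀ m < n, ∀ j : cell (univ : Set X) m, ContinuousOn g (closedCell m j) := by
  classical
  induction n with
  | zero =>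
    refine ⟨fun y => if y = x then 1 else 0, by simp, fun y hy => ?_, fun m hm => absurd hm
      (Nat.not_lt_zero _)⟩
    refine if_neg ?_
    rintro rfl
    exact hx hy
  | succ n ih =>
    obtain ⟨g, h1, h0, hg⟩ := ih
    choose G hGc hG using fun i : cell (univ : Set X) n =>
      cw_ext hK i h1 h0 (cw_front_cont i hg)
    let f : X → ℝ := fun y =>
      if h : ∃ i : cell (univ : Set X) n, y ∈ openCell n i then
        G h.choose ((map n h.choose).symm y) else g y
    have hin : ∀ (i : cell (univ : Set X) n) (u : Fin n → ℝ), u ∈ ball (0 : Fin n → ℝ) 1 →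
        f (map n i u) = G i u := by
      intro i u hu
      have h : ∃ k : cell (univ : Set X) n, map n i u ∈ openCell n k := ⟨i, u, hu, rfl⟩
      have he : h.choose = i := by
        have := cw_eq (c := ⟨n, h.choose⟩) (c' := ⟨n, i⟩) h.choose_spec ⟨u, hu, rfl⟩
        exact eq_of_heq (Sigma.mk.inj this).2
      simp only [f, dif_pos h, he]
      rw [(map n i).left_inv (by rw [RelCWComplex.source_eq]; exact hu)]
    have hout : ∀ y, (∀ i : cell (univ : Set X) n, y ∉ openCell n i) → f y = g y := by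
      intro y hy
      simp only [f]
      rw [dif_neg (not_exists.2 hy)]
    have hsame : ∀ y, (y ∈ K ∨ y = x) → f y = g y := by
      intro y hy
      by_cases h : ∃ i : cell (univ : Set X) n, y ∈ openCell n i
      · obtain ⟨i, u, hu, rfl⟩ := h
        rw [hin i u hu]
        exact hG i u (ball_subset_closedBall hu) (Or.inr hy)
      · exact hout y (not_exists.1 h)
    refine ⟨f, by rw [hsame x (Or.inr rfl), h1], fun y hy => by rw [hsame y (Or.inl hy), h0 y hy],
      fun m hm j => ?_⟩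
    rcases Nat.lt_succ_iff_lt_or_eq.1 hm with hm | rfl
    · exact (hg m hm j).congr fun y hy => hout y fun i => cw_closed_not hm j i hy
    · refine cw_contOn j ((hGc j).continuousOn.congr fun u hu => ?_)
      rw [← sphere_union_ball] at hu
      rcases hu with hu | hu
      · show f (map m j u) = G j u
        rw [hout _ fun i => cw_front_not le_rfl j i ⟨u, hu, rfl⟩]
        exact (hG j u (sphere_subset_closedBall hu) (Or.inl hu)).symm
      · exact hin j u hu

end

theorem cw_built (X : Type) [TopologicalSpace X] [T2Space X] [CWComplex (univ : Set X)]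
    [RelCWComplex.FiniteDimensional (univ : Set X)] :
    ∃ d : ℕ, ∀ K : Set X, IsCompact K → ∃ Y, Built d Y ∧ K ⊆ Y := by
  obtain ⟨d, hd⟩ := cw_dim (X := X)
  refine ⟨d, fun K hK => ?_⟩
  obtain ⟨Z, h1, -, -, h4⟩ := cw_many d _ (cw_finite hK)
    (fun c _ => cw_add d c.1 (hd c).le c.2) ∅ Built.empty (fun _ => Or.inr (disjoint_empty _))
  refine ⟨Z, h1, fun y hy => ?_⟩
  obtain ⟨c, hc⟩ := cw_cover y
  exact h4 c ⟨y, hc, hy⟩ (RelCWComplex.openCell_subset_closedCell _ _ hc)

theorem cw_sep (X : Type) [TopologicalSpace X] [T2Space X] [CWComplex (univ : Set X)]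
    [RelCWComplex.FiniteDimensional (univ : Set X)] (K : Set X) (hK : IsCompact K) (x : X)
    (hx : x ∉ K) :
    ∃ g : X → ℝ, Continuous g ∧ g x = 1 ∧ (∀ y ∈ K, g y = 0) ∧ ∀ y, 0 ≤ g y := by
  obtain ⟨d, hd⟩ := cw_dim (X := X)
  obtain ⟨g, h1, h0, hg⟩ := cw_stage hK.isClosed hx d
  have hc : Continuous g := by
    rw [continuous_iff_isClosed]
    intro t ht
    rw [CWComplex.closed univ _ (subset_univ _)]
    intro n j
    rw [inter_comm]
    exact (hg n (hd ⟨n, j⟩) j).preimage_isClosed_of_isClosed RelCWComplex.isClosed_closedCell ht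
  exact ⟨fun y => |g y|, hc.abs, by simp [h1], fun y hy => by simp [h0 y hy],
    fun y => abs_nonneg _⟩

end Pool.Agent.ToralSp
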