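import Pool.Agent.Lib.MP_238ec1_gt.SpBorel
import Pool.Agent.Lib.MP_238ec1_gt.Dga

/-! The algebra of cap operators and the estimate for its cohomology. -/

set_option linter.unusedSectionVars false
set_option linter.style.haveILetI false

namespace Pool.Agent.ToralSp

open Finsupp MvPolynomial TensorProduct Pool.Agent.Toral

lemma exists_fac {A B Q : Type} [AddCommGroup A] [Module ℚ A] [AddCommGroup B] [Module ℚ B]
    [AddCommGroup Q] [Module ℚ Q] (f : A →ₗ[ℚ] B) (q : A →ₗ[ℚ] Q) (h : ∀ x, f x = 0 → q x = 0) :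
    ∃ g : B →ₗ[ℚ] Q, ∀ x, g (f x) = q x := by
  obtain ⟨g, hg⟩ := f.rangeRestrict.exists_rightInverse_of_surjective f.range_rangeRestrict
  obtain ⟨s, hs⟩ := g.exists_extend
  refine ⟨q ∘ₗ s, fun x => sub_eq_zero.1 ((map_sub q _ _).symm.trans (h _ ?_))⟩
  have e1 : s (f x) = _ := DFunLike.congr_fun hs (f.rangeRestrict x)
  rw [map_sub, e1, sub_eq_zero]
  exact congrArg Subtype.val (DFunLike.congr_fun hg (f.rangeRestrict x))

lemma rank_hom_le {K V W : Type} [AddCommGroup K] [Module ℚ K] [AddCommGroup V] [Module ℚ V]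
    [AddCommGroup W] [Module ℚ W] (d : K →ₗ[ℚ] K) (Ψ : K →ₗ[ℚ] V) (Ξ : W →ₗ[ℚ] V)
    (h1 : ∀ T, d T = 0 → Ψ T ∈ LinearMap.range Ξ) (h2 : ∀ T, Ψ T = 0 → T ∈ LinearMap.range d) :
    Module.rank ℚ ((LinearMap.ker d).map (LinearMap.range d).mkQ) ≤ Module.rank ℚ W := by
  obtain ⟨g, hg⟩ := exists_fac Ψ (LinearMap.range d).mkQ fun T hT =>
    (Submodule.Quotient.mk_eq_zero _).2 (h2 T hT)
  refine (Submodule.rank_mono ?_).trans (rank_range_le (g ∘ₗ Ξ))
  rintro _ ⟨T, hT, rfl⟩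
  obtain ⟨w, hw⟩ := h1 T hT
  exact ⟨w, by rw [LinearMap.comp_apply, hw, hg]⟩

lemma exists_graded {E : Type} [Ring E] [Algebra ℚ E] (𝒜 : ℕ → Submodule ℚ E) (h1 : 1 ∈ 𝒜 0)
    (hm : ∀ i j, ∀ a ∈ 𝒜 i, ∀ b ∈ 𝒜 j, a * b ∈ 𝒜 (i + j)) (pr : ℕ → E →ₗ[ℚ] E)
    (hp : ∀ i j, ∀ a ∈ 𝒜 j, pr i a = if j = i then a else 0) :
    ∃ K : Subalgebra ℚ E, (∀ i, ∀ a ∈ 𝒜 i, a ∈ K) ∧
      Nonempty (GradedAlgebra fun i => (𝒜 i).comap K.val.toLinearMap) := by
  let K : Subalgebra ℚ E := (⨆ i, 𝒜 i).toSubalgebra (Submodule.mem_iSup_of_mem 0 h1)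
    fun x y hx hy => (show (⨆ i, 𝒜 i) * (⨆ i, 𝒜 i) ≤ ⨆ i, 𝒜 i by
      rw [Submodule.iSup_mul]
      refine iSup_le fun i => ?_
      rw [Submodule.mul_iSup]
      exact iSup_le fun j => Submodule.mul_le.2 fun a ha b hb =>
        Submodule.mem_iSup_of_mem _ (hm i j a ha b hb)) (Submodule.mul_mem_mul hx hy)
  have hK : ∀ i, ∀ a ∈ 𝒜 i, a ∈ K := fun i a ha => Submodule.mem_iSup_of_mem i ha
  have hi : DirectSum.IsInternal fun i => (𝒜 i).comap K.val.toLinearMap := by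
    refine DirectSum.isInternal_submodule_of_iSupIndep_of_iSup_eq_top (fun i => ?_) ?_
    · rw [Submodule.disjoint_def]
      intro x hx hx'
      have h2 : (⨆ j, ⨆ _ : j ≠ i, (𝒜 j).comap K.val.toLinearMap) ≤
          LinearMap.ker (pr i ∘ₗ K.val.toLinearMap) :=
        iSup₂_le fun j hj a ha => (hp i j _ ha).trans (if_neg hj)
      exact Subtype.ext (((hp i i _ hx).trans (if_pos rfl)).symm.trans (h2 hx'))
    · refine Submodule.map_injective_of_injective (f := K.val.toLinearMap)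
        Subtype.val_injective ?_
      rw [Submodule.map_iSup, Submodule.map_top]
      refine (iSup_congr fun i => Submodule.map_comap_eq_of_le fun a ha =>
        ⟨⟨a, hK i a ha⟩, rfl⟩).trans (le_antisymm (fun a ha => ⟨⟨a, ha⟩, rfl⟩) ?_)
      rintro _ ⟨a, rfl⟩
      exact a.2
  exact ⟨K, hK, ⟨{ hi.chooseDecomposition with
    one_mem := h1
    mul_mem := fun i j a b ha hb => hm i j _ ha _ hb }⟩⟩

lemma mem_of_proj {K : Type} [Ring K] [Algebra ℚ K] (𝒜 : ℕ → Submodule ℚ K) [GradedAlgebra 𝒜]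
    {P : Submodule ℚ K} {a : K} (h : ∀ i, GradedAlgebra.proj 𝒜 i a ∈ P) : a ∈ P := by
  classical
  rw [← DirectSum.sum_support_decompose 𝒜 a]
  exact sum_mem fun i _ => h i

variable {σ ι M : Type} [Fintype σ] [DecidableEq σ] [AddCommGroup M] [Module ℚ M]

lemma up_apply1 (j : σ) (c : (σ →₀ ℕ) →₀ M) (m : σ →₀ ℕ) : up M j c (m + single j 1) = c m :=
  mapDomain_apply (add_left_injective _) c m

lemma up_apply0 {j : σ} (c : (σ →₀ ℕ) →₀ M) {m : σ →₀ ℕ} (h : m j = 0) : up M j c m = 0 :=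
  mapDomain_of_notMem_range c m (by
    rintro ⟨m', rfl⟩
    simp at h)

variable (σ M) in
/-- Coefficients of a polynomial with values in `M`. -/
noncomputable def co : MvPolynomial σ ℚ ⊗[ℚ] M ≃ₗ[ℚ] ((σ →₀ ℕ) →₀ M) :=
  equivFinsuppOfBasisLeft (basisMonomials σ ℚ)

lemma co_tmul (f : MvPolynomial σ ℚ) (a : M) (m : σ →₀ ℕ) :
    co σ M (f ⊗ₜ a) m = coeff m f • a := equivFinsuppOfBasisLeft_apply_tmul_apply _ _ _ _

lemma co_bc (T : Module.End ℚ M) (z : MvPolynomial σ ℚ ⊗[ℚ] M) :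
    co σ M (T.baseChange (MvPolynomial σ ℚ) z) = lift σ T (co σ M z) := by
  induction z using TensorProduct.induction_on with
  | zero => simp
  | add x y hx hy => simp only [map_add, hx, hy]
  | tmul f a => ext m; simp [co_tmul]

lemma co_X (j : σ) (z : MvPolynomial σ ℚ ⊗[ℚ] M) :
    co σ M ((X j : MvPolynomial σ ℚ) • z) = up M j (co σ M z) := by
  induction z using TensorProduct.induction_on with
  | zero => simp
  | add x y hx hy => simp only [smul_add, map_add, hx, hy]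
  | tmul f a =>
    ext m
    rw [smul_tmul', co_tmul, smul_eq_mul]
    rcases exp_cases j m with h | ⟨m, rfl⟩
    · rw [up_apply0 _ h, coeff_X_mul', if_neg (by simp [h]), zero_smul]
    · rw [up_apply1, co_tmul, add_comm, coeff_X_mul]

namespace Setup

variable (S : Setup σ ι M)

/-- The graded commutator with an odd operator. -/
noncomputable def ad (u : Module.End ℚ M) : Module.End ℚ (Module.End ℚ M) :=
  LinearMap.mulLeft ℚ u - LinearMap.mulRight ℚ (S.s * u) ∘ₗ LinearMap.mulLeft ℚ S.s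

lemma ad_apply (u T : Module.End ℚ M) : S.ad u T = u * T - S.s * T * S.s * u := by
  simp [ad, mul_assoc]

variable {S} (h : S.tot = ⊤) {p q : ℕ} {φ ψ : M →ₗ[ℚ] ℚ}
include h

lemma κ_ext (H : ∀ u, ∀ y ∈ S.A u p, φ y = ψ y) : S.κ p φ = S.κ p ψ :=
  hext h fun u _ _ hx => κcongr (H u) hx

lemma κ_one : S.κ 0 S.e = 1 := hext h fun _ _ _ hx => S.κ1 hx

lemma κ_mul : S.κ q ψ * S.κ p φ = S.κ (q + p) (ψ ∘ₗ S.κ p φ) :=
  hext h fun _ _ _ hx => add_comm p q ▸ S.κκ p q φ ψ hx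

omit h in
lemma e_κ {u x} (hx : x ∈ S.A u q) : S.e (S.κ p φ x) = if p = q then φ x else 0 := by
  rcases lt_trichotomy p q with H | rfl | H
  · obtain ⟨r, rfl⟩ := Nat.exists_eq_add_of_lt H
    rw [if_neg H.ne]
    exact S.eA (p := r) (by convert S.κA p φ hx using 2; omega)
  · rw [if_pos rfl, S.κe φ hx]
  · rw [if_neg H.ne', S.κ0 φ hx H, map_zero]

lemma κ_e_κ : S.κ q (S.e ∘ₗ S.κ p φ) = if p = q then S.κ p φ else 0 := by
  split_ifs with H
  · subst H
    exact κ_ext h fun u y hy => S.κe φ hy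
  · exact (κ_ext h fun u y hy => (e_κ hy).trans (if_neg H)).trans (map_zero _)

lemma ss : S.s * S.s = 1 := hext h fun _ p x hx => by
  simp [S.sA hx, smul_smul, ← mul_pow]

lemma s_κ : S.s * S.κ p φ * S.s = (-1 : ℚ) ^ p • S.κ p φ := hext h fun _ n x hx => by
  rcases lt_or_ge n p with H | H
  · simp [S.sA hx, S.κ0 φ hx H]
  · obtain ⟨r, rfl⟩ := Nat.exists_eq_add_of_le H
    simp [S.sA hx, S.sA (S.κA p φ hx), smul_smul, pow_add, mul_assoc, ← mul_pow]

lemma s_d : S.s * S.d = -(S.d * S.s) := hext h fun _ n x hx => by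
  cases n with
  | zero => simp [S.sA hx, S.d0 hx]
  | succ n => simp [S.sA hx, S.sA (S.dA hx), pow_succ]

lemma s_l (j : σ) : S.s * S.l j = -(S.l j * S.s) := hext h fun _ n x hx => by
  simp [S.sA hx, S.sA (S.lA j hx), pow_succ]

lemma ad_mul (u T T' : Module.End ℚ M) :
    S.ad u (T * T') = S.ad u T * T' + S.s * T * S.s * S.ad u T' := by
  simp only [ad_apply]
  calc u * (T * T') - S.s * (T * T') * S.s * u
      = u * (T * T') - S.s * T * (S.s * S.s) * T' * S.s * u := by rw [ss h]; noncomm_ring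
    _ = _ := by noncomm_ring

lemma ad_ad {u v : Module.End ℚ M} (hu : S.s * u = -(u * S.s)) (hv : S.s * v = -(v * S.s))
    (huv : u * v + v * u = 0) (T : Module.End ℚ M) :
    S.ad u (S.ad v T) + S.ad v (S.ad u T) = 0 := by
  have key : ∀ u v : Module.End ℚ M, S.s * v = -(v * S.s) → S.ad u (S.ad v T) =
      u * v * T - u * (S.s * T * S.s) * v + v * (S.s * T * S.s) * u - T * (v * u) := by
    intro u v hv
    simp only [ad_apply]
    calc u * (v * T - S.s * T * S.s * v) - S.s * (v * T - S.s * T * S.s * v) * S.s * u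
        = u * v * T - u * (S.s * T * S.s) * v - S.s * v * T * S.s * u
          + S.s * S.s * T * (S.s * v) * S.s * u := by noncomm_ring
      _ = u * v * T - u * (S.s * T * S.s) * v + v * S.s * T * S.s * u
          - S.s * S.s * T * v * (S.s * S.s) * u := by rw [hv]; noncomm_ring
      _ = _ := by rw [ss h]; noncomm_ring
  rw [key u v hv, key v u hu]
  calc _ = (u * v + v * u) * T - T * (u * v + v * u) := by noncomm_ring
    _ = 0 := by rw [huv]; simp

lemma ad_d : S.ad S.d (S.κ p φ) = S.κ (p + 1) (-(-1 : ℚ) ^ p • φ ∘ₗ S.d) := by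
  rw [ad_apply, s_κ h, map_smul]
  exact hext h fun _ n x hx => by simp [S.κd p φ hx, smul_sub]

lemma ad_l0 (j : σ) : S.ad (S.l j) (S.κ 0 φ) = 0 := by
  rw [ad_apply, s_κ h]
  exact hext h fun _ n x hx => by simp [S.κl0 j φ hx]

lemma ad_l (j : σ) : S.ad (S.l j) (S.κ (p + 1) φ) = S.κ p ((-1 : ℚ) ^ p • φ ∘ₗ S.l j) := by
  rw [ad_apply, s_κ h, map_smul]
  exact hext h fun _ n x hx => by simp [S.κl j p φ hx, smul_smul, pow_succ, ← mul_pow]

lemma d_pj {z : M} (hz : S.d z = 0) : S.d (S.pj p z) = 0 := by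
  cases p with
  | zero =>
    exact DFunLike.congr_fun (hext h (f := S.d * S.pj 0) (g := 0) fun _ n x hx => by
      rw [Module.End.mul_apply, S.pA 0 hx]
      split_ifs with H
      exacts [S.d0 (H ▸ hx), map_zero _]) z
  | succ p =>
    refine (DFunLike.congr_fun (hext h (f := S.d * S.pj (p + 1)) (g := S.pj p * S.d)
      fun _ n x hx => ?_) z).trans (by rw [Module.End.mul_apply, hz, map_zero])
    rw [Module.End.mul_apply, Module.End.mul_apply, S.pA _ hx, S.pA _ (S.dA hx)]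
    cases n with
    | zero => simp [S.d0 hx]
    | succ n => by_cases H : n = p <;> simp [H]

lemma pj_mem' (z : M) : S.pj p z ∈ ⨆ u, S.A u p :=
  (show S.tot ≤ (⨆ u, S.A u p).comap (S.pj p) from iSup_le fun u => iSup_le fun n x hx => by
    rw [Submodule.mem_comap, S.pA p hx]
    split_ifs with H
    exacts [Submodule.mem_iSup_of_mem u (H ▸ hx), zero_mem _]) (h ▸ Submodule.mem_top)

lemma e_κ_pj (z : M) : S.e (S.κ p φ (S.pj p z)) = S.e (S.κ p φ z) :=
  DFunLike.congr_fun (hext h (f := S.e ∘ₗ S.κ p φ ∘ₗ S.pj p) (g := S.e ∘ₗ S.κ p φ)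
    fun _ n x hx => by
      simp only [LinearMap.comp_apply, S.pA p hx, e_κ hx]
      by_cases H : n = p
      · simp [H, S.κe φ (H ▸ hx)]
      · simp [H, Ne.symm H]) z

lemma e_s (x : M) : S.e (S.s x) = S.e x :=
  DFunLike.congr_fun (hext h (f := S.e ∘ₗ S.s) (g := S.e) fun _ n x hx => by
    cases n with
    | zero => simp [S.sA hx]
    | succ n => simp [S.sA hx, S.eA hx]) x

lemma e_of_ad {T : Module.End ℚ M} (hT : S.ad S.d T = 0) (y : M) : S.e (T (S.d y)) = 0 := by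
  have h1 := congrArg S.e (DFunLike.congr_fun hT (S.s y))
  have h2 : S.s (S.d (S.s y)) = -S.d y := by
    rw [← Module.End.mul_apply S.s, s_d h, LinearMap.neg_apply, Module.End.mul_apply,
      ← Module.End.mul_apply S.s, ss h, Module.End.one_apply]
  simpa [ad_apply, e_d h, e_s h, h2] using h1

end Setup

end Pool.Agent.ToralSp
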