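import Pool.Agent.Shared.Sing.Circ
import Pool.Agent.Shared.Sing.Bridge

/-! Equivariant functions, the angle cocycle, comparison with the homology of Mathlib. -/

namespace Pool.Agent.ToralSp

open Set Finsupp Pool.Agent.Shared.Sing Pool.Agent.Shared.SingEZ

open MeasureTheory in
lemma ha_cont_int {X T : Type} [TopologicalSpace X] [TopologicalSpace T] [CompactSpace T]
    [MeasurableSpace T] [BorelSpace T] (μ : Measure T) [IsFiniteMeasure μ] {Φ : X × T → ℂ}
    (hΦ : Continuous Φ) : Continuous fun y => ∫ t, Φ (y, t) ∂μ := by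
  have h := (continuous_integral.comp (ContinuousMap.toLp (E := ℂ) 1 μ ℝ).continuous).comp
    (ContinuousMap.curry ⟨Φ, hΦ⟩).continuous
  refine h.congr fun y => integral_congr_ae ?_
  exact ContinuousMap.coeFn_toLp (𝕜 := ℝ) μ _

open MeasureTheory in
theorem exists_equiv {X : Type} [TopologicalSpace X] {σ : Type} [Fintype σ]
    [MulAction (σ → Circle) X] [ContinuousSMul (σ → Circle) X]
    (hsep : ∀ K : Set X, IsCompact K → ∀ x, x ∉ K →
      ∃ g : X → ℝ, Continuous g ∧ g x = 1 ∧ (∀ y ∈ K, g y = 0) ∧ ∀ y, 0 ≤ g y)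
    (x : X) (hx : (MulAction.stabilizer (σ → Circle) x : Set (σ → Circle)).Finite) (i : σ) :
    ∃ (N : ℕ) (F : X → ℂ), 0 < N ∧ Continuous F ∧ F x ≠ 0 ∧
      ∀ (t : σ → Circle) (y : X), F (t • y) = (t i : ℂ) ^ N * F y := by
  have hfin : Finite (MulAction.stabilizer (σ → Circle) x) := hx
  let N := Nat.card (MulAction.stabilizer (σ → Circle) x)
  let χ : (σ → Circle) → ℂ := fun t => ((t i)⁻¹ : Circle) ^ N
  have hχ : Continuous χ := by fun_prop
  have hK : IsCompact ((fun t : σ → Circle => t • x) '' {t | (χ t).re ≤ 1 / 2}) :=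
    (isClosed_le (by fun_prop) continuous_const).isCompact.image (by fun_prop)
  have hxK : x ∉ (fun t : σ → Circle => t • x) '' {t | (χ t).re ≤ 1 / 2} := by
    rintro ⟨t, ht, h⟩
    have h1 : (⟨t, h⟩ : MulAction.stabilizer (σ → Circle) x) ^ N = 1 := pow_card_eq_one'
    have h2 : t i ^ N = 1 := congrFun (congrArg Subtype.val h1) i
    have h3 : χ t = 1 := by
      change (((t i)⁻¹ : Circle) : ℂ) ^ N = 1
      rw [← Circle.coe_pow, inv_pow, h2, inv_one, Circle.coe_one]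
    rw [mem_ofPred_eq, h3] at ht
    norm_num at ht
  obtain ⟨g, hg, hg1, hg0, hgp⟩ := hsep _ hK x hxK
  let _ : MeasurableSpace (σ → Circle) := borel _
  have : BorelSpace (σ → Circle) := ⟨rfl⟩
  let μ : Measure (σ → Circle) := Measure.haar
  refine ⟨N, fun y => ∫ t, χ t * g (t • y) ∂μ, Nat.card_pos,
    ha_cont_int μ (Φ := fun p => χ p.2 * g (p.2 • p.1)) (by fun_prop), fun h => ?_, fun s y => ?_⟩
  · have hc : Continuous fun t : σ → Circle => χ t * g (t • x) := by fun_prop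
    have hi : Integrable (fun t : σ → Circle => χ t * g (t • x)) μ :=
      hc.integrable_of_hasCompactSupport (HasCompactSupport.of_compactSpace _)
    have h1 := integral_re hi
    have h2 : 0 < ∫ t, RCLike.re (χ t * g (t • x)) ∂μ := by
      refine Continuous.integral_pos_of_hasCompactSupport_nonneg_nonzero (x := 1)
        (by fun_prop) (HasCompactSupport.of_compactSpace _) (fun t => ?_) ?_
      · by_cases ht : (χ t).re ≤ 1 / 2
        · simp [hg0 _ ⟨t, ht, rfl⟩]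
        · simpa using mul_nonneg (by linarith) (hgp (t • x))
      · simp [χ, hg1]
    rw [h1, show ∫ t, χ t * g (t • x) ∂μ = 0 from h] at h2
    simp at h2
  · rw [← integral_const_mul, ← integral_mul_right_eq_self (fun t => (s i : ℂ) ^ N *
      (χ t * g (t • y))) s]
    refine integral_congr_ae (Filter.Eventually.of_forall fun t => ?_)
    have := Circle.coe_ne_zero (s i)
    simp only [χ, mul_smul, Pi.mul_apply, mul_inv, Circle.coe_mul, Circle.coe_inv, mul_pow,
      inv_pow]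
    field_simp

/-- The argument of a complex number in turns. -/
noncomputable def ha_turn (z : ℂ) : UnitAddCircle :=
  AddCircle.homeomorphAddCircle (2 * Real.pi) 1 Real.two_pi_pos.ne' one_ne_zero
    (z.arg : Real.Angle)

lemma ha_turn_cont {z : ℂ} (hz : z ≠ 0) : ContinuousAt ha_turn z :=
  (AddCircle.homeomorphAddCircle (2 * Real.pi) 1 Real.two_pi_pos.ne'
    one_ne_zero).continuous.continuousAt.comp (Complex.continuousAt_arg_coe_angle hz)

lemma ha_turn_mul {z : ℂ} (hz : z ≠ 0) (t : ℝ) (n : ℕ) :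
    ha_turn ((Circle.exp (2 * Real.pi * t) : ℂ) ^ n * z) =
      ((n * t + z.arg / (2 * Real.pi) : ℝ) : UnitAddCircle) := by
  have h : (Complex.arg ((Circle.exp (2 * Real.pi * t) : ℂ) ^ n * z) : Real.Angle) =
      ((n * (2 * Real.pi * t) + z.arg : ℝ) : Real.Angle) := by
    rw [Complex.arg_mul_coe_angle (pow_ne_zero _ (Circle.coe_ne_zero _)) hz,
      Complex.arg_pow_coe_angle, Circle.coe_exp, Complex.arg_exp_mul_I, Real.Angle.coe_toIocMod,
      Real.Angle.coe_add, ← nsmul_eq_mul, Real.Angle.coe_nsmul]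
  rw [ha_turn, h]
  refine (AddCircle.homeomorphAddCircle_apply_mk (2 * Real.pi) 1 Real.two_pi_pos.ne' one_ne_zero
    _).trans (congrArg _ ?_)
  have := Real.two_pi_pos.ne'
  field_simp

theorem exists_angle {X : Type} [TopologicalSpace X] [Nonempty X] {U : Set X} {F : X → ℂ}
    (hF : Continuous F) (hU : ∀ y ∈ U, F y ≠ 0) :
    ∃ φ : C ℚ X →ₗ[ℚ] ℚ, Coc U 1 φ ∧ ∀ (G : ℝ → X) (n : ℕ), Continuous G → (∀ t, G t ∈ U) →
      (∀ t : ℝ, F (G t) = (Circle.exp (2 * Real.pi * t) : ℂ) ^ n * F (G 0)) →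
        φ (real G (single [0, 1] 1)) = n := by
  obtain ⟨q, hq⟩ := Module.Projective.exists_dual_eq_one ℚ (one_ne_zero (α := ℝ))
  let f : X → UnitAddCircle := ha_turn ∘ F
  let φ : C ℚ X →ₗ[ℚ] ℚ := lc fun s => q (xf f (single s 1))
  refine ⟨φ, fun c hc => ?_, fun G n hG hGU h => ?_⟩
  · refine eq_In (f := φ ∘ₗ D) (g := 0) (fun H hH hA l hl => ?_) hc
    obtain ⟨u, v, w, rfl⟩ := List.length_eq_three.1 hl
    have hf : Continuous (f ∘ H) := continuous_iff_continuousAt.2 fun t =>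
      ContinuousAt.comp (f := F ∘ H) (ha_turn_cont (hU _ (hA t))) (hF.comp hH).continuousAt
    obtain ⟨G, hG, h⟩ := exists_lift hf
    have key : ∀ a b : V, φ (real H (single [a, b] 1)) = q (G b - G a) := fun a b => by
      rw [← xf_real hH hG h, real_single, real_single]
      simp [φ]
    simp [D_glob hH, bdL, key, -real_single]
  · have h1 : f ∘ G = (↑) ∘ fun t : ℝ => (n * t + (F (G 0)).arg / (2 * Real.pi) : ℝ) :=
      funext fun t => by
        change ha_turn (F (G t)) = _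
        rw [h t, ha_turn_mul (hU _ (hGU 0))]
        rfl
    have h2 := xf_real hG (by fun_prop) h1 0 1
    have h3 : φ (real G (single [0, 1] 1)) = q (xf f (real G (single [0, 1] 1))) := by
      rw [real_single, real_single]
      simp [φ]
    rw [h3, h2]
    have : (n * 1 + (F (G 0)).arg / (2 * Real.pi) - (n * 0 + (F (G 0)).arg / (2 * Real.pi)) : ℝ) =
        (n : ℚ) • (1 : ℝ) := by simp
    rw [this, map_smul, hq]
    simp

section cls

open CategoryTheory Limits Opposite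

variable (X : Type) [TopologicalSpace X]

/-- The singular chain complex of Mathlib. -/
noncomputable abbrev ha_M : ChainComplex (ModuleCat.{0} ℚ) ℕ :=
  (TopCat.toSSet.obj (TopCat.of X)).chainComplex (ModuleCat.of ℚ ℚ)

/-- Simplices of Mathlib as continuous maps. -/
noncomputable def ha_e (n : ℕ) :
    (TopCat.toSSet.obj (TopCat.of X)).obj (op (SimplexCategory.mk n)) ≃
      C(Pool.Agent.Sing.Std n, X) :=
  (TopCat.of X).toSSetObjEquiv (op (SimplexCategory.mk n))

lemma ha_e_δ {n : ℕ} (i : Fin (n + 2))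
    (x : (TopCat.toSSet.obj (TopCat.of X)).obj (op (SimplexCategory.mk (n + 1)))) :
    ha_e X n ((TopCat.toSSet.obj (TopCat.of X)).δ i x) =
      (ha_e X (n + 1) x).comp (Pool.Agent.Sing.vmap i.succAbove) := rfl

/-- From chains to the chains of Mathlib. -/
noncomputable def ha_α (n : ℕ) : Pool.Agent.Sing.Ch ℚ X n →ₗ[ℚ] (ha_M X).X n :=
  linearCombination ℚ fun σ =>
    ((TopCat.toSSet.obj (TopCat.of X)).ιChainComplex (R := ModuleCat.of ℚ ℚ)
      ((ha_e X n).symm σ)).hom (1 : ℚ)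

/-- From the chains of Mathlib to chains. -/
noncomputable def ha_β (n : ℕ) : (ha_M X).X n ⟶ ModuleCat.of ℚ (Pool.Agent.Sing.Ch ℚ X n) :=
  Cofan.IsColimit.desc
    ((TopCat.toSSet.obj (TopCat.of X)).isColimitChainComplexXCofan (ModuleCat.of ℚ ℚ) n)
    fun x => ModuleCat.ofHom (lsingle (ha_e X n x))

lemma ha_ι_β {n : ℕ} (x : (TopCat.toSSet.obj (TopCat.of X)).obj (op (SimplexCategory.mk n))) :
    (TopCat.toSSet.obj (TopCat.of X)).ιChainComplex (R := ModuleCat.of ℚ ℚ) x ≫ ha_β X n =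
      ModuleCat.ofHom (lsingle (ha_e X n x)) :=
  Cofan.IsColimit.fac
    ((TopCat.toSSet.obj (TopCat.of X)).isColimitChainComplexXCofan (ModuleCat.of ℚ ℚ) n) _ x

lemma ha_β_α {n : ℕ} (c : Pool.Agent.Sing.Ch ℚ X n) : (ha_β X n).hom (ha_α X n c) = c := by
  refine map_eq (F := (ha_β X n).hom ∘ₗ ha_α X n) (G := LinearMap.id) (fun σ _ => ?_) (mem_top c)
  have := congrArg (fun f => f.hom (1 : ℚ)) (ha_ι_β X ((ha_e X n).symm σ))
  simpa [ha_α] using this

lemma ha_d_β (n : ℕ) : (ha_M X).d (n + 1) n ≫ ha_β X n =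
    ha_β X (n + 1) ≫ ModuleCat.ofHom (Pool.Agent.Sing.bd ℚ X n) := by
  refine SSet.chainComplex_hom_ext fun x => ?_
  rw [SSet.ιChainComplex_d_assoc, Preadditive.sum_comp, ← Category.assoc, ha_ι_β]
  simp only [Preadditive.zsmul_comp, ha_ι_β, ha_e_δ]
  ext1
  refine LinearMap.ext_ring ?_
  simp [Pool.Agent.Sing.bd, ModuleCat.hom_sum]

lemma ha_d_α {n : ℕ} (c : Pool.Agent.Sing.Ch ℚ X (n + 1)) :
    ((ha_M X).d (n + 1) n).hom (ha_α X (n + 1) c) = ha_α X n (Pool.Agent.Sing.bd ℚ X n c) := by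
  refine map_eq (F := ((ha_M X).d (n + 1) n).hom ∘ₗ ha_α X (n + 1))
    (G := ha_α X n ∘ₗ Pool.Agent.Sing.bd ℚ X n) (fun σ _ => ?_) (mem_top c)
  obtain ⟨x, rfl⟩ := (ha_e X (n + 1)).surjective σ
  have := congrArg (fun f => f.hom (1 : ℚ))
    ((TopCat.toSSet.obj (TopCat.of X)).ιChainComplex_d (ModuleCat.of ℚ ℚ) x)
  simp only [ModuleCat.hom_comp, LinearMap.comp_apply, ModuleCat.hom_sum, LinearMap.sum_apply,
    ModuleCat.hom_zsmul, LinearMap.smul_apply] at this
  simp only [ha_α, Pool.Agent.Sing.bd, LinearMap.comp_apply, linearCombination_single, one_smul,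
    map_sum, ← ha_e_δ, Equiv.symm_apply_apply, this]
  refine Finset.sum_congr rfl fun i _ => ?_
  rw [← Int.cast_smul_eq_zsmul ℚ]
  simp

theorem exists_cls (X : Type) [TopologicalSpace X] [Nonempty X] (n : ℕ) :
    ∃ θ : C ℚ X →ₗ[ℚ] ((AlgebraicTopology.singularHomologyFunctor (ModuleCat.{0} ℚ) n).obj
      (ModuleCat.of ℚ ℚ)).obj (TopCat.of X), ∀ c ∈ Z ℚ univ ∅ n, θ c = 0 → c ∈ B ℚ univ ∅ n := by
  let k : ModuleCat.of ℚ (Z ℚ (univ : Set X) ∅ n) ⟶ (ha_M X).X n :=
    ModuleCat.ofHom (ha_α X n ∘ₗ rb ℚ n ∘ₗ (Z ℚ (univ : Set X) ∅ n).subtype)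
  have hk : k ≫ (ha_M X).d n ((ComplexShape.down ℕ).next n) = 0 := by
    cases n with
    | zero => rw [(ha_M X).shape _ _ (by simp), comp_zero]
    | succ n =>
      rw [ChainComplex.next_nat_succ]
      ext c
      have h1 : rb ℚ (n + 1) c.1 ∈ Pool.Agent.Sing.cyc ℚ X (n + 1) :=
        br_mem_Z.1 ((br_rb c.2.1).symm ▸ c.2)
      have h2 := ha_d_α X (rb ℚ (n + 1) c.1)
      rw [show Pool.Agent.Sing.bd ℚ X n (rb ℚ (n + 1) c.1) = 0 from h1, map_zero] at h2
      exact h2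
  let q : ModuleCat.of ℚ (Pool.Agent.Sing.Ch ℚ X n) ⟶
      ModuleCat.of ℚ (Pool.Agent.Sing.Ch ℚ X n ⧸ Pool.Agent.Sing.bdry ℚ X n) :=
    ModuleCat.ofHom (Pool.Agent.Sing.bdry ℚ X n).mkQ
  have hq : (ha_M X).d (n + 1) n ≫ ha_β X n ≫ q = 0 := by
    rw [← Category.assoc, ha_d_β, Category.assoc]
    have : ModuleCat.ofHom (Pool.Agent.Sing.bd ℚ X n) ≫ q = 0 := by
      ext1
      refine LinearMap.ext fun c => ?_
      exact (Submodule.Quotient.mk_eq_zero _).2 ⟨c, rfl⟩
    rw [this, comp_zero]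
  let θ0 := (ha_M X).liftCycles k _ rfl hk ≫ (ha_M X).homologyπ n
  let ψ := (ha_M X).homologyι n ≫ (ha_M X).descOpcycles (ha_β X n ≫ q) (n + 1) (by simp) hq
  have h : θ0 ≫ ψ = k ≫ ha_β X n ≫ q := by
    simp only [θ0, ψ, Category.assoc, HomologicalComplex.homology_π_ι_assoc,
      HomologicalComplex.p_descOpcycles, HomologicalComplex.liftCycles_i_assoc]
  obtain ⟨θ, hθ⟩ := LinearMap.exists_extend θ0.hom
  refine ⟨θ, fun c hc h0 => ?_⟩
  have h1 : θ0.hom ⟨c, hc⟩ = 0 := by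
    rw [← hθ]
    exact h0
  have h2 := congrArg (fun f => f.hom ⟨c, hc⟩) h
  simp only [ModuleCat.hom_comp, LinearMap.comp_apply, h1, map_zero] at h2
  have h3 : (Pool.Agent.Sing.bdry ℚ X n).mkQ ((ha_β X n).hom (ha_α X n (rb ℚ n c))) = 0 := h2.symm
  rw [ha_β_α] at h3
  rw [← br_rb hc.1, br_mem_B]
  exact (Submodule.Quotient.mk_eq_zero _).1 h3

end cls

end Pool.Agent.ToralSp
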