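import Pool.Agent.Shared.Sing.EZ

/-! The operators on singular chains given by the coordinate circles of a torus action. -/

namespace Pool.Agent.ToralSp

open Set Finsupp Pool.Agent.Shared.Sing Pool.Agent.Shared.SingEZ

section lists

variable {R : Type} [CommRing R] {α β : Type*}

variable (R) in
/-- The prism from a list to its image under `τ`. -/
noncomputable def la_pr (τ : α → α) : List α → Ch R α
  | [] => 0
  | a :: l => cone a (single ((a :: l).map τ) 1 - la_pr τ l)

lemma la_pr_cone (τ : α → α) (a : α) (c : Ch R α) :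
    lc (la_pr R τ) (cone a c) = cone a (cone (τ a) (lmap τ c) - lc (la_pr R τ) c) :=
  map_eq (F := lc (la_pr R τ) ∘ₗ cone a) (G := cone a ∘ₗ (cone (τ a) ∘ₗ lmap τ - lc (la_pr R τ)))
    (fun l _ => by simp [la_pr]) (mem_top c)

lemma la_lmap_pr {f : α → β} {τ : α → α} {τ' : β → β} (h : ∀ x, f (τ x) = τ' (f x))
    (l : List α) : lmap f (la_pr R τ l) = la_pr R τ' (l.map f) := by
  induction l with
  | nil => simp [la_pr]
  | cons a l ih => simp [la_pr, lmap_cone, ih, h, Function.comp_def]

lemma la_lmap_lc {f : α → β} {τ : α → α} {τ' : β → β} (h : ∀ x, f (τ x) = τ' (f x))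
    (c : Ch R α) : lmap f (lc (la_pr R τ) c) = lc (la_pr R τ') (lmap f c) :=
  map_eq (F := lmap f ∘ₗ lc (la_pr R τ)) (G := lc (la_pr R τ') ∘ₗ lmap f)
    (fun l _ => by simp [la_lmap_pr h]) (mem_top c)

lemma la_lmap_bd (f : α → β) (c : Ch R α) : lmap f (bd c) = bd (lmap f c) :=
  map_eq (F := lmap f ∘ₗ bd) (G := bd ∘ₗ lmap f) (fun l _ => by simp [lmap_bdL]) (mem_top c)

lemma la_bd_pr (τ : α → α) (l : List α) :
    bd (la_pr R τ l) + lc (la_pr R τ) (bdL R l) = single (l.map τ) 1 - single l 1 := by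
  induction l with
  | nil => simp [la_pr, bdL]
  | cons a l ih =>
    have e1 := bd_cone a (single ((a :: l).map τ) (1 : R) - la_pr R τ l)
    have e2 := congrArg (cone a) ih
    rw [la_pr, bdL, map_sub (lc _), la_pr_cone, linearCombination_single, one_smul, lmap_bdL]
    simp only [map_sub, map_add, bd_single, List.map_cons, bdL, cone_single] at e1 e2 ⊢
    linear_combination (norm := module) e1 + e2

lemma la_anti {τ τ' : α → α} (h : ∀ x, τ (τ' x) = τ' (τ x)) (l : List α) :
    lc (la_pr R τ) (la_pr R τ' l) + lc (la_pr R τ') (la_pr R τ l) = 0 := by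
  induction l with
  | nil => simp [la_pr]
  | cons a l ih =>
    have e1 := congrArg (cone a) ih
    have e2 : τ ∘ τ' = τ' ∘ τ := funext h
    rw [la_pr, la_pr, la_pr_cone, la_pr_cone]
    simp only [map_sub, map_add, map_zero, List.map_cons, lmap_single, linearCombination_single,
      one_smul, la_pr, cone_single, la_lmap_pr h, la_lmap_pr fun x => (h x).symm, List.map_map,
      e2, h] at e1 ⊢
    linear_combination (norm := module) e1

lemma la_cap_zero (τ : α → α) (φ : Ch R α →ₗ[R] R) (l : List α) :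
    lc (capL 0 φ) (la_pr R τ l) = lc (la_pr R τ) (capL 0 φ l) := by
  rcases l with _ | ⟨a, l⟩
  · simp [la_pr, capL_nil]
  · rw [capL_zero, map_smul, linearCombination_single, one_smul, la_pr, lc_capL_zero]

lemma la_cap_succ (τ : α → α) (p : ℕ) (φ : Ch R α →ₗ[R] R) (l : List α) :
    lc (capL (p + 1) φ) (la_pr R τ l) = (-1 : R) ^ (p + 1) • lc (la_pr R τ) (capL (p + 1) φ l) +
      lmap τ (capL p (φ ∘ₗ lc (la_pr R τ)) l) := by
  induction p generalizing φ l with
  | zero =>
    rcases l with _ | ⟨a, l⟩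
    · simp [la_pr, capL_nil]
    · rw [la_pr, lc_capL_cone, map_sub, la_cap_zero, capL_cons, capL_zero,
        linearCombination_single, one_smul, List.map_cons, capL_zero, map_smul, lmap_single]
      simp only [LinearMap.comp_apply, linearCombination_single, one_smul, la_pr, List.map_cons,
        List.map_nil, sub_zero, zero_add, pow_one, neg_smul]
      abel
  | succ p ih =>
    rcases l with _ | ⟨a, l⟩
    · simp [la_pr, capL_nil]
    have e : (φ ∘ₗ lc (la_pr R τ)) ∘ₗ cone a =
        ((φ ∘ₗ cone a) ∘ₗ cone (τ a)) ∘ₗ lmap τ - (φ ∘ₗ cone a) ∘ₗ lc (la_pr R τ) :=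
      LinearMap.ext fun c => by
        simp only [LinearMap.comp_apply, LinearMap.sub_apply, la_pr_cone, map_sub]
    rw [la_pr, lc_capL_cone, map_sub, ih, capL_cons, capL_cons, e, capL_sub, map_sub, lmap_capL,
      linearCombination_single, one_smul, List.map_cons, capL_cons, pow_succ _ (p + 1), mul_smul,
      neg_one_smul, smul_neg]
    abel

lemma la_pr_Lin {K : Set α} {τ : α → α} (hτ : MapsTo τ K K) {l : List α} (hl : ∀ x ∈ l, x ∈ K) :
    la_pr R τ l ∈ Lin R K (l.length + 1) := by
  induction l with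
  | nil => exact zero_mem _
  | cons a l ih =>
    refine cone_Lin (hl a (by simp)) (sub_mem (single_mem ⟨by simp, fun x hx => ?_⟩)
      (ih fun x hx => hl x (by simp [hx])))
    obtain ⟨y, hy, rfl⟩ := List.mem_map.1 hx
    exact hτ (hl y hy)

end lists

lemma la_aff_add {W : Type*} [AddCommGroup W] [Module ℝ W] (l : List W) (e : W) {t : V}
    (ht : t ∈ Δ l.length) : aff (l.map (· + e)) t = aff l t + e := by
  have h1 := aff_map ((LinearMap.id : W →ₗ[ℝ] W).coprod (LinearMap.toSpanSingleton ℝ W e))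
    (l.map fun x => (x, (1 : ℝ))) t
  rw [aff_pair l 1 ht] at h1
  simpa [Function.comp_def] using h1

section top

variable {X : Type} [TopologicalSpace X] [Nonempty X]

/-- The prism operator of a periodic flow. -/
noncomputable def la_op (g : ℝ → X → X) : C ℚ X →ₗ[ℚ] C ℚ X :=
  lc fun s => real (fun p : V × ℝ => g p.2 (s.f p.1))
    (la_pr ℚ (· + ((0 : V), (1 : ℝ))) ((std s.n).map fun x => (x, 0)))

lemma la_op_single (g : ℝ → X → X) (s : Sx X) : la_op g (single s 1) =
    real (fun p : V × ℝ => g p.2 (s.f p.1))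
      (la_pr ℚ (· + ((0 : V), (1 : ℝ))) ((std s.n).map fun x => (x, 0))) := by
  simp [la_op]

lemma la_std_Lin (n : ℕ) : la_pr ℚ (· + ((0 : V), (1 : ℝ))) ((std n).map fun x => (x, 0)) ∈
    Lin ℚ (Δ n ×ˢ (univ : Set ℝ)) (n + 1) := by
  have := la_pr_Lin (R := ℚ) (K := Δ n ×ˢ (univ : Set ℝ)) (τ := (· + ((0 : V), (1 : ℝ))))
    (fun p hp => ⟨by simpa using hp.1, trivial⟩) (l := (std n).map fun x => (x, 0)) (fun x hx => by
      obtain ⟨y, hy, rfl⟩ := List.mem_map.1 hx
      exact ⟨std_mem y hy, trivial⟩)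
  simpa using this

lemma la_op_In {g : ℝ → X → X} (hg : Continuous fun p : ℝ × X => g p.1 p.2) {U : Set X}
    (hU : ∀ t, ∀ y ∈ U, g t y ∈ U) {n : ℕ} {c : C ℚ X} (hc : c ∈ In ℚ U n) :
    la_op g c ∈ In ℚ U (n + 1) := by
  refine map_mem (fun s hs => ?_) hc
  rw [la_op_single, ← hs.1]
  exact real_In ((convex_Δ _).prod convex_univ)
    (hg.comp_continuousOn (continuousOn_snd.prodMk (s.cont.comp continuousOn_fst fun _ hp => hp.1)))
    (fun p hp => hU _ _ (hs.2 hp.1)) (la_std_Lin _)

lemma la_op_zero (g : ℝ → X → X) {c : C ℚ X} (hc : c ∈ In ℚ (univ : Set X) 0) : la_op g c = 0 :=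
  map_eq (G := 0) (fun s hs => by simp [la_op_single, hs.1, std, la_pr]) hc

variable {W : Type*} [AddCommGroup W] [Module ℝ W] [TopologicalSpace W] [ContinuousAdd W]
  [ContinuousSMul ℝ W] {F : W → X} {g : ℝ → X → X} {e : W}

lemma la_op_real (hF : Continuous F) (he : ∀ w (t : ℝ), F (w + t • e) = g t (F w))
    (c : Ch ℚ W) : la_op g (real F c) = real F (lc (la_pr ℚ (· + e)) c) := by
  refine map_eq (F := la_op g ∘ₗ real F) (G := real F ∘ₗ lc (la_pr ℚ (· + e))) (fun l _ => ?_)
    (mem_top c)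
  simp only [LinearMap.comp_apply, real_single, la_op_single, mk_n, linearCombination_single,
    one_smul]
  have h1 := la_lmap_pr (R := ℚ) (f := (aff l).coprod (LinearMap.toSpanSingleton ℝ W e))
    (τ := (· + ((0 : V), (1 : ℝ)))) (τ' := (· + e)) (fun x => by simp [add_assoc, add_smul])
    ((std l.length).map fun x => (x, 0))
  have h2 : ((std l.length).map fun x => (x, (0 : ℝ))).map
      ((aff l).coprod (LinearMap.toSpanSingleton ℝ W e)) = l := by
    rw [List.map_map]
    conv_rhs => rw [← map_aff_std l]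
    exact List.map_congr_left fun x _ => by simp
  rw [h2] at h1
  rw [← h1, real_lmap]
  refine real_congr ((convex_Δ _).prod convex_univ) (fun p hp => ?_) (la_std_Lin _)
  have h3 := mk_f (cont_aff convex_univ hF.continuousOn (l := l) fun _ _ => trivial) hp.1
  simp only [h3, Function.comp_apply, LinearMap.coprod_apply, LinearMap.toSpanSingleton_apply, he]

omit [TopologicalSpace W] [ContinuousAdd W] [ContinuousSMul ℝ W] in
lemma la_real_shift (he : ∀ w, F (w + e) = F w) (c : Ch ℚ W) :
    real F (lmap (· + e) c) = real F c := by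
  refine map_eq (F := real F ∘ₗ lmap (· + e)) (fun l _ => ?_) (mem_top c)
  simp only [LinearMap.comp_apply, lmap_single, real_single, List.length_map]
  exact congrArg (single · 1) (mk_congr fun t ht => by
    simp only [Function.comp_apply, la_aff_add l e ht, he])

end top

section torus

variable {X : Type} [TopologicalSpace X] [Nonempty X] {σ : Type} [DecidableEq σ]
  [MulAction (σ → Circle) X]

/-- The flow of a coordinate circle. -/
noncomputable def la_fl (j : σ) (t : ℝ) (y : X) : X :=
  (Pi.mulSingle j (Circle.exp (2 * Real.pi * t)) : σ → Circle) • y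

omit [TopologicalSpace X] [Nonempty X] in
lemma la_fl_add (j : σ) (s t : ℝ) (y : X) : la_fl j (s + t) y = la_fl j t (la_fl j s y) := by
  rw [la_fl, la_fl, la_fl, ← mul_smul, ← Pi.mulSingle_mul, ← Circle.exp_add]
  congr 3
  ring

omit [TopologicalSpace X] [Nonempty X] in
lemma la_fl_zero (j : σ) (y : X) : la_fl j 0 y = y := by simp [la_fl]

omit [TopologicalSpace X] [Nonempty X] in
lemma la_fl_one (j : σ) (y : X) : la_fl j 1 y = y := by simp [la_fl]

variable [ContinuousSMul (σ → Circle) X]

omit [Nonempty X] in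
lemma la_fl_cont (j : σ) : Continuous fun p : ℝ × X => la_fl j p.1 p.2 :=
  ((continuous_mulSingle j).comp (Circle.exp.continuous.comp (by fun_prop))).smul continuous_snd

lemma la_eq {f f' : C ℚ X →ₗ[ℚ] C ℚ X}
    (h : ∀ F : V × (σ → ℝ) → X, Continuous F →
      (∀ j w (t : ℝ), F (w + t • (0, Pi.single j 1)) = la_fl j t (F w)) →
      ∀ l, f (real F (single l 1)) = f' (real F (single l 1))) (c : C ℚ X) : f c = f' c := by
  refine eq_all (fun F hF l => ?_) c
  have h1 := h (fun p => (fun i => Circle.exp (2 * Real.pi * p.2 i) : σ → Circle) • F p.1)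
    ((continuous_pi fun i => Circle.exp.continuous.comp (by fun_prop)).smul
      (hF.comp continuous_fst)) (fun j w t => ?_) (l.map (LinearMap.inl ℝ V (σ → ℝ)))
  · rw [← lmap_single, real_lmap] at h1
    have e : (fun _ : σ => (1 : Circle)) = 1 := rfl
    simpa [Function.comp_def, e, -real_single] using h1
  · rw [la_fl, ← mul_smul]
    congr 1
    · funext i
      by_cases hi : i = j
      · subst hi
        simp [mul_add, Circle.exp_add, mul_comm]
      · simp [hi]
    · simp

end torus

theorem exists_lam {X : Type} [TopologicalSpace X] [Nonempty X] {σ : Type} [Fintype σ]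
    [DecidableEq σ] [MulAction (σ → Circle) X] [ContinuousSMul (σ → Circle) X] :
    ∃ lam : σ → C ℚ X →ₗ[ℚ] C ℚ X,
      (∀ (j : σ) (U : Set X), (∀ t : σ → Circle, ∀ y ∈ U, t • y ∈ U) →
        ∀ n, ∀ c ∈ In ℚ U n, lam j c ∈ In ℚ U (n + 1)) ∧
      (∀ j, ∀ c ∈ In ℚ (univ : Set X) 0, lam j c = 0) ∧
      (∀ j c, D (lam j c) + lam j (D c) = 0) ∧
      (∀ i j c, lam i (lam j c) + lam j (lam i c) = 0) ∧
      (∀ j (φ : C ℚ X →ₗ[ℚ] ℚ) c, cap 0 φ (lam j c) = lam j (cap 0 φ c)) ∧
      (∀ j p (φ : C ℚ X →ₗ[ℚ] ℚ) c, cap (p + 1) φ (lam j c) =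
        (-1 : ℚ) ^ (p + 1) • lam j (cap (p + 1) φ c) + cap p (φ ∘ₗ lam j) c) ∧
      ∀ j y, lam j (pt ℚ y) = real (fun t : ℝ =>
        (Pi.mulSingle j (Circle.exp (2 * Real.pi * t)) : σ → Circle) • y) (single [0, 1] 1) := by
  have sh : ∀ {F : V × (σ → ℝ) → X} {j : σ},
      (∀ w (t : ℝ), F (w + t • (0, Pi.single j 1)) = la_fl j t (F w)) →
      ∀ w, F (w + (0, Pi.single j 1)) = F w := fun {F j} h w => by
    have := h w 1
    rwa [one_smul, la_fl_one] at this
  refine ⟨fun j => la_op (la_fl j), fun j U hU n c hc => la_op_In (la_fl_cont j)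
    (fun t y hy => hU _ y hy) hc, fun j c hc => la_op_zero _ hc, fun j c => ?_, fun i j c => ?_,
    fun j φ c => ?_, fun j p φ c => ?_, fun j y => ?_⟩
  · refine la_eq (σ := σ) (f := D ∘ₗ la_op (la_fl j) + la_op (la_fl j) ∘ₗ D) (f' := 0)
      (fun F hF h l => ?_) c
    simp only [LinearMap.add_apply, LinearMap.comp_apply, LinearMap.zero_apply, D_glob hF,
      la_op_real hF (h j), linearCombination_single, one_smul, bd_single]
    rw [← map_add, la_bd_pr, map_sub, ← lmap_single, la_real_shift (sh (h j)), sub_self]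
  · refine la_eq (σ := σ) (f := la_op (la_fl i) ∘ₗ la_op (la_fl j) +
      la_op (la_fl j) ∘ₗ la_op (la_fl i)) (f' := 0) (fun F hF h l => ?_) c
    simp only [LinearMap.add_apply, LinearMap.comp_apply, LinearMap.zero_apply,
      la_op_real hF (h j), la_op_real hF (h i), linearCombination_single, one_smul]
    rw [← map_add, la_anti (fun x => add_right_comm _ _ _), map_zero]
  · refine la_eq (σ := σ) (f := cap 0 φ ∘ₗ la_op (la_fl j)) (f' := la_op (la_fl j) ∘ₗ cap 0 φ)
      (fun F hF h l => ?_) c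
    simp only [LinearMap.comp_apply, cap_glob hF, la_op_real hF (h j), linearCombination_single,
      one_smul, la_cap_zero]
  · refine la_eq (σ := σ) (f := cap (p + 1) φ ∘ₗ la_op (la_fl j))
      (f' := (-1 : ℚ) ^ (p + 1) • la_op (la_fl j) ∘ₗ cap (p + 1) φ +
        cap p (φ ∘ₗ la_op (la_fl j))) (fun F hF h l => ?_) c
    have e : (φ ∘ₗ la_op (la_fl j)) ∘ₗ real F =
        (φ ∘ₗ real F) ∘ₗ lc (la_pr ℚ (· + (0, Pi.single j 1))) := LinearMap.ext fun c => by
      simp only [LinearMap.comp_apply, la_op_real hF (h j)]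
    simp only [LinearMap.add_apply, LinearMap.smul_apply, LinearMap.comp_apply, cap_glob hF,
      la_op_real hF (h j), linearCombination_single, one_smul, la_cap_succ, map_add, map_smul, e,
      la_real_shift (sh (h j))]
  · have hF : Continuous fun t : ℝ => la_fl j t y :=
      (la_fl_cont j).comp (continuous_id.prodMk continuous_const)
    have h1 := la_op_real (e := (1 : ℝ)) (g := la_fl j) hF
      (fun w t => by rw [smul_eq_mul, mul_one, la_fl_add]) (single [0] 1)
    rw [real_one, la_fl_zero] at h1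
    have h2 : lc (la_pr ℚ (· + (1 : ℝ))) (single [0] (1 : ℚ)) = single [0, 1] 1 := by
      simp [la_pr]
    rw [h2] at h1
    exact h1

end Pool.Agent.ToralSp
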