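import Pool.Agent.Lib.MP_238ec1_gt.SpBuilt
import Pool.Agent.Shared.Sing.Orient

/-! Open subsets of a finite cell complex have no homology in high degrees. -/

namespace Pool.Agent.ToralSp

open Set Metric Pool.Agent.Shared.Sing

/-- Bounded open subsets of Euclidean space have no homology from its dimension on. -/
lemma va_euc {k m : ℕ} (hm : k ≤ m) {O : Set (Fin k → ℝ)} (hO : IsOpen O) (hb : O ⊆ ball 0 1)
    {c : C ℚ (Fin k → ℝ)} (hc : c ∈ In ℚ O (m + 1)) (h0 : D c = 0) : c ∈ Bd ℚ O (m + 1) := by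
  obtain ⟨h, H⟩ := contr_star (R := ℚ) (mem_univ (0 : Fin k → ℝ)) (starConvex_univ 0)
  have hA : IsCompact (closedBall (0 : Fin k → ℝ) 2 \ O) := (isCompact_closedBall _ _).diff hO
  have e1 := H.D_h (In_univ hc) h0
  have e2 : (closedBall (0 : Fin k → ℝ) 2 \ O)ᶜ = O ∪ (closedBall 0 2)ᶜ := by
    rw [sdiff_eq, compl_inter, compl_compl, union_comm]
  have h1 : h c ∈ Z ℚ univ (closedBall (0 : Fin k → ℝ) 2 \ O)ᶜ (m + 1) :=
    ⟨(H _ _ (In_univ hc)).1, show D (h c) ∈ In ℚ (closedBall 0 2 \ O)ᶜ (m + 1) by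
      rw [e1, e2]
      exact In_mono subset_union_left _ hc⟩
  obtain ⟨u, -, hv⟩ := mem_B ((good_euc hA).1 (m + 1) (by simpa using Nat.lt_succ_of_le hm) h1)
  rw [e2] at hv
  obtain ⟨j, a, ha, h2⟩ := small_ex hO isClosed_closedBall.isOpen_compl hv
  have h3 := D_In h2
  rw [map_sub, D_sd, map_sub, D_D, sub_zero, e1] at h3
  have h4 := In_inter (sub_mem (sd_In hc j) (D_In ha)) h3
  have e3 : O ∩ (closedBall 0 2)ᶜ = ∅ := eq_empty_of_forall_notMem fun x hx =>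
    hx.2 (ball_subset_closedBall (ball_subset_ball (by norm_num) (hb hx.1)))
  rw [e3] at h4
  have h5 := sub_sd_Bd hc h0 j
  rw [sub_eq_zero.1 (In_empty h4)] at h5
  simpa using add_mem h5 (show D a ∈ Bd ℚ O (m + 1) from ⟨a, ha, rfl⟩)

variable {X : Type} [TopologicalSpace X] [Nonempty X]

/-- The same for open subsets of an open cell. -/
lemma va_cell {k m : ℕ} (hm : k ≤ m) (Φ : PartialEquiv (Fin k → ℝ) X) (hs : Φ.source = ball 0 1)
    (h1 : ContinuousOn Φ (closedBall 0 1)) (h2 : ContinuousOn Φ.symm Φ.target) {U : Set X}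
    (hU : IsOpen U) {c : C ℚ X} (hc : c ∈ In ℚ (U ∩ Φ '' ball 0 1) (m + 1)) (h0 : D c = 0) :
    c ∈ Bd ℚ (U ∩ Φ '' ball 0 1) (m + 1) := by
  have ht : Φ '' ball 0 1 = Φ.target := by rw [← hs, Φ.image_source_eq_target]
  have h3 := h1.mono ball_subset_closedBall
  have h4 : ContinuousOn Φ.symm (U ∩ Φ '' ball 0 1) := h2.mono (ht ▸ inter_subset_right)
  have h5 : MapsTo Φ.symm (U ∩ Φ '' ball 0 1) (ball 0 1 ∩ Φ ⁻¹' U) := fun y hy =>
    ⟨hs ▸ Φ.map_target (ht ▸ hy.2), by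
      rw [mem_preimage, Φ.right_inv (ht ▸ hy.2)]
      exact hy.1⟩
  obtain ⟨w, hw, e⟩ := va_euc hm (h3.isOpen_inter_preimage isOpen_ball hU) inter_subset_left
    (map_In h4 h5 hc) (by rw [← map_D h4 hc, h0, map_zero])
  have h6 := h3.mono (inter_subset_left (t := Φ ⁻¹' U))
  have h7 : MapsTo Φ (ball 0 1 ∩ Φ ⁻¹' U) (U ∩ Φ '' ball 0 1) := fun x hx => ⟨hx.2, x, hx.1, rfl⟩
  refine ⟨map Φ w, map_In h6 h7 hw, ?_⟩
  rw [← map_D h6 hw, e, map_map h4 hc]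
  exact map_self (fun y hy => Φ.right_inv (ht ▸ hy.2)) hc

lemma va_sup {U U' Y : Set X} {n : ℕ} {c : C ℚ X} (h : c ∈ In ℚ U n ⊔ In ℚ U' n)
    (hY : c ∈ In ℚ Y n) : c ∈ In ℚ (U ∩ Y) n ⊔ In ℚ (U' ∩ Y) n := by
  unfold In at h hY ⊢
  rw [← Finsupp.supported_union] at h ⊢
  exact fun s hs => (h hs).imp (fun h' => ⟨h'.1, h'.2.inter (hY hs).2⟩)
    fun h' => ⟨h'.1, h'.2.inter (hY hs).2⟩

lemma va_cont {A B E : Type*} [TopologicalSpace A] [TopologicalSpace B] [TopologicalSpace E]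
    [T2Space B] {S : Set A} (hS : IsCompact S) {π : A → B} (hπ : ContinuousOn π S) {H : B → E}
    (hH : ContinuousOn (H ∘ π) S) : ContinuousOn H (π '' S) := by
  rw [continuousOn_iff_isClosed]
  intro t ht
  have h1 : IsCompact (S ∩ (H ∘ π) ⁻¹' t) := by
    obtain ⟨u, hu, e⟩ := continuousOn_iff_isClosed.1 hH t ht
    rw [inter_comm, e, inter_comm]
    exact hS.inter_right hu
  refine ⟨_, (h1.image_of_continuousOn (hπ.mono inter_subset_left)).isClosed, ?_⟩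
  ext y
  constructor
  · rintro ⟨hy, x, hx, rfl⟩
    exact ⟨⟨x, ⟨hx, hy⟩, rfl⟩, x, hx, rfl⟩
  · rintro ⟨⟨x, hx, rfl⟩, hy⟩
    exact ⟨hx.2, hy⟩

/-- The radial deformation of the closed ball. -/
noncomputable def va_rho {k : ℕ} (p : (Fin k → ℝ) × ℝ) : Fin k → ℝ :=
  (1 - p.2) • p.1 + p.2 • (max ‖p.1‖ (1 / 2))⁻¹ • p.1

lemma va_rho_cont {k : ℕ} : Continuous (va_rho (k := k)) := by
  have h : Continuous fun p : (Fin k → ℝ) × ℝ => (max ‖p.1‖ (1 / 2))⁻¹ :=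
    Continuous.inv₀ (by fun_prop) fun p => (lt_max_of_lt_right (by norm_num)).ne'
  unfold va_rho
  fun_prop

lemma va_rho_mem {k : ℕ} : MapsTo (va_rho (k := k)) (closedBall 0 1 ×ˢ Icc 0 1) (closedBall 0 1) := by
  intro p hp
  refine convex_closedBall 0 1 hp.1 ?_ (sub_nonneg.2 hp.2.2) hp.2.1 (sub_add_cancel _ _)
  have h : (0 : ℝ) < max ‖p.1‖ (1 / 2) := lt_max_of_lt_right (by norm_num)
  rw [mem_closedBall_zero_iff, norm_smul, Real.norm_of_nonneg (inv_pos.2 h).le,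
    inv_mul_le_iff₀ h, mul_one]
  exact le_max_left _ _

lemma va_rho_zero {k : ℕ} (x : Fin k → ℝ) : va_rho (x, 0) = x := by simp [va_rho]

lemma va_rho_sphere {k : ℕ} {x : Fin k → ℝ} (hx : x ∈ sphere 0 1) (t : ℝ) : va_rho (x, t) = x := by
  rw [mem_sphere_zero_iff_norm] at hx
  rw [va_rho, hx, max_eq_left (by norm_num), inv_one, one_smul, ← add_smul, sub_add_cancel, one_smul]

lemma va_rho_one {k : ℕ} {x : Fin k → ℝ} (hx : x ∉ closedBall 0 (1 / 2)) :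
    va_rho (x, 1) ∈ sphere 0 1 := by
  rw [mem_closedBall_zero_iff, not_le] at hx
  have h : 0 < ‖x‖ := lt_trans (by norm_num) hx
  rw [va_rho, sub_self, zero_smul, zero_add, one_smul, max_eq_left hx.le, mem_sphere_zero_iff_norm,
    norm_smul, Real.norm_of_nonneg (inv_pos.2 h).le, inv_mul_cancel₀ h.ne']

omit [Nonempty X] in
/-- The geometry of one attached cell: a neighbourhood of the old part that deforms into it. -/
lemma va_geo [T2Space X] {k : ℕ} (Φ : PartialEquiv (Fin k → ℝ) X) (hs : Φ.source = ball 0 1)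
    (h1 : ContinuousOn Φ (closedBall 0 1)) {Y V : Set X} (hY : IsCompact Y)
    (h3 : MapsTo Φ (sphere 0 1) Y) (h4 : Disjoint (Φ '' ball 0 1) Y) (hV : IsOpen V) :
    ∃ W, IsOpen W ∧ V ∩ Y ⊆ W ∧ ∃ H : X × ℝ → X,
      ContinuousOn H ((Y ∪ Φ '' closedBall 0 1) ×ˢ Icc 0 1) ∧
      MapsTo H ((W ∩ (Y ∪ Φ '' closedBall 0 1)) ×ˢ Icc 0 1) (V ∩ (Y ∪ Φ '' closedBall 0 1)) ∧
      (∀ y ∈ Y ∪ Φ '' closedBall 0 1, H (y, 0) = y) ∧
      MapsTo (fun y => H (y, 1)) (W ∩ (Y ∪ Φ '' closedBall 0 1)) (V ∩ Y) := by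
  classical
  have hS : IsCompact (closedBall (0 : Fin k → ℝ) 1 ×ˢ Icc (0 : ℝ) 1) :=
    (isCompact_closedBall _ _).prod isCompact_Icc
  have hr : ContinuousOn (Φ ∘ va_rho) (closedBall (0 : Fin k → ℝ) 1 ×ˢ Icc (0 : ℝ) 1) :=
    h1.comp va_rho_cont.continuousOn va_rho_mem
  let Q : Set (Fin k → ℝ) := closedBall 0 (1 / 2) ∪
    Prod.fst '' (closedBall 0 1 ×ˢ Icc (0 : ℝ) 1 ∩ (Φ ∘ va_rho) ⁻¹' Vᶜ)
  have hQ : IsCompact Q := (isCompact_closedBall _ _).union ((hS.of_isClosed_subset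
    (hr.preimage_isClosed_of_isClosed hS.isClosed hV.isClosed_compl) inter_subset_left).image
      continuous_fst)
  have hQ1 : Q ⊆ closedBall 0 1 := by
    rintro x (hx | ⟨p, hp, rfl⟩)
    · exact closedBall_subset_closedBall (by norm_num) hx
    · exact hp.1.1
  have hsp : ∀ x ∈ closedBall (0 : Fin k → ℝ) 1, Φ x ∈ Y → x ∈ sphere 0 1 := fun x hx hy => by
    rw [← ball_union_sphere] at hx
    exact hx.resolve_left fun h => disjoint_left.1 h4 ⟨x, h, rfl⟩ hy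
  let H : X × ℝ → X := fun p => if p.1 ∈ Y then p.1 else Φ (va_rho (Φ.symm p.1, p.2))
  have hH : ∀ x ∈ closedBall (0 : Fin k → ℝ) 1, ∀ t, H (Φ x, t) = Φ (va_rho (x, t)) := by
    intro x hx t
    by_cases hy : Φ x ∈ Y
    · rw [va_rho_sphere (hsp x hx hy)]
      exact if_pos hy
    · rw [← ball_union_sphere] at hx
      have := Φ.left_inv (hs ▸ hx.resolve_right fun h => hy (h3 h))
      exact (if_neg hy).trans (by rw [this])
  refine ⟨V \ Φ '' Q, hV.sdiff (hQ.image_of_continuousOn (h1.mono hQ1)).isClosed, ?_, H, ?_, ?_, ?_,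
    ?_⟩
  · rintro y ⟨hyV, hyY⟩
    refine ⟨hyV, ?_⟩
    rintro ⟨x, hx, rfl⟩
    have h5 := hsp x (hQ1 hx) hyY
    rcases hx with hx | ⟨p, hp, rfl⟩
    · rw [mem_sphere_zero_iff_norm] at h5
      rw [mem_closedBall_zero_iff, h5] at hx
      norm_num at hx
    · refine hp.2 ?_
      rw [Function.comp_apply, show p = (p.1, p.2) from rfl, va_rho_sphere h5]
      exact hyV
  · rw [union_prod]
    have e : (Φ '' closedBall 0 1) ×ˢ Icc (0 : ℝ) 1 =
        (fun p : (Fin k → ℝ) × ℝ => (Φ p.1, p.2)) '' (closedBall 0 1 ×ˢ Icc (0 : ℝ) 1) := by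
      rw [← prod_image_image_eq (m₁ := Φ) (m₂ := fun t : ℝ => t), image_id']
    have hπ : ContinuousOn (fun p : (Fin k → ℝ) × ℝ => (Φ p.1, p.2))
        (closedBall 0 1 ×ˢ Icc (0 : ℝ) 1) :=
      (h1.comp continuousOn_fst fun p hp => hp.1).prodMk continuousOn_snd
    refine ContinuousOn.union_of_isClosed (continuousOn_fst.congr fun p hp => if_pos hp.1) ?_
      (hY.isClosed.prod isClosed_Icc) (e ▸ (hS.image_of_continuousOn hπ).isClosed)
    rw [e]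
    exact va_cont hS hπ (hr.congr fun p hp => hH p.1 hp.1 p.2)
  · rintro ⟨y, t⟩ ⟨⟨hy, hy' | ⟨x, hx, rfl⟩⟩, ht⟩
    · rw [show H (y, t) = y from if_pos hy']
      exact ⟨hy.1, Or.inl hy'⟩
    · rw [hH x hx]
      refine ⟨by_contra fun h => hy.2 ⟨x, Or.inr ⟨(x, t), ⟨⟨hx, ht⟩, h⟩, rfl⟩, rfl⟩,
        Or.inr ⟨_, va_rho_mem (x := (x, t)) ⟨hx, ht⟩, rfl⟩⟩
  · rintro y (hy | ⟨x, hx, rfl⟩)
    · exact if_pos hy
    · rw [hH x hx, va_rho_zero]
  · rintro y ⟨hy, hy' | ⟨x, hx, rfl⟩⟩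
    · change H (y, 1) ∈ _
      rw [show H (y, 1) = y from if_pos hy']
      exact ⟨hy.1, hy'⟩
    · change H (Φ x, 1) ∈ _
      rw [hH x hx]
      exact ⟨by_contra fun h => hy.2 ⟨x, Or.inr ⟨(x, 1), ⟨⟨hx, by simp⟩, h⟩, rfl⟩, rfl⟩,
        h3 (va_rho_one fun h => hy.2 ⟨x, Or.inl h, rfl⟩)⟩

lemma va_main [T2Space X] {d : ℕ} {Y : Set X} (h : Built d Y) {V : Set X} (hV : IsOpen V) {n : ℕ}
    (hn : d ≤ n) {c : C ℚ X} (hc : c ∈ In ℚ (V ∩ Y) (n + 2)) (h0 : D c = 0) :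
    c ∈ Bd ℚ (V ∩ Y) (n + 2) := by
  induction h generalizing c with
  | empty =>
    rw [inter_empty] at hc
    rw [In_empty hc]
    exact zero_mem _
  | @attach Y k Φ hY hk hs h1 h2 h3 h4 ih =>
    obtain ⟨W, hW, hWY, H, c1, c2, c3, c4⟩ := va_geo Φ hs h1 hY.isCompact h3 h4 hV
    have hO : IsOpen (V \ Y) := hV.sdiff hY.isCompact.isClosed
    have hcov : V ∩ (Y ∪ Φ '' closedBall 0 1) ⊆ W ∪ V \ Y := fun y hy => by
      by_cases e : y ∈ Y
      · exact Or.inl (hWY ⟨hy.1, e⟩)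
      · exact Or.inr ⟨hy.1, e⟩
    have hO1 : V \ Y ∩ (Y ∪ Φ '' closedBall 0 1) ⊆ V \ Y ∩ Φ '' ball 0 1 := by
      rintro y ⟨hy, hy' | ⟨x, hx, rfl⟩⟩
      · exact absurd hy' hy.2
      · rw [← ball_union_sphere] at hx
        exact ⟨hy, x, hx.resolve_right fun h => hy.2 (h3 h), rfl⟩
    have hb1 : Φ '' ball 0 1 ⊆ Y ∪ Φ '' closedBall 0 1 :=
      (image_mono ball_subset_closedBall).trans subset_union_right
    obtain ⟨m, hm⟩ := (small₂ hW hO (In_mono hcov _ hc)).exists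
    obtain ⟨a, ha, b, hb, e⟩ := Submodule.mem_sup.1
      (va_sup hm (sd_In (In_mono inter_subset_right _ hc) m))
    have hb' := In_mono hO1 _ hb
    have e1 : D a = - D b := by
      rw [eq_neg_iff_add_eq_zero, ← map_add, e, D_sd, h0, map_zero]
    have h5 : D a ∈ In ℚ (W ∩ (V \ Y) ∩ Φ '' ball 0 1) (n + 1) := by
      rw [inter_assoc]
      exact In_inter (In_mono inter_subset_left _ (D_In ha)) (e1 ▸ neg_mem (D_In hb'))
    obtain ⟨w, hw, e2⟩ := va_cell (hk.trans hn) Φ hs h1 h2 (hW.inter hO) h5 (D_D a)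
    have h6 := va_cell (hk.trans (hn.trans (Nat.le_succ n))) Φ hs h1 h2 hO
      (add_mem hb' (In_mono (inter_subset_inter_left _ inter_subset_right) _ hw))
      (by rw [map_add, e2, e1, add_neg_cancel])
    have h7 : a - w ∈ In ℚ (W ∩ (Y ∪ Φ '' closedBall 0 1)) (n + 2) :=
      sub_mem ha (In_mono (inter_subset_inter inter_subset_left hb1) _ hw)
    have h8 : D (a - w) = 0 := by rw [map_sub, e2, sub_self]
    have c1' := c1.mono (prod_mono_left (inter_subset_right (s := W)))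
    have c5 : ContinuousOn (fun y => H (y, 1)) (W ∩ (Y ∪ Φ '' closedBall 0 1)) :=
      c1'.comp (continuousOn_id.prodMk continuousOn_const) fun y hy => ⟨hy, by simp⟩
    have h9 := D_P c1' h7
    rw [h8, map_zero, add_zero, map_self (fun y hy => c3 y hy.2) h7] at h9
    have h10 := ih (map_In c5 c4 h7) (by rw [← map_D c5 h7, h8, map_zero])
    have h11 : a - w ∈ Bd ℚ (V ∩ (Y ∪ Φ '' closedBall 0 1)) (n + 2) := by
      have := sub_mem (Submodule.map_mono (In_mono (inter_subset_inter_right _ subset_union_left) _)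
        h10) (show D (P H (a - w)) ∈ Bd ℚ (V ∩ (Y ∪ Φ '' closedBall 0 1)) (n + 2) from
          ⟨_, P_In c1' c2 h7, rfl⟩)
      rwa [h9, sub_sub_cancel] at this
    have h12 := add_mem (sub_sd_Bd hc h0 m) (add_mem h11
      (Submodule.map_mono (In_mono (inter_subset_inter sdiff_subset hb1) _) h6))
    rwa [← e, sub_add_add_cancel, sub_add_cancel] at h12

theorem Built.vanish {X : Type} [TopologicalSpace X] [T2Space X] [Nonempty X] {d : ℕ} {Y : Set X}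
    (h : Built d Y) {V : Set X} (hV : IsOpen V) {n : ℕ} (hn : d + 1 < n) :
    Z ℚ (V ∩ Y) ∅ n ≤ B ℚ (V ∩ Y) ∅ n := by
  obtain ⟨n, rfl⟩ := Nat.exists_eq_add_one_of_ne_zero (n := n) (by omega)
  exact fun c hc => Submodule.mem_sup_left (va_main h hV (by omega) hc.1 (In_empty (Z_D hc)))

end Pool.Agent.ToralSp
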