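import Pool.Agent.Lib.MP_238ec1_gt.SpMain
import Pool.Agent.Lib.MP_238ec1_gt.SpVanish
import Pool.Agent.Lib.MP_238ec1_gt.SpCW
import Pool.Agent.Lib.MP_238ec1_gt.SpHaar
import Pool.Agent.Lib.MP_238ec1_gt.SpLam
import Pool.Agent.Shared.Sing.Kun

/-! The estimate for spaces. -/

set_option linter.unusedSectionVars false

namespace Pool.Agent.ToralSp

open Set Finsupp Pool.Agent.Shared.Sing Pool.Agent.Shared.SingEZ

theorem Setup.rank_bound' {σ ι M : Type} [Fintype σ] [DecidableEq σ] [AddCommGroup M] [Module ℚ M]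
    (S : Setup σ ι M) (h4 : 4 ≤ Fintype.card σ) (hne : ∃ u, ∃ x ∈ S.A u 0, S.e x ≠ 0) {d0 : ℕ}
    (van : ∀ (T : Finset ι) p, d0 < p → ∀ x ∈ ⨆ u ∈ T, S.A u p, S.d x = 0 →
      ∃ y ∈ ⨆ u ∈ T, S.A u (p + 1), S.d y = x)
    (H : ℕ → Type) [∀ p, AddCommGroup (H p)] [∀ p, Module ℚ (H p)] (θ : ∀ p, M →ₗ[ℚ] H p)
    (hθ : ∀ p, ∀ x ∈ ⨆ u, S.A u p, S.d x = 0 → θ p x = 0 → ∃ y ∈ ⨆ u, S.A u (p + 1), S.d y = x) :
    ((4 * Fintype.card σ - 2 * (Fintype.card σ % 2) : ℕ) : Cardinal) ≤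
      Cardinal.sum fun p => Module.rank ℚ (H p) := by
  have hd : ∀ x : S.tot, (S.res.d x : M) = S.d x := DFunLike.congr_fun (Setup.hext S.res_top
    (f := S.tot.subtype ∘ₗ S.res.d) (g := S.d ∘ₗ S.tot.subtype) fun u p x hx =>
      Setup.R_coe (S.dA hx))
  obtain ⟨u, x, hx, he⟩ := hne
  refine Setup.rank_bound S.res_top h4 ⟨⟨x, Setup.mem_tot hx⟩, he⟩ (d0 := d0)
    (fun T p hp x hx h0 => ?_) H (fun p => θ p ∘ₗ S.tot.subtype) fun p x hx h0 h1 => ?_
  · obtain ⟨y, y1, y2⟩ := van T p hp x ((show (⨆ u ∈ T, S.res.A u p) ≤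
      (⨆ u ∈ T, S.A u p).comap S.tot.subtype from iSup₂_le fun u hu z hz =>
        Submodule.mem_iSup_of_mem u (Submodule.mem_iSup_of_mem hu hz)) hx)
      (by rw [← hd, h0, Submodule.coe_zero])
    have y3 : y ∈ S.tot := (show (⨆ u ∈ T, S.A u (p + 1)) ≤ S.tot from
      iSup₂_le fun u _ z hz => Setup.mem_tot hz) y1
    refine ⟨⟨y, y3⟩, ?_, Subtype.ext ((hd _).trans y2)⟩
    rw [← S.π_coe ⟨y, y3⟩]
    exact (show (⨆ u ∈ T, S.A u (p + 1)) ≤ (⨆ u ∈ T, S.res.A u (p + 1)).comap S.π from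
      iSup₂_le fun u hu z hz => Submodule.mem_iSup_of_mem u (Submodule.mem_iSup_of_mem hu
        (show (S.π z : M) ∈ _ from (Setup.coe_π hz).symm ▸ hz))) y1
  · obtain ⟨y, y1, y2⟩ := hθ p x ((show (⨆ u, S.res.A u p) ≤ (⨆ u, S.A u p).comap S.tot.subtype
      from iSup_le fun u z hz => Submodule.mem_iSup_of_mem u hz) hx)
      (by rw [← hd, h0, Submodule.coe_zero]) h1
    exact ⟨⟨y, (show (⨆ u, S.A u (p + 1)) ≤ S.tot from iSup_le fun u z hz => Setup.mem_tot hz) y1⟩,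
      Subtype.ext ((hd _).trans y2)⟩

variable {X : Type} [TopologicalSpace X] [Nonempty X] {A : Set X} {n p : ℕ} {c : C ℚ X}

/-- The cap product as a linear map. -/
noncomputable def capl (p : ℕ) : (C ℚ X →ₗ[ℚ] ℚ) →ₗ[ℚ] Module.End ℚ (C ℚ X) where
  toFun := cap p
  map_add' φ ψ := LinearMap.ext (cap_add p φ ψ)
  map_smul' r φ := LinearMap.ext (cap_smul p r φ)

lemma cap_e1 (hc : c ∈ In ℚ A (n + 1)) : cap 0 e1 c = c :=
  eq_In (g := LinearMap.id) (fun F hF _ l hl => by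
    obtain _ | ⟨a, l⟩ := l
    · simp at hl
    · simp [cap_glob hF, capL_zero, e1_real, -real_single]) hc

lemma cap_mem (p : ℕ) (φ : C ℚ X →ₗ[ℚ] ℚ) (hc : c ∈ In ℚ A (n + 1)) :
    cap p φ c ∈ In ℚ A (n - p + 1) := by
  rcases lt_or_ge n p with h | h
  · rw [cap_low φ hc h]
    exact zero_mem _
  · rw [← Nat.sub_add_comm h]
    exact cap_In p φ hc

lemma Dr_cap (p : ℕ) (φ : C ℚ X →ₗ[ℚ] ℚ) (hc : c ∈ In ℚ A (n + 1)) :
    Dr (cap p φ c) = (-1 : ℚ) ^ p • (cap p φ (Dr c) - cap (p + 1) (φ ∘ₗ Dr) c) := by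
  rcases le_or_gt n p with h | h
  · rw [cap_low φ (Dr_mem hc) h, cap_low _ hc (Nat.succ_le_succ h), sub_zero, smul_zero]
    exact Dr_one (Nat.sub_eq_zero_of_le h ▸ cap_mem p φ hc :)
  · rw [Dr_In (cap_In p φ hc) (by omega), Dr_In hc (by omega), D_cap φ hc (by omega),
      cap_congr (φ := φ ∘ₗ D) (ψ := φ ∘ₗ Dr) (fun y hy => congrArg φ (Dr_In hy (by omega)).symm) hc]

lemma Dr_mem' (hc : c ∈ In ℚ A (n + 1)) : Dr c ∈ In ℚ A (n - 1 + 1) := by
  cases n with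
  | zero => rw [Dr_one hc]; exact zero_mem _
  | succ n => exact Dr_mem hc

lemma mem_Z_of_Dr (hc : c ∈ In ℚ A (n + 1)) (h : Dr c = 0) : c ∈ Z ℚ A ∅ n := by
  cases n with
  | zero => exact mem_Z_zero hc
  | succ n => exact mem_Z hc ((Dr_In hc (by omega)).symm.trans h)

lemma small_bd {ι : Type} {U : ι → Set X} (hU : ∀ i, IsOpen (U i))
    (hc : c ∈ ⨆ i, In ℚ (U i) (n + 1)) (hB : c ∈ B ℚ (⋃ i, U i) ∅ n) :
    ∃ y ∈ ⨆ i, In ℚ (U i) (n + 2), Dr y = c := by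
  rcases isEmpty_or_nonempty ι with _ | _
  · rw [iSup_of_empty, Submodule.mem_bot] at hc
    exact ⟨0, zero_mem _, by rw [hc, map_zero]⟩
  obtain ⟨w, hw, rfl⟩ := mem_B_empty hB
  obtain ⟨m, hm⟩ := (small hU hw).exists
  obtain ⟨T, h1, h2⟩ := exists_T (R := ℚ) (Y := X) m
  have h3 : T (D w) ∈ ⨆ i, In ℚ (U i) (n + 2) :=
    (show (⨆ i, In ℚ (U i) (n + 1)) ≤ (⨆ i, In ℚ (U i) (n + 2)).comap T from
      iSup_le fun i x hx => Submodule.mem_iSup_of_mem i (h1 _ _ x hx)) hc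
  refine ⟨_, add_mem hm h3, ?_⟩
  have h4 := h2 (D w)
  rw [D_D, map_zero, add_zero] at h4
  rw [Dr_In (add_mem (sd_In (In_univ hw) m) (h1 _ _ _ (D_In (In_univ hw)))) (by omega), map_add,
    h4, D_sd, add_sub_cancel]

variable {σ : Type} [Fintype σ] [DecidableEq σ] [MulAction (σ → Circle) X]
  [ContinuousSMul (σ → Circle) X]

theorem exists_setup {ι : Type} (U : ι → Set X) (hU : ∀ u (t : σ → Circle), ∀ y ∈ U u, t • y ∈ U u)
    (hF : ∀ u i, ∃ (N : ℕ) (F : X → ℂ), 0 < N ∧ Continuous F ∧ (∀ y ∈ U u, F y ≠ 0) ∧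
      ∀ (t : σ → Circle) (y : X), F (t • y) = (t i : ℂ) ^ N * F y) :
    ∃ S : Setup σ ι (C ℚ X), (S.A = fun u p => In ℚ (U u) (p + 1)) ∧ S.d = Dr ∧ S.e = e1 := by
  obtain ⟨lam, l1, l2, l3, l4, l5, l6, l7⟩ := exists_lam (X := X) (σ := σ)
  refine ⟨{
    A := fun u p => In ℚ (U u) (p + 1)
    d := Dr
    l := lam
    s := -(sg : Module.End ℚ (C ℚ X))
    pj := fun q => prj (q + 1)
    e := e1
    κ := capl
    dA := Dr_mem'
    d0 := Dr_one
    lA := fun j h => l1 j _ (hU _) _ _ h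
    sA := fun h => by simp [sg_In h, pow_succ]
    pA := fun q h => by simp [prj_In (In_univ h)]
    eA := fun h => e1_In h (by omega)
    ed := fun h => by rw [Dr_In h (by omega), e1_eq (D_In h), coc_eps _ h]
    dd := fun _ => Dr_Dr _
    dl := fun {u p x} j h => ?_
    ll := fun i j _ => l4 i j _
    κA := fun p φ h => cap_mem p φ h
    κ0 := fun φ h hp => cap_low φ h hp
    κe := fun φ h => (e1_eq (cap_In' φ h)).trans (eps_cap φ h)
    κc := fun hφ h => cap_eq_zero hφ h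
    κ1 := cap_e1
    κκ := fun p q φ ψ _ => cap_cap p q φ ψ _
    κd := fun p φ h => Dr_cap p φ h
    κl0 := fun j φ _ => l5 j φ _
    κl := fun j p φ _ => l6 j p φ _
    ang := fun u j => ?_ }, rfl, rfl, rfl⟩
  · rw [Dr_In (l1 j _ (hU u) _ _ h) (by omega)]
    cases p with
    | zero => simpa [Dr_one h, l2 j _ (In_univ (D_In h))] using l3 j x
    | succ p => rw [Dr_In h (by omega), l3]
  · obtain ⟨N, F, hN, F1, F2, F3⟩ := hF u j
    obtain ⟨φ, φ1, φ2⟩ := exists_angle F1 F2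
    refine ⟨(N : ℚ)⁻¹ • φ, fun y hy => by simp [Dr_In hy, φ1 y hy], fun i y hy => ?_⟩
    refine (eq_In (f := ((N : ℚ)⁻¹ • φ) ∘ₗ lam i) (g := if i = j then e1 else 0)
      (fun G hG hA l hl => ?_) hy).trans (by split_ifs <;> rfl)
    obtain ⟨v, rfl⟩ := List.length_eq_one_iff.1 hl
    rw [real_one, LinearMap.comp_apply, l7, LinearMap.smul_apply,
      φ2 (fun t : ℝ => (Pi.mulSingle i (Circle.exp (2 * Real.pi * t)) : σ → Circle) • G v)
        (if i = j then N else 0) (Continuous.smul ((continuous_mulSingle i).comp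
        (by fun_prop)) continuous_const) (fun t => hU u _ _ (hA v)) fun t => by
          split_ifs with H
          · simp [F3, H]
          · simp [F3, Pi.mulSingle_eq_of_ne (Ne.symm H)]]
    split_ifs <;> simp [e1_pt, hN.ne']

theorem space_bound [T2Space X] [Topology.CWComplex (univ : Set X)]
    [Topology.RelCWComplex.FiniteDimensional (univ : Set X)] (h4 : 4 ≤ Fintype.card σ)
    (hfin : ∀ x : X, (MulAction.stabilizer (σ → Circle) x : Set (σ → Circle)).Finite) :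
    ((4 * Fintype.card σ - 2 * (Fintype.card σ % 2) : ℕ) : Cardinal) ≤
      Cardinal.sum fun i : ℕ => Module.rank ℚ
        (((AlgebraicTopology.singularHomologyFunctor (ModuleCat.{0} ℚ) i).obj
          (ModuleCat.of ℚ ℚ)).obj (TopCat.of X)) := by
  choose N F hN F1 F2 F3 using fun x i => exists_equiv (cw_sep X) x (hfin x) i
  let U : X → Set X := fun x => ⋂ i, {y | F x i y ≠ 0}
  have hU : ∀ x, IsOpen (U x) := fun x => isOpen_iInter_of_finite fun i =>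
    isOpen_ne_fun (F1 x i) continuous_const
  have hx : ∀ x, x ∈ U x := fun x => mem_iInter.2 (F2 x)
  obtain ⟨S, hA, hd, he⟩ := exists_setup (σ := σ) U
    (fun u t y hy => mem_iInter.2 fun i => by
      simpa [F3] using mem_iInter.1 hy i)
    fun u i => ⟨N u i, F u i, hN u i, F1 u i, fun y hy => mem_iInter.1 hy i, F3 u i⟩
  obtain ⟨d, hb⟩ := cw_built X
  choose θ hθ using exists_cls X
  refine S.rank_bound' h4 ?_ (d0 := d + 1) ?_ _ θ ?_ <;> simp only [hA, hd, he]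
  · obtain ⟨x⟩ : Nonempty X := inferInstance
    exact ⟨x, pt ℚ x, pt_In (hx x), by simp [e1_pt]⟩
  · intro T p hp c hc h0
    rw [iSup_subtype'] at hc ⊢
    refine small_bd (U := fun i : T => U i) (fun i => hU i) hc ?_
    have h1 : c ∈ In ℚ (⋃ i : T, U i) (p + 1) :=
      (show (⨆ i : T, In ℚ (U i) (p + 1)) ≤ _ from
        iSup_le fun i => In_mono (subset_iUnion (fun i : T => U i) i) _) hc
    obtain ⟨K, K1, -, K2⟩ := exists_compact h1
    obtain ⟨Y, Y1, Y2⟩ := hb K K1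
    exact B_mono inter_subset_left le_rfl (Y1.vanish (isOpen_iUnion fun i : T => hU i) hp
      (mem_Z_of_Dr (In_inter h1 (In_mono Y2 _ K2)) h0))
  · intro p c hc h0 h1
    refine small_bd hU hc ?_
    rw [eq_univ_of_forall fun x => mem_iUnion.2 ⟨x, hx x⟩]
    exact hθ p c (mem_Z_of_Dr ((show (⨆ i, In ℚ (U i) (p + 1)) ≤ In ℚ univ (p + 1) from
      iSup_le fun i => In_mono (subset_univ (U i)) _) hc) h0) h1

end Pool.Agent.ToralSp
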