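import Pool.Agent.Lib.MP_238ec1_gt.SpCap

/-! The estimate for the homology of the small chains. -/

set_option linter.unusedSectionVars false
set_option linter.style.haveILetI false

namespace Pool.Agent.ToralSp

open Finsupp MvPolynomial TensorProduct Pool.Agent.Toral

variable {σ ι M : Type} [Fintype σ] [DecidableEq σ] [AddCommGroup M] [Module ℚ M]

lemma exists_res {E : Type} [Ring E] [Algebra ℚ E] {K : Subalgebra ℚ E} (𝒜 : ℕ → Submodule ℚ K)
    [GradedAlgebra 𝒜] (f : Module.End ℚ E) (hf : ∀ i, ∀ a ∈ 𝒜 i, f a ∈ K) :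
    ∃ g : Module.End ℚ K, ∀ a, (g a : E) = f a := by
  have : ∀ a : K, f a ∈ K := K_rec (𝒜 := 𝒜) (by simp)
    (fun x y hx hy => by simpa using add_mem hx hy) hf
  exact ⟨{ toFun := fun a => ⟨f a, this a⟩
           map_add' := fun a b => Subtype.ext (map_add f _ _)
           map_smul' := fun r a => Subtype.ext (map_smul f r _) }, fun _ => rfl⟩

lemma exists_sum {V : Type} [AddCommGroup V] [Module ℚ V] (H : ℕ → Type) [∀ p, AddCommGroup (H p)]
    [∀ p, Module ℚ (H p)] [∀ p, Module.Finite ℚ (H p)] (θ : ∀ p, V →ₗ[ℚ] H p) :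
    ∃ (W : Type) (_ : AddCommGroup W) (_ : Module ℚ W) (Ξ : W →ₗ[ℚ] Module.Dual ℚ V),
      Module.rank ℚ W = Cardinal.sum (fun p => Module.rank ℚ (H p)) ∧
      ∀ p (f : Module.Dual ℚ V), (∀ z, θ p z = 0 → f z = 0) → f ∈ LinearMap.range Ξ := by
  refine ⟨DirectSum ℕ fun p => Module.Dual ℚ (H p), inferInstance, inferInstance,
    DirectSum.toModule ℚ ℕ _ fun p => (θ p).dualMap, ?_, fun p f hf => ?_⟩
  · rw [rank_directSum]
    simp only [Module.Dual, ← Module.finrank_eq_rank, Module.finrank_linearMap_self]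
  · obtain ⟨g, hg⟩ := exists_fac (θ p) f hf
    exact ⟨DirectSum.lof ℚ ℕ _ p g, by
      rw [DirectSum.toModule_lof]
      exact LinearMap.ext hg⟩

section borel

variable {K : Type} [Ring K] [Algebra ℚ K] (d : Module.End ℚ K) (c : σ → Module.End ℚ K)

/-- The differential of the Cartan model. -/
noncomputable def cartan : Module.End (MvPolynomial σ ℚ) (MvPolynomial σ ℚ ⊗[ℚ] K) :=
  d.baseChange _ + ∑ j, (X j : MvPolynomial σ ℚ) • (c j).baseChange _

lemma cartan_tmul (a : K) :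
    cartan d c (1 ⊗ₜ a) = 1 ⊗ₜ d a + ∑ j, (X j : MvPolynomial σ ℚ) ⊗ₜ c j a := by
  simp [cartan, LinearMap.sum_apply, smul_tmul']

lemma co_cartan (z : MvPolynomial σ ℚ ⊗[ℚ] K) (m : σ →₀ ℕ) :
    co σ K (cartan d c z) m = d (co σ K z m) + ∑ j, c j (up K j (co σ K z) m) := by
  simp only [cartan, LinearMap.add_apply, LinearMap.sum_apply, LinearMap.smul_apply, map_add,
    map_sum, co_X, co_bc, Finsupp.add_apply, lift_apply, finsetSum_apply]
  refine congrArg _ (Finset.sum_congr rfl fun j _ => ?_)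
  rcases exp_cases j m with h | ⟨m, rfl⟩
  · rw [up_apply0 _ h, up_apply0 _ h, map_zero]
  · rw [up_apply1, up_apply1, lift_apply]

lemma tmul_one_mul (f : MvPolynomial σ ℚ) (x : MvPolynomial σ ℚ ⊗[ℚ] K) :
    f ⊗ₜ 1 * x = f • x := (Algebra.smul_def f x).symm

variable {d c}

lemma cartan_sq (h1 : d * d = 0) (h2 : ∀ j, d * c j + c j * d = 0)
    (h3 : ∀ i j, c i * c j + c j * c i = 0) : cartan d c * cartan d c = 0 := by
  let bc := Module.End.baseChangeHom ℚ (MvPolynomial σ ℚ) K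
  refine sq_zero (δ := bc d) (Y := fun j => (X j : MvPolynomial σ ℚ) • bc (c j)) ?_ (fun j => ?_)
    fun i j => ?_
  · rw [← map_mul, h1, map_zero]
  · rw [mul_smul_comm, smul_mul_assoc, ← smul_add, ← map_mul, ← map_mul, ← map_add, h2, map_zero,
      smul_zero]
  · rw [smul_mul_smul_comm, smul_mul_smul_comm, mul_comm (X j), ← smul_add, ← map_mul, ← map_mul,
      ← map_add, h3, map_zero, smul_zero]

lemma cartan_leibniz {a b : K} {r : ℚ} (h1 : d (a * b) = d a * b + r • (a * d b))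
    (h2 : ∀ j, c j (a * b) = c j a * b + r • (a * c j b)) : cartan d c (1 ⊗ₜ (a * b))
      = cartan d c (1 ⊗ₜ a) * (1 ⊗ₜ b) + r • ((1 ⊗ₜ a) * cartan d c (1 ⊗ₜ b)) := by
  simp only [cartan_tmul, h1, h2, tmul_add, tmul_smul, add_mul, mul_add, Finset.sum_mul,
    Finset.mul_sum, Algebra.TensorProduct.tmul_mul_tmul, mul_one, one_mul, smul_add,
    Finset.smul_sum, Finset.sum_add_distrib]
  abel

end borel

namespace Setup

variable {S : Setup σ ι M}

lemma exists_prim (h : S.tot = ⊤) {d0 : ℕ} (van : ∀ (T : Finset ι) p, d0 < p →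
      ∀ x ∈ ⨆ u ∈ T, S.A u p, S.d x = 0 → ∃ y ∈ ⨆ u ∈ T, S.A u (p + 1), S.d y = x) (i : σ) :
    ∃ w : (σ →₀ ℕ) →₀ Module.End ℚ M, (∀ m, ∃ p φ, w m = S.κ p φ) ∧ ∀ m, S.ad S.d (w m) +
      ∑ j, S.ad (S.l j) (up _ j w m) = if single i (d0 + 1) = m then 1 else 0 := by
  obtain ⟨k, hk⟩ : ∃ k, k = d0 + 1 := ⟨_, rfl⟩
  rw [← hk]
  obtain ⟨ψ, hψ⟩ := exists_fac (S.Δ ∘ₗ (S.N Finset.univ Set.univ (2 * k)).subtype)
    (S.e ∘ₗ lapply (single i k) ∘ₗ (S.N Finset.univ Set.univ (2 * k)).subtype)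
    fun c hc => e_cycle h van (by omega) c.2 hc _
  let w : (σ →₀ ℕ) →₀ Module.End ℚ M := ofSupportFinite
    (fun m => if degree m < k then S.κ (2 * (k - degree m - 1) + 1) (ψ ∘ₗ lsingle m) else 0)
    ((finite_of_degree_lt k).subset fun m hm => by_contra fun H => hm (if_neg H))
  have w1 : ∀ m r, degree m + r + 1 = k → w m = S.κ (2 * r + 1) (ψ ∘ₗ lsingle m) := fun m r hm => by
    rw [← show k - degree m - 1 = r by omega]
    exact if_pos (by omega)
  have w0 : ∀ m, k ≤ degree m → w m = 0 := fun m hm => if_neg (by omega)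
  refine ⟨w, fun m => ?_, fun m => ?_⟩
  · rcases lt_or_ge (degree m) k with H | H
    · exact ⟨_, _, w1 m (k - degree m - 1) (by omega)⟩
    · exact ⟨0, 0, by rw [w0 m H, map_zero]⟩
  rcases lt_or_ge k (degree m) with H | H
  · rw [w0 m H.le, map_zero, zero_add, if_neg (by rintro rfl; simp at H)]
    refine Finset.sum_eq_zero fun j _ => ?_
    rcases exp_cases j m with h1 | ⟨m, rfl⟩
    · rw [up_apply0 _ h1, map_zero]
    · rw [map_add, degree_single] at H
      rw [up_apply1, w0 m (by omega), map_zero]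
  obtain ⟨r, hr⟩ := Nat.exists_eq_add_of_le H
  have h1 : S.ad S.d (w m) = S.κ (2 * r) (ψ ∘ₗ lsingle m ∘ₗ S.d) := by
    cases r with
    | zero =>
      rw [w0 m (by omega), map_zero]
      exact ((κ_ext h fun u y hy => by simp [S.d0 hy]).trans (map_zero _)).symm
    | succ r =>
      rw [w1 m r (by omega), ad_d h, pow_succ, pow_mul]
      simp only [even_two, Even.neg_pow, one_pow, one_mul, neg_neg, one_smul]
      rfl
  have h2 : ∀ j, S.ad (S.l j) (up _ j w m) =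
      S.κ (2 * r) (ψ ∘ₗ low M j ∘ₗ lsingle m ∘ₗ S.l j) := fun j => by
    rcases exp_cases j m with h1 | ⟨m, rfl⟩
    · rw [up_apply0 _ h1, map_zero]
      exact ((κ_ext h fun u y hy => by simp [low_single0 h1]).trans (map_zero _)).symm
    · rw [map_add, degree_single] at hr
      rw [up_apply1, w1 m r (by omega), ad_l h]
      exact κ_ext h fun u y hy => by simp [low_single1, pow_mul]
  simp only [h1, h2, ← map_sum, ← map_add]
  refine (κ_ext h (ψ := if single i k = m then S.e else 0) fun u y hy => ?_).trans ?_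
  · have := hψ ⟨single m y, single_N (by simp) (Set.mem_univ u) hy (by omega)⟩
    simp only [LinearMap.comp_apply, Submodule.subtype_apply, Δ, LinearMap.add_apply,
      LinearMap.sum_apply, Module.End.mul_apply, lift_single, map_add, map_sum, lapply_apply,
      single_apply] at this
    simp only [LinearMap.comp_apply, LinearMap.add_apply, LinearMap.sum_apply, lsingle_apply, this,
      eq_comm (a := m)]
    split_ifs <;> simp
  · split_ifs with H1
    · subst H1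
      obtain rfl : r = 0 := by simpa using hr
      exact κ_one h
    · exact map_zero _

theorem rank_bound (h : S.tot = ⊤) (h4 : 4 ≤ Fintype.card σ) (hne : ∃ x, S.e x ≠ 0) {d0 : ℕ}
    (van : ∀ (T : Finset ι) p, d0 < p → ∀ x ∈ ⨆ u ∈ T, S.A u p, S.d x = 0 →
      ∃ y ∈ ⨆ u ∈ T, S.A u (p + 1), S.d y = x)
    (H : ℕ → Type) [∀ p, AddCommGroup (H p)] [∀ p, Module ℚ (H p)] (θ : ∀ p, M →ₗ[ℚ] H p)
    (hθ : ∀ p, ∀ x ∈ ⨆ u, S.A u p, S.d x = 0 → θ p x = 0 → ∃ y, S.d y = x) :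
    ((4 * Fintype.card σ - 2 * (Fintype.card σ % 2) : ℕ) : Cardinal) ≤
      Cardinal.sum fun p => Module.rank ℚ (H p) := by
  refine le_of_not_gt fun hlt => ?_
  obtain ⟨K, hK, ⟨gr⟩⟩ := exists_graded (fun p => LinearMap.range (S.κ p)) ⟨_, κ_one h⟩
    (by rintro i j _ ⟨φ, rfl⟩ _ ⟨ψ, rfl⟩; exact ⟨_, (κ_mul h).symm⟩)
    (fun i => S.κ i ∘ₗ LinearMap.llcomp ℚ M M ℚ S.e) (by
      rintro i j _ ⟨φ, rfl⟩
      exact κ_e_κ h)
  obtain ⟨𝒜, h𝒜⟩ : ∃ 𝒜 : ℕ → Submodule ℚ K, 𝒜 = fun i =>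
    (LinearMap.range (S.κ i)).comap K.val.toLinearMap := ⟨_, rfl⟩
  rw [← h𝒜] at gr
  have mA : ∀ {i} {a : K}, a ∈ 𝒜 i ↔ ∃ φ, S.κ i φ = a := by
    subst h𝒜
    exact Iff.rfl
  have kK : ∀ i φ, S.κ i φ ∈ K := fun i φ => hK i _ ⟨φ, rfl⟩
  obtain ⟨d, hd⟩ := exists_res 𝒜 (S.ad S.d) fun i a ha => by
    obtain ⟨φ, e⟩ := mA.1 ha
    rw [← e, ad_d h]
    exact kK _ _
  choose c hc using fun j => exists_res 𝒜 (S.ad (S.l j)) fun i a ha => by
    obtain ⟨φ, e⟩ := mA.1 ha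
    cases i with
    | zero => rw [← e, ad_l0 h]; exact zero_mem _
    | succ i => rw [← e, ad_l h]; exact kK _ _
  have d1 : ∀ i, ∀ a ∈ 𝒜 i, d a ∈ 𝒜 (i + 1) := fun i a ha => by
    obtain ⟨φ, e⟩ := mA.1 ha
    exact mA.2 ⟨_, by rw [hd, ← e, ad_d h]⟩
  have lb : ∀ (u) (f : Module.End ℚ K), (∀ a, (f a : Module.End ℚ M) = S.ad u a) → ∀ i, ∀ a ∈ 𝒜 i,
      ∀ b, f (a * b) = f a * b + (-1 : ℚ) ^ i • (a * f b) := fun u f hf i a ha b => by
    obtain ⟨φ, e⟩ := mA.1 ha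
    refine Subtype.ext ?_
    simp only [hf, Subalgebra.coe_add, Subalgebra.coe_mul, Subalgebra.coe_smul, ad_mul h]
    rw [← e, s_κ h, smul_mul_assoc]
  have ac : ∀ (u v) (f g : Module.End ℚ K), (∀ a, (f a : Module.End ℚ M) = S.ad u a) →
      (∀ a, (g a : Module.End ℚ M) = S.ad v a) → S.s * u = -(u * S.s) → S.s * v = -(v * S.s) →
      u * v + v * u = 0 → f * g + g * f = 0 := fun u v f g hf hg hu hv huv =>
    LinearMap.ext fun a => Subtype.ext (by simpa [hf, hg] using ad_ad h hu hv huv a)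
  have dd : d * d = 0 := by
    have := ac _ _ d d hd hd (s_d h) (s_d h) (by rw [dd' h, add_zero])
    rw [← two_smul ℚ] at this
    simpa using this
  have DD := cartan_sq dd (fun j => ac _ _ _ _ hd (hc j) (s_d h) (s_l h j) (dl' h j))
    fun i j => ac _ _ _ _ (hc i) (hc j) (s_l h i) (s_l h j) (ll' h i j)
  have hL : ∀ i j, ∀ a ∈ 𝒜 i, ∀ b ∈ 𝒜 j, cartan d c (1 ⊗ₜ (a * b)) = cartan d c (1 ⊗ₜ a) * (1 ⊗ₜ b)
      + (-1 : ℚ) ^ i • ((1 ⊗ₜ a) * cartan d c (1 ⊗ₜ b)) := fun i j a ha b _ =>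
    cartan_leibniz (lb _ d hd i a ha b) fun j => lb _ _ (hc j) i a ha b
  have hk : Kills (cartan d c) (cartan d c) 1 (d0 + 1) := fun i x hx => by
    obtain ⟨w, w1, w2⟩ := exists_prim h van i
    have w3 : ∀ m, w m ∈ K := fun m => by
      obtain ⟨p, φ, e⟩ := w1 m
      exact e ▸ kK p φ
    let w' : (σ →₀ ℕ) →₀ K := onFinset w.support (fun m => ⟨w m, w3 m⟩)
      fun m hm => mem_support_iff.2 fun e => hm (Subtype.ext e)
    have w4 : ∀ j m, (up K j w' m : Module.End ℚ M) = up _ j w m := fun j m => by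
      rcases exp_cases j m with h1 | ⟨m, rfl⟩
      · rw [up_apply0 _ h1, up_apply0 _ h1, Subalgebra.coe_zero]
      · rw [up_apply1, up_apply1]
        rfl
    have w5 : cartan d c ((co σ K).symm w') = (X i ^ (d0 + 1) : MvPolynomial σ ℚ) ⊗ₜ 1 := by
      refine (co σ K).injective (Finsupp.ext fun m => Subtype.ext ?_)
      rw [co_cartan, LinearEquiv.apply_symm_apply, co_tmul, coeff_X_pow]
      simp only [Subalgebra.coe_add, AddSubmonoidClass.coe_finsetSum, hd, hc, w4]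
      refine (w2 m).trans ?_
      split_ifs <;> simp
    refine ⟨(co σ K).symm w' * x, ?_⟩
    rw [leibniz hL, hx, mul_zero, add_zero, w5, one_mul, tmul_one_mul]
  -- the cohomology of the cap operators
  have pr : ∀ i (a : K), (GradedAlgebra.proj 𝒜 i a : Module.End ℚ M) = S.κ i (S.e ∘ₗ a) :=
    fun i => DFunLike.congr_fun (K_ext (𝒜 := 𝒜) (f := K.val.toLinearMap ∘ₗ GradedAlgebra.proj 𝒜 i)
      (g := S.κ i ∘ₗ LinearMap.llcomp ℚ M M ℚ S.e ∘ₗ K.val.toLinearMap) fun j a ha => by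
        obtain ⟨φ, e⟩ := mA.1 ha
        change (GradedAlgebra.proj 𝒜 i a : Module.End ℚ M) = S.κ i (S.e ∘ₗ a)
        rw [← e, κ_e_κ h, e]
        split_ifs with H
        · rw [← H, proj_same ha]
        · rw [proj_ne ha H, Subalgebra.coe_zero])
  have dp : ∀ i a, d (GradedAlgebra.proj 𝒜 i a) = GradedAlgebra.proj 𝒜 (i + 1) (d a) := fun i =>
    DFunLike.congr_fun (K_ext (𝒜 := 𝒜) (f := d ∘ₗ GradedAlgebra.proj 𝒜 i)
      (g := GradedAlgebra.proj 𝒜 (i + 1) ∘ₗ d) fun j a ha => by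
        by_cases H : j = i
        · subst H
          simp only [LinearMap.comp_apply, proj_same ha, proj_same (d1 j a ha)]
        · simp only [LinearMap.comp_apply, proj_ne ha H, map_zero,
            proj_ne (d1 j a ha) (show j + 1 ≠ i + 1 by omega)])
  let Ψ : K →ₗ[ℚ] Module.Dual ℚ (LinearMap.ker S.d) :=
    LinearMap.lcomp ℚ ℚ (LinearMap.ker S.d).subtype ∘ₗ LinearMap.llcomp ℚ M M ℚ S.e ∘ₗ
      K.val.toLinearMap
  have fin : ∀ p, Module.Finite ℚ (H p) := fun p => Module.rank_lt_aleph0_iff.1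
    (((Cardinal.le_sum _ p).trans_lt hlt).trans Cardinal.natCast_lt_aleph0)
  obtain ⟨W, _, _, Ξ, hW, hΞ⟩ :=
    exists_sum H fun p => θ p ∘ₗ S.pj p ∘ₗ (LinearMap.ker S.d).subtype
  have rk := rank_hom_le d Ψ Ξ (fun T hT => mem_of_proj 𝒜 (P := (LinearMap.range Ξ).comap Ψ)
    fun i => by
      obtain ⟨φ, e⟩ := mA.1 (proj_mem (𝒜 := 𝒜) i T)
      have h1 : S.ad S.d (S.κ i φ) = 0 := by
        rw [e, ← hd, dp, hT, map_zero, Subalgebra.coe_zero]
      refine hΞ i _ fun z hz => ?_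
      obtain ⟨y, hy⟩ := hθ i _ (pj_mem' h z.1) (d_pj h z.2) hz
      change S.e ((GradedAlgebra.proj 𝒜 i T : Module.End ℚ M) z) = 0
      rw [← e, ← e_κ_pj h, ← hy, e_of_ad h h1])
    fun T hT => mem_of_proj 𝒜 fun i => by
      obtain ⟨ψ, hψ⟩ := exists_fac S.d (S.e ∘ₗ T) fun x hx => DFunLike.congr_fun hT ⟨x, hx⟩
      cases i with
      | zero =>
        refine ⟨0, Subtype.ext ?_⟩
        rw [pr, map_zero, κ_ext h (ψ := 0) fun u y hy => by rw [← hψ, S.d0 hy, map_zero]; rfl,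
          map_zero, Subalgebra.coe_zero]
      | succ i =>
        refine ⟨⟨_, kK i (-(-1 : ℚ) ^ i • ψ)⟩, Subtype.ext ?_⟩
        rw [hd, pr, ad_d h]
        exact κ_ext h fun u y hy => by simp [hψ, ← mul_assoc, ← mul_pow]
  rw [hW] at rk
  haveI := Module.rank_lt_aleph0_iff.1 ((rk.trans_lt hlt).trans Cardinal.natCast_lt_aleph0)
  haveI : Nontrivial M := hne.elim fun x hx => ⟨x, 0, fun e => hx (by rw [e, map_zero])⟩
  have key := dga_bound (𝒜 := 𝒜) h4 (D := cartan d c) (fun i a ha => by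
    rw [cartan_tmul]
    refine add_mem (Submodule.subset_span ⟨0, i + 1, _, d1 i a ha, by simp, rfl⟩)
      (sum_mem fun j _ => ?_)
    obtain ⟨φ, e⟩ := mA.1 ha
    cases i with
    | zero =>
      rw [show c j a = 0 from Subtype.ext (by rw [hc, ← e, ad_l0 h]; rfl), tmul_zero]
      exact zero_mem _
    | succ i =>
      exact Submodule.subset_span ⟨single j 1, i, _, mA.2 ⟨_, by rw [hc, ← e, ad_l h]⟩,
        by rw [← degree_eq_sum, degree_single]; omega, rfl⟩) hL DD (d := d)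
    (fun a => by simp [cartan_tmul, eps_tmul]) hk
  have := rk.trans_lt hlt
  rw [← Module.finrank_eq_rank, Nat.cast_lt] at this
  omega

end Setup

end Pool.Agent.ToralSp
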