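import Mathlib

/-! The algebraic data extracted from the small singular chains of a space with a torus action. -/

namespace Pool.Agent.ToralSp

/-- Chains `A u p` of degree `p` in the member `u` of a cover, with boundary `d`, circle operators
`l`, sign `s`, degree projections `pj`, augmentation `e` and cap products `κ`. -/
structure Setup (σ ι M : Type) [DecidableEq σ] [AddCommGroup M] [Module ℚ M] where
  A : ι → ℕ → Submodule ℚ M
  d : Module.End ℚ M
  l : σ → Module.End ℚ M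
  s : Module.End ℚ M
  pj : ℕ → Module.End ℚ M
  e : M →ₗ[ℚ] ℚ
  κ : ℕ → (M →ₗ[ℚ] ℚ) →ₗ[ℚ] Module.End ℚ M
  dA : ∀ {u p x}, x ∈ A u p → d x ∈ A u (p - 1)
  d0 : ∀ {u x}, x ∈ A u 0 → d x = 0
  lA : ∀ {u p x} j, x ∈ A u p → l j x ∈ A u (p + 1)
  sA : ∀ {u p x}, x ∈ A u p → s x = (-1 : ℚ) ^ p • x
  pA : ∀ {u p x} q, x ∈ A u p → pj q x = if p = q then x else 0
  eA : ∀ {u p x}, x ∈ A u (p + 1) → e x = 0
  ed : ∀ {u x}, x ∈ A u 1 → e (d x) = 0
  dd : ∀ {u p x}, x ∈ A u p → d (d x) = 0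
  dl : ∀ {u p x} j, x ∈ A u p → d (l j x) + l j (d x) = 0
  ll : ∀ {u p x} i j, x ∈ A u p → l i (l j x) + l j (l i x) = 0
  κA : ∀ {u n x} p φ, x ∈ A u n → κ p φ x ∈ A u (n - p)
  κ0 : ∀ {u n x p} φ, x ∈ A u n → n < p → κ p φ x = 0
  κe : ∀ {u p x} φ, x ∈ A u p → e (κ p φ x) = φ x
  κc : ∀ {u n x p φ}, (∀ y ∈ A u p, φ y = 0) → x ∈ A u n → κ p φ x = 0
  κ1 : ∀ {u n x}, x ∈ A u n → κ 0 e x = x
  κκ : ∀ {u n x} p q φ ψ, x ∈ A u n → κ q ψ (κ p φ x) = κ (p + q) (ψ ∘ₗ κ p φ) x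
  κd : ∀ {u n x} p φ, x ∈ A u n →
    d (κ p φ x) = (-1 : ℚ) ^ p • (κ p φ (d x) - κ (p + 1) (φ ∘ₗ d) x)
  κl0 : ∀ {u n x} j φ, x ∈ A u n → κ 0 φ (l j x) = l j (κ 0 φ x)
  κl : ∀ {u n x} j p φ, x ∈ A u n → κ (p + 1) φ (l j x) =
    (-1 : ℚ) ^ (p + 1) • l j (κ (p + 1) φ x) + κ p (φ ∘ₗ l j) x
  ang : ∀ u j, ∃ φ : M →ₗ[ℚ] ℚ, (∀ y ∈ A u 2, φ (d y) = 0) ∧
    ∀ i, ∀ y ∈ A u 0, φ (l i y) = if i = j then e y else 0

namespace Setup

variable {σ ι M : Type} [DecidableEq σ] [AddCommGroup M] [Module ℚ M] (S : Setup σ ι M)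

/-- All small chains. -/
def tot : Submodule ℚ M := ⨆ u, ⨆ p, S.A u p

variable {S}

lemma mem_tot {u p x} (h : x ∈ S.A u p) : x ∈ S.tot :=
  Submodule.mem_iSup_of_mem u (Submodule.mem_iSup_of_mem p h)

lemma κcongr {u n x p} {φ ψ : M →ₗ[ℚ] ℚ} (h : ∀ y ∈ S.A u p, φ y = ψ y) (hx : x ∈ S.A u n) :
    S.κ p φ x = S.κ p ψ x := by
  have := S.κc (p := p) (φ := φ - ψ) (fun y hy => by simp [h y hy]) hx
  rwa [map_sub, LinearMap.sub_apply, sub_eq_zero] at this

lemma pj_mem {u p x} (q : ℕ) (h : x ∈ S.A u p) : S.pj q x ∈ S.A u p := by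
  rw [S.pA q h]
  split_ifs
  exacts [h, zero_mem _]

variable (S)

/-- A retraction onto the small chains. -/
noncomputable def π : M →ₗ[ℚ] S.tot :=
  (S.tot.subtype.exists_leftInverse_of_injective S.tot.ker_subtype).choose

lemma π_coe (x : S.tot) : S.π x = x :=
  DFunLike.congr_fun (S.tot.subtype.exists_leftInverse_of_injective S.tot.ker_subtype).choose_spec x

/-- Restriction of operators. -/
noncomputable def R : Module.End ℚ M →ₗ[ℚ] Module.End ℚ S.tot :=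
  (LinearMap.llcomp ℚ _ _ _ S.π) ∘ₗ LinearMap.lcomp ℚ M S.tot.subtype

variable {S}

lemma R_def (T : Module.End ℚ M) (x : S.tot) : S.R T x = S.π (T x) := rfl

lemma coe_π {u p x} (h : x ∈ S.A u p) : (S.π x : M) = x :=
  congrArg Subtype.val (S.π_coe ⟨x, mem_tot h⟩)

lemma R_coe {T : Module.End ℚ M} {x : S.tot} {u p} (h : T x ∈ S.A u p) : (S.R T x : M) = T x :=
  coe_π h

lemma mc {u p} {x : S.tot} (h : x ∈ (S.A u p).comap S.tot.subtype) : (x : M) ∈ S.A u p := h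

variable (S)

/-- The data restricted to the small chains. -/
noncomputable def res : Setup σ ι S.tot where
  A u p := (S.A u p).comap S.tot.subtype
  d := S.R S.d
  l j := S.R (S.l j)
  s := S.R S.s
  pj q := S.R (S.pj q)
  e := S.e ∘ₗ S.tot.subtype
  κ p := S.R ∘ₗ S.κ p ∘ₗ LinearMap.lcomp ℚ ℚ S.π
  dA h := show ((S.R _ _ : S.tot) : M) ∈ _ from R_coe (S.dA h) ▸ S.dA h
  d0 h := by rw [R_def, S.d0 (mc h), map_zero]
  lA j h := show ((S.R _ _ : S.tot) : M) ∈ _ from R_coe (S.lA j h) ▸ S.lA j h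
  sA h := by rw [R_def, S.sA (mc h), map_smul, π_coe]
  pA q h := by
    rw [R_def, S.pA q (mc h)]
    split_ifs
    exacts [S.π_coe _, map_zero _]
  eA h := S.eA h
  ed h := (congrArg S.e (R_coe (S.dA h))).trans (S.ed h)
  dd h := by rw [R_def, R_coe (S.dA (mc h)), S.dd (mc h), map_zero]
  dl j h := by
    rw [R_def, R_def _ (S.R _ _), R_coe (S.dA (mc h)), R_coe (S.lA j (mc h)), ← map_add,
      S.dl j (mc h), map_zero]
  ll i j h := by
    rw [R_def, R_def _ (S.R _ _), R_coe (S.lA i (mc h)), R_coe (S.lA j (mc h)), ← map_add,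
      S.ll i j (mc h), map_zero]
  κA p φ h := show ((S.R _ _ : S.tot) : M) ∈ _ from R_coe (S.κA p _ h) ▸ S.κA p _ h
  κ0 φ h hp := (congrArg S.π (S.κ0 _ h hp)).trans (map_zero _)
  κe φ h := (congrArg S.e (R_coe (S.κA _ _ h))).trans ((S.κe _ h).trans (congrArg φ (S.π_coe _)))
  κc hφ h := (congrArg S.π (S.κc (fun y hy => hφ _ (show (S.π y : M) ∈ _ from
    (coe_π hy).symm ▸ hy)) h)).trans (map_zero _)
  κ1 h := (congrArg S.π ((κcongr (φ := (S.e ∘ₗ S.tot.subtype) ∘ₗ S.π)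
    (fun y hy => congrArg S.e (coe_π hy)) h).trans (S.κ1 h))).trans (S.π_coe _)
  κκ p q φ ψ h := by
    refine congrArg S.π ((congrArg _ (R_coe (S.κA p _ h))).trans ((S.κκ p q _ _ h).trans
      (κcongr (fun y hy => congrArg ψ ?_) h)))
    exact congrArg S.π (congrArg _ (coe_π hy).symm)
  κd p φ h := by
    refine (congrArg S.π ((congrArg _ (R_coe (S.κA p _ h))).trans (S.κd p _ h))).trans ?_
    rw [map_smul, map_sub]
    congr 2
    · exact congrArg S.π (congrArg _ (R_coe (S.dA h)).symm)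
    · refine congrArg S.π (κcongr (fun y hy => congrArg φ ?_) h)
      exact congrArg S.π (congrArg _ (coe_π hy).symm)
  κl0 j φ h := congrArg S.π ((congrArg _ (R_coe (S.lA j h))).trans ((S.κl0 j _ h).trans
    (congrArg _ (R_coe (S.κA 0 _ h)).symm)))
  κl j p φ h := by
    refine (congrArg S.π ((congrArg _ (R_coe (S.lA j h))).trans (S.κl j p _ h))).trans ?_
    rw [map_add, map_smul]
    refine congrArg₂ (· + ·) (congrArg _ ?_) ?_
    · exact congrArg S.π (congrArg _ (R_coe (S.κA _ _ h)).symm)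
    · refine congrArg S.π (κcongr (fun y hy => congrArg φ ?_) h)
      exact congrArg S.π (congrArg _ (coe_π hy).symm)
  ang u j := by
    obtain ⟨φ, h1, h2⟩ := S.ang u j
    exact ⟨φ ∘ₗ S.tot.subtype, fun y hy => (congrArg φ (R_coe (S.dA hy))).trans (h1 _ hy),
      fun i y hy => (congrArg φ (R_coe (S.lA i hy))).trans (h2 i _ hy)⟩

lemma res_top : S.res.tot = ⊤ := by
  refine Submodule.map_injective_of_injective S.tot.injective_subtype ?_
  rw [Submodule.map_subtype_top]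
  refine (Submodule.map_iSup _ _).trans (iSup_congr fun u => ?_)
  rw [Submodule.map_iSup]
  exact iSup_congr fun p => Submodule.map_comap_eq_of_le (by
    rw [Submodule.range_subtype]
    exact fun x hx => mem_tot hx)

end Setup

end Pool.Agent.ToralSp
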