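import Pool.Agent.Lib.MP_238ec1_gt.Grade

/-!
The main estimate for a retract of a differential algebra.
-/

set_option linter.unusedVariables false
set_option linter.unusedSectionVars false
set_option linter.style.haveILetI false

namespace Pool.Agent.Toral

open MvPolynomial Module

section Half

variable {A : Type*} [Ring A] [Algebra ℚ A] {S T : A}

/-- The projection attached to an involution. -/
def half (S : A) : A := (1 / 2 : ℚ) • (1 + S)

theorem half_add : half S + half (-S) = 1 := by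
  rw [half, half, ← smul_add, show 1 + S + (1 + -S) = (2 : ℚ) • (1 : A) by rw [two_smul]; abel,
    smul_smul]
  norm_num

theorem mul_half (h : S * S = 1) : S * half S = half S := by
  rw [half, mul_smul_comm, mul_add, h, mul_one, add_comm]

theorem half_half (h : S * S = 1) : half S * half S = half S := by
  nth_rewrite 1 [half]
  rw [smul_mul_assoc, add_mul, one_mul, mul_half h, ← two_smul ℚ, smul_smul]
  norm_num

theorem half_comm {S' : A} (h : T * S = S' * T) : T * half S = half S' * T := by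
  rw [half, half, mul_smul_comm, smul_mul_assoc, mul_add, add_mul, h, mul_one, one_mul]

theorem neg_inv (h : S * S = 1) : -S * -S = 1 := by rw [neg_mul_neg, h]

theorem comm_neg (h : T * S = S * T) : T * -S = -S * T := by rw [mul_neg, neg_mul, h]

theorem anti_neg (h : T * S = -S * T) : T * -S = S * T := by rw [mul_neg, h, neg_mul, neg_neg]

theorem comm_pert {D d s : A} (h1 : D * S = -S * D) (h2 : d * S = -S * d) (h3 : s * S = -S * s) :
    S * (1 + (D - d) * s) = (1 + (D - d) * s) * S := by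
  calc S * (1 + (D - d) * s) = S - (-S * D - -S * d) * s := by noncomm_ring
    _ = S + (D - d) * (-S * s) := by rw [← h1, ← h2]; noncomm_ring
    _ = _ := by rw [← h3]; noncomm_ring

theorem idem_mul {e p : A} (ee : e * e = e) (pp : p * p = p) (ep : e * p = p * e) :
    e * p * (e * p) = e * p := by
  rw [mul_assoc, ← mul_assoc _ e, ← ep, mul_assoc, pp, ← mul_assoc, ee]

end Half

theorem side {C M F F' : Type*} [CommRing C] [AddCommGroup M] [Module C M] [AddCommGroup F]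
    [Module C F] [AddCommGroup F'] [Module C F'] {D s U E P P' I : Module.End C M}
    {j : F →ₗ[C] M} {r : M →ₗ[C] F} {j' : F' →ₗ[C] M} {r' : M →ₗ[C] F'}
    (hI : I = (1 - s * U * D) * E) (p1 : E * U * I = E) (p2 : E * U * D = E * U * D * (E * U))
    (p3 : D * I = I * (E * U * D * E)) (EE : E * E = E) (PP' : P + P' = 1) (PP : P * P = P)
    (EP : E * P = P * E) (UP : U * P = P * U) (DP : D * P = P' * D) (sP : s * P' = P * s)
    (jr : ∀ x, j (r x) = E (P x)) (rj : ∀ x, r (j x) = x) (jr' : ∀ x, j' (r' x) = E (P' x))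
    (rj' : ∀ x, r' (j' x) = x) :
    (∀ x, D (I (j x)) = I (j' (r' (U (D (j x)))))) ∧
      (∀ y, r' (U (D y)) = r' (U (D (j (r (U y)))))) ∧ (∀ x, r (U (I (j x))) = x) ∧
      (∀ x, P (I (j x)) = I (j x)) ∧ ∀ x, E (j x) = j x := by
  obtain rfl : P' = 1 - P := eq_sub_of_add_eq' PP'
  have h0 : ∀ x, E (P (j x)) = j x := fun x => by rw [← jr, rj]
  have hE : ∀ x, E (j x) = j x := fun x => by
    rw [← h0 x]
    exact DFunLike.congr_fun EE _
  have hP : ∀ x, P (j x) = j x := fun x => by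
    rw [← h0 x]
    exact DFunLike.congr_fun (show P * E * P = E * P by rw [← EP, mul_assoc, PP]) _
  have inj : ∀ x y, j x = j y → x = y := fun x y h => by rw [← rj x, h, rj]
  have inj' : ∀ x y, j' x = j' y → x = y := fun x y h => by rw [← rj' x, h, rj']
  have k1 : (1 - P) * U * D = U * D * P := by
    rw [mul_assoc U, DP, ← mul_assoc, mul_sub, sub_mul 1, UP, mul_one, one_mul]
  have k2 : P * (E * U) = E * P * U := by rw [← mul_assoc, EP]
  refine ⟨fun x => ?_, fun y => inj' _ _ ?_, fun x => inj _ _ ?_, fun x => ?_, hE⟩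
  · rw [jr']
    have h1 := DFunLike.congr_fun p3 (j x)
    have h2 := DFunLike.congr_fun k1 (j x)
    simp only [Module.End.mul_apply, hE, hP] at h1 h2
    rw [h1, h2]
  · rw [jr', jr', jr]
    refine DFunLike.congr_fun (show E * (1 - P) * U * D = E * (1 - P) * U * D * E * P * U from ?_) y
    have k3 : E * (1 - P) = (1 - P) * E := by rw [mul_sub, sub_mul, EP, mul_one, one_mul]
    calc E * (1 - P) * U * D = (1 - P) * (E * U * D) := by rw [k3]; noncomm_ring
      _ = (1 - P) * E * U * D * (E * U) := by rw [p2]; noncomm_ring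
      _ = E * ((1 - P) * U * D) * (E * U) := by rw [← k3]; noncomm_ring
      _ = E * (U * D * (P * P)) * (E * U) := by rw [k1, PP]
      _ = E * (U * D * P) * (P * (E * U)) := by noncomm_ring
      _ = _ := by rw [← k1, k2]; noncomm_ring
  · rw [jr]
    have h1 : E * P * U * I = P * E := by
      rw [EP, mul_assoc, mul_assoc, ← mul_assoc E, p1]
    exact (DFunLike.congr_fun h1 (j x)).trans (by rw [Module.End.mul_apply, hE, hP])
  · have h1 : P * I = I * P := by
      calc P * I = P * E - P * s * U * D * E := by rw [hI]; noncomm_ring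
        _ = E * P - s * ((1 - P) * U * D) * E := by rw [← sP, EP]; noncomm_ring
        _ = E * P - s * U * D * (P * E) := by rw [k1]; noncomm_ring
        _ = _ := by rw [← EP, hI]; noncomm_ring
    exact (DFunLike.congr_fun h1 (j x)).trans (by rw [Module.End.mul_apply, hP])

variable {σ : Type} [Fintype σ] [DecidableEq σ]

variable {F0 F1 : Type*} [AddCommGroup F0] [Module (MvPolynomial σ ℚ) F0] [AddCommGroup F1]
  [Module (MvPolynomial σ ℚ) F1] [Module.Free (MvPolynomial σ ℚ) F0]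
  [Module.Finite (MvPolynomial σ ℚ) F0] [Module.Free (MvPolynomial σ ℚ) F1]
  [Module.Finite (MvPolynomial σ ℚ) F1]

theorem stage (h4 : 4 ≤ Fintype.card σ) {B : Type*} [Ring B] [Algebra (MvPolynomial σ ℚ) B]
    {D : B →ₗ[MvPolynomial σ ℚ] B} (DD : ∀ x, D (D x) = 0) {η : MvPolynomial σ ℚ} {n : ℕ}
    (hη : constantCoeff η ≠ 0) (hk : Kills D D η (n + 1))
    (ι0 : F0 →ₗ[MvPolynomial σ ℚ] B) (ι1 : F1 →ₗ[MvPolynomial σ ℚ] B)
    (ρ0 : B →ₗ[MvPolynomial σ ℚ] F0) (ρ1 : B →ₗ[MvPolynomial σ ℚ] F1)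
    (d0 : F0 →ₗ[MvPolynomial σ ℚ] F1) (d1 : F1 →ₗ[MvPolynomial σ ℚ] F0)
    (a0 : ∀ x, D (ι0 x) = ι1 (d0 x)) (a1 : ∀ x, D (ι1 x) = ι0 (d1 x))
    (b0 : ∀ y, ρ0 (D y) = d1 (ρ1 y)) (b1 : ∀ y, ρ1 (D y) = d0 (ρ0 y))
    (c0 : ∀ x, ρ0 (ι0 x) = x) (c1 : ∀ x, ρ1 (ι1 x) = x)
    (L0 : ∀ x y, D (ι0 x * y) = D (ι0 x) * y + ι0 x * D y)
    (L1 : ∀ x y, D (ι1 x * y) = D (ι1 x) * y - ι1 x * D y)
    (cm : ∀ x y, ι0 x * y = y * ι0 x) (m0 : ∀ x, d0 x ∈ mSub σ F1) (m1 : ∀ x, d1 x ∈ mSub σ F0)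
    {z0 : F0} (hz : ι0 z0 = 1) (o : B →ₗ[MvPolynomial σ ℚ] MvPolynomial σ ℚ)
    (ho : ∀ y, o (D y) = 0) (hω : (∃ ω, o (ι0 ω) = 1) ∨ ∃ ω, o (ι1 ω) = 1) :
    4 * Fintype.card σ ≤ finrank (MvPolynomial σ ℚ) F0 + finrank (MvPolynomial σ ℚ) F1
      + 2 * (Fintype.card σ % 2) := by
  have dd0 : ∀ x, d1 (d0 x) = 0 := fun x => by rw [← c0 (d1 _), ← a1, ← a0, DD, map_zero]
  have dd1 : ∀ x, d0 (d1 x) = 0 := fun x => by rw [← c1 (d0 _), ← a0, ← a1, DD, map_zero]
  have k0 : Kills d0 d1 η (n + 1) := fun i x hx => by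
    obtain ⟨y, hy⟩ := hk i (ι0 x) (by rw [a0, hx, map_zero])
    exact ⟨ρ1 y, by rw [← b0, hy, map_smul, c0]⟩
  have k1 : Kills d1 d0 η (n + 1) := fun i x hx => by
    obtain ⟨y, hy⟩ := hk i (ι1 x) (by rw [a1, hx, map_zero])
    exact ⟨ρ0 y, by rw [← b1, hy, map_smul, c1]⟩
  have D1 : D 1 = 0 := by
    have := L0 z0 1
    rw [hz, mul_one, mul_one, one_mul] at this
    exact left_eq_add.1 this
  have z1 : d0 z0 = 0 := by rw [← c1 (d0 _), ← a0, hz, D1, map_zero]
  let μ := (LinearMap.mul (MvPolynomial σ ℚ) B).compr₂ o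
  rcases hω with ⟨ω, hω⟩ | ⟨ω, hω⟩
  · have h1 : μ.compl₁₂ ι0 ι0 z0 ω = 1 := by simpa [μ, hz] using hω
    refine (abs_even (e0 := (μ.compl₁₂ ι0 ι0).flip ω) h4 hη k0 k1 dd0 dd1
      (fun y => cc_mSub (map_mSub _ (m1 y))) z1 (by rw [LinearMap.flip_apply, h1]; simp)
      (μ.compl₁₂ ι0 ι0) (μ.compl₁₂ ι1 ι1) (fun x y => ?_) (fun x => by simp [μ, hz])
      (fun y => ?_) h1 (mem_mSub.1 (m0 ω))).trans (Nat.le_add_right _ _)
    · have := ho (ι0 x * ι1 y)
      rw [L0, a0, a1, map_add] at this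
      exact eq_neg_of_add_eq_zero_right this
    · have := ho (ι1 y * ι0 ω)
      rw [L1, a0, a1, map_sub] at this
      exact (sub_eq_zero.1 this).symm
  · have h1 : μ.compl₁₂ ι0 ι1 z0 ω = 1 := by simpa [μ, hz] using hω
    refine abs_odd (e0 := (μ.compl₁₂ ι0 ι1).flip ω) h4 hη k0 k1 dd0 dd1
      (fun y => cc_mSub (map_mSub _ (m1 y))) z1 (by rw [LinearMap.flip_apply, h1]; simp)
      (μ.compl₁₂ ι1 ι0) (μ.compl₁₂ ι0 ι1) (fun x y => ?_) (fun x y => congrArg o (cm x _))
      (fun y => ?_) h1 (mem_mSub.1 (m1 ω))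
    · have := ho (ι0 x * ι0 y)
      rw [L0, a0, a0, map_add] at this
      exact eq_neg_of_add_eq_zero_left this
    · have := ho (ι1 y * ι1 ω)
      rw [L1, a1, a1, map_sub] at this
      exact (sub_eq_zero.1 this).symm

end Pool.Agent.Toral
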