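import Pool.Agent.Lib.MP_238ec1_gt.Rank

/-!
Use of a top class and of the pairing given by a product.
-/

set_option linter.unusedVariables false
set_option linter.unusedSectionVars false
set_option linter.style.haveILetI false

namespace Pool.Agent.Toral

open MvPolynomial Module

section General

variable {C M M' : Type*} [CommRing C] [IsDomain C] [IsNoetherianRing C] [AddCommGroup M] [Module C M]
  [AddCommGroup M'] [Module C M']

theorem exists_relation [Module.Finite C M] {J : Type*} [Fintype J] (φ : J → M →ₗ[C] C)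
    {B : Submodule C M} (hB : finrank C B < Fintype.card J) :
    ∃ t : J → C, t ≠ 0 ∧ ∀ y ∈ B, ∑ j, φ j y * t j = 0 := by
  classical
  let Φ : M →ₗ[C] (J → C) := LinearMap.pi φ
  have h1 : finrank C ((J → C) ⧸ B.map Φ) ≠ 0 := by
    have h2 := Submodule.finrank_quotient_add_finrank (B.map Φ)
    have h3 := Submodule.finrank_map_le Φ B
    rw [finrank_fintype_fun_eq_card] at h2
    omega
  rw [Ne, finrank_eq_zero_iff] at h1
  push Not at h1
  obtain ⟨x, hx⟩ := h1
  obtain ⟨θ, hθ⟩ := exists_dual_ne_zero hx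
  let lam := θ ∘ₗ (B.map Φ).mkQ
  let t : J → C := fun o => lam (Pi.single o 1)
  have hlam : ∀ v, lam v = ∑ o, v o * t o := fun v => by
    rw [LinearMap.pi_apply_eq_sum_univ]
    refine Finset.sum_congr rfl fun o _ => ?_
    rw [smul_eq_mul]
    congr 2
    funext j
    simp [Pi.single_apply, eq_comm]
  refine ⟨t, fun h => ?_, fun y hy => ?_⟩
  · obtain ⟨v, rfl⟩ := (B.map Φ).mkQ_surjective x
    apply hθ
    change lam v = 0
    rw [hlam, h]
    simp
  · have h2 : lam (Φ y) = 0 := by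
      change θ (Submodule.Quotient.mk _) = 0
      rw [(Submodule.Quotient.mk_eq_zero _).2 (Submodule.mem_map_of_mem hy), map_zero]
    rwa [hlam] at h2

theorem rank_nullity [Module.Finite C M] (d : M →ₗ[C] M') :
    finrank C (LinearMap.range d) + finrank C (LinearMap.ker d) = finrank C M := by
  rw [← d.quotKerEquivRange.finrank_eq]
  exact Submodule.finrank_quotient_add_finrank _

theorem rank_step [Module.Finite C M] (d : M →ₗ[C] M') (o : M →ₗ[C] C)
    (h : ∀ x, d x = 0 → o x = 0) {ω : M} (hω : o ω ≠ 0) :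
    finrank C ((LinearMap.ker o).map d) + 1 ≤ finrank C (LinearMap.range d) := by
  have h1 := rank_nullity d
  have h2 := rank_nullity o
  have h3 := rank_nullity (d ∘ₗ (LinearMap.ker o).subtype)
  rw [LinearMap.range_comp, Submodule.range_subtype, LinearMap.ker_comp,
    (Submodule.comapSubtypeEquivOfLe (show LinearMap.ker d ≤ LinearMap.ker o from h)).finrank_eq]
    at h3
  have h4 : finrank C (LinearMap.range o) ≠ 0 := by
    rw [Ne, finrank_eq_zero_iff]
    intro h5
    obtain ⟨a, a1, a2⟩ := h5 ⟨o ω, ω, rfl⟩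
    exact mul_ne_zero a1 hω (congrArg Subtype.val a2)
  omega

end General

variable {σ : Type} [Fintype σ] [DecidableEq σ]

theorem indep_of_rel {N : ℕ} {G : σ → σ → MvPolynomial σ ℚ} {η : MvPolynomial σ ℚ}
    (hη : constantCoeff η ≠ 0) (hG : ∀ i, ∑ a, X a * G i a = η * X i ^ (N + 1)) (i0 : σ)
    {s : {j // j ≠ i0} → MvPolynomial σ ℚ}
    (hs : ∀ b, ∑ j, s j * (X i0 ^ (N + 1) * G j b - X j.1 ^ (N + 1) * G i0 b) = 0) : s = 0 := by
  have hdet : (Matrix.of G).det ≠ 0 := det_ne_zero (N := N) hη hG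
  let w : σ → MvPolynomial σ ℚ := fun j =>
    if hj : j = i0 then -∑ j : {j // j ≠ i0}, s j * X j.1 ^ (N + 1) else s ⟨j, hj⟩ * X i0 ^ (N + 1)
  have hw : Matrix.vecMul w (Matrix.of G) = 0 := by
    funext b
    change ∑ j, w j * G j b = 0
    rw [Fintype.sum_eq_add_sum_subtype_ne _ i0, ← hs b]
    simp only [w, dif_pos, neg_mul, Finset.sum_mul]
    rw [neg_add_eq_sub, ← Finset.sum_sub_distrib]
    refine Finset.sum_congr rfl fun j _ => ?_
    rw [dif_neg j.2]
    ring
  funext j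
  have h3 := congrFun (Matrix.eq_zero_of_vecMul_eq_zero hdet hw) j
  simp only [w, dif_neg j.2, Pi.zero_apply, mul_eq_zero] at h3
  exact h3.resolve_right (pow_ne_zero _ (X_ne_zero _))

variable {F0 F1 : Type*} [AddCommGroup F0] [Module (MvPolynomial σ ℚ) F0] [AddCommGroup F1]
  [Module (MvPolynomial σ ℚ) F1]
  {d0 : F0 →ₗ[MvPolynomial σ ℚ] F1} {d1 : F1 →ₗ[MvPolynomial σ ℚ] F0}
  {e0 : F0 →ₗ[MvPolynomial σ ℚ] MvPolynomial σ ℚ} {N : ℕ} {z : F0} {g : σ → F1} {a : σ → σ → F0}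

/-- The homology at `F0` is killed by `η * X i ^ n`. -/
def Kills (d0 : F0 →ₗ[MvPolynomial σ ℚ] F1) (d1 : F1 →ₗ[MvPolynomial σ ℚ] F0)
    (η : MvPolynomial σ ℚ) (n : ℕ) : Prop :=
  ∀ i x, d0 x = 0 → ∃ y, d1 y = (η * X i ^ n : MvPolynomial σ ℚ) • x

theorem Kills.form {η : MvPolynomial σ ℚ} {n : ℕ} (hk : Kills d0 d1 η n)
    (hη : constantCoeff η ≠ 0) (i : σ) {o : F0 →ₗ[MvPolynomial σ ℚ] MvPolynomial σ ℚ}
    (ho : ∀ y, o (d1 y) = 0) (x : F0) (hx : d0 x = 0) : o x = 0 := by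
  obtain ⟨y, hy⟩ := hk i x hx
  have := ho y
  rw [hy, map_smul, smul_eq_mul, mul_eq_zero] at this
  exact this.resolve_left (mul_ne_zero (fun e => hη (by rw [e, map_zero]))
    (pow_ne_zero _ (X_ne_zero _)))

theorem exists_frame {η : MvPolynomial σ ℚ} {n : ℕ} (hη : constantCoeff η ≠ 0)
    (k0 : Kills d0 d1 η (n + 1)) (k1 : Kills d1 d0 η (n + 1)) {z0 : F0} (hz : d0 z0 = 0)
    (he : constantCoeff (e0 z0) ≠ 0) :
    ∃ (N : ℕ) (g : σ → F1) (a : σ → σ → F0) (θ : σ → σ → σ → F1),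
      Frame d0 d1 e0 N ((η ^ 3 : MvPolynomial σ ℚ) • z0) g a ∧
        ∀ i j l, d1 (θ i j l) = syz N a i j l := by
  choose g0 hg0 using fun i => k0 i z0 hz
  choose a0 ha0 using fun i j => k1 i ((X i ^ (n + 1) : MvPolynomial σ ℚ) • g0 j
    - (X j ^ (n + 1) : MvPolynomial σ ℚ) • g0 i) (by
      simp only [map_sub, map_smul, hg0]
      module)
  have f1 : Frame d0 d1 e0 (2 * n + 1) ((η ^ 2 : MvPolynomial σ ℚ) • z0)
      (fun i => (η * X i ^ (n + 1) : MvPolynomial σ ℚ) • g0 i)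
      (fun i j => (X j ^ (n + 1) : MvPolynomial σ ℚ) • a0 i j) :=
    ⟨by simp [hz], by simpa [hη] using he, fun i => by
      simp only [map_smul, hg0]
      module, fun i j => by
      simp only [map_smul, ha0]
      module⟩
  choose θ0 hθ0 using fun i j l => k0 i _ (f1.syz_cycle i j l)
  refine ⟨3 * n + 2, fun i => (η * X i ^ (n + 1) : MvPolynomial σ ℚ) •
      (η * X i ^ (n + 1) : MvPolynomial σ ℚ) • g0 i,
    fun i j => (η * X i ^ (n + 1) * X j ^ (n + 1) : MvPolynomial σ ℚ) •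
      (X j ^ (n + 1) : MvPolynomial σ ℚ) • a0 i j,
    fun i j l => (X j ^ (n + 1) * X l ^ (n + 1) : MvPolynomial σ ℚ) • θ0 i j l,
    ⟨by simp [hz], by simpa [hη] using he, fun i => ?_, fun i j => ?_⟩, fun i j l => ?_⟩
  · simp only [map_smul, hg0]
    module
  · simp only [map_smul, ha0]
    module
  · simp only [map_smul, hθ0, syz]
    module

theorem Frame.top_even (h : Frame d0 d1 e0 N z g a) (hdd : ∀ x, d1 (d0 x) = 0) {i1 i2 i3 : σ}
    (h21 : i2 ≠ i1) (h31 : i3 ≠ i1) (h32 : i3 ≠ i2)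
    {o : F0 →ₗ[MvPolynomial σ ℚ] MvPolynomial σ ℚ} (ho : ∀ x, d0 x = 0 → o x = 0) {ω : F0}
    (hω : o ω = 1) : ∃ (g' : σ → F1) (a' : σ → σ → F0), Frame d0 d1 e0 N z g' a' ∧
      ∀ i j, o (a' i j) = 0 := by
  have hc : ∀ i j l, X i ^ (N + 1) * o (a j l) - X j ^ (N + 1) * o (a i l)
      + X l ^ (N + 1) * o (a i j) = 0 := fun i j l => by
    simpa [syz] using ho _ (h.syz_cycle i j l)
  obtain ⟨b, hb⟩ := cob2 (c := 1) (f := fun i => (X i ^ (N + 1) : MvPolynomial σ ℚ))
    (α := fun i j => o (a i j)) (p1 := fun j => o (a i1 j)) (p2 := fun j => o (a i2 j))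
    (fun b hb => (mul_eq_zero.1 hb).resolve_left (pow_ne_zero _ (X_ne_zero i1)))
    (fun b s hb => by simpa using reg2 h21 hb) (fun b s t hb => by simpa using reg3 h31 h32 hb)
    (hc i1 i2 i3) (hc i1 i2) (hc i1)
  refine ⟨fun i => g i - b i • d0 ω, fun i j => a i j - o (a i j) • ω,
    ⟨h.hz, h.he, fun i => by simp [h.hg, hdd], fun i j => ?_⟩, fun i j => by simp [hω]⟩
  have := hb i j
  simp only [one_pow, one_mul] at this
  simp only [map_sub, map_smul, h.ha, this]
  module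

theorem Frame.top_odd (h : Frame d0 d1 e0 N z g a) (hdd : ∀ y, d0 (d1 y) = 0)
    (he0 : ∀ y, constantCoeff (e0 (d1 y)) = 0) {θ : σ → σ → σ → F1}
    (hθ : ∀ i j l, d1 (θ i j l) = syz N a i j l) {i1 i2 i3 i4 : σ}
    (h21 : i2 ≠ i1) (h31 : i3 ≠ i1) (h32 : i3 ≠ i2) (h41 : i4 ≠ i1) (h42 : i4 ≠ i2) (h43 : i4 ≠ i3)
    {o : F1 →ₗ[MvPolynomial σ ℚ] MvPolynomial σ ℚ} (ho : ∀ y, d1 y = 0 → o y = 0)
    (ho' : ∀ x, o (d0 x) = 0) {ω : F1} (hω : o ω = 1) :
    ∃ (z' : F0) (g' : σ → F1) (a' : σ → σ → F0), Frame d0 d1 e0 N z' g' a' ∧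
      (∀ i, o (g' i) = 0) ∧ ∀ i j l, syz N a' i j l ∈ (LinearMap.ker o).map d1 := by
  have hc : ∀ i j, X i ^ (N + 1) * o (g j) = X j ^ (N + 1) * o (g i) := fun i j => by
    have := ho' (a i j)
    simp only [h.ha, map_sub, map_smul, smul_eq_mul] at this
    linear_combination this
  obtain ⟨β, hβ⟩ := reg2 h21 (hc i2 i1)
  have hβ' : ∀ j, o (g j) = X j ^ (N + 1) * β := fun j =>
    mul_left_cancel₀ (pow_ne_zero (N + 1) (X_ne_zero i1)) (by rw [hc, hβ]; ring)
  obtain ⟨γ, hγ⟩ := cob3 (f := fun i => (X i ^ (N + 1) : MvPolynomial σ ℚ))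
    (κ := fun i j l => o (θ i j l)) i1 i2 i3 i4
    (fun b hb => (mul_eq_zero.1 hb).resolve_left (pow_ne_zero _ (X_ne_zero i1)))
    (fun b s hb => reg2 h21 hb) (fun b s t hb => reg3 h31 h32 hb)
    (fun b s t u hb => reg4 h41 h42 h43 hb) fun i j l m => by
      have := ho ((X i ^ (N + 1) : MvPolynomial σ ℚ) • θ j l m
        - (X j ^ (N + 1) : MvPolynomial σ ℚ) • θ i l m
        + (X l ^ (N + 1) : MvPolynomial σ ℚ) • θ i j m
        - (X m ^ (N + 1) : MvPolynomial σ ℚ) • θ i j l) (by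
          simp only [map_sub, map_add, map_smul, hθ, syz]
          module)
      simpa using this
  refine ⟨z - β • d1 ω, fun i => g i - o (g i) • ω, fun i j => a i j - γ i j • d1 ω,
    ⟨by simp [h.hz, hdd], by simpa [he0] using h.he, fun i => ?_, fun i j => ?_⟩,
    fun i => by simp [hω], fun i j l => ⟨θ i j l - o (θ i j l) • ω, by simp [hω], ?_⟩⟩
  · simp only [map_sub, map_smul, h.hg, hβ']
    module
  · simp only [map_sub, map_smul, h.ha, hβ', hdd]
    module
  · have := hγ i j l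
    simp only [map_sub, map_smul, hθ, this, syz]
    module

theorem Frame.pair_odd [Module.Finite (MvPolynomial σ ℚ) F1] (h : Frame d0 d1 e0 N z g a)
    (P : F1 →ₗ[MvPolynomial σ ℚ] F0 →ₗ[MvPolynomial σ ℚ] MvPolynomial σ ℚ)
    (hP : ∀ x y, P (d0 x) y = -P (d0 y) x) {w : σ → F0} {η : MvPolynomial σ ℚ}
    (hη : constantCoeff η ≠ 0) (hw : ∀ i, ∑ b, X b * P (g i) (w b) = η * X i ^ (N + 1))
    (hev : Even (Fintype.card σ)) (i0 : σ) :
    Fintype.card σ ≤ finrank (MvPolynomial σ ℚ) (LinearMap.range d0) := by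
  classical
  by_contra hcon
  have hc : Fintype.card {j // j ≠ i0} + 1 = Fintype.card σ := by
    rw [Fintype.card_subtype_compl, Fintype.card_subtype_eq]
    have : 0 < Fintype.card σ := Fintype.card_pos_iff.2 ⟨i0⟩
    omega
  have ind : ∀ s : {j // j ≠ i0} → MvPolynomial σ ℚ,
      (∀ b, P (∑ j, s j • d0 (a i0 j)) (w b) = 0) → s = 0 := fun s hs =>
    indep_of_rel (G := fun i b => P (g i) (w b)) hη hw i0 fun b => by
      simpa [h.ha] using hs b
  let Γ : Matrix {j // j ≠ i0} {j // j ≠ i0} (MvPolynomial σ ℚ) :=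
    Matrix.of fun j l => P (d0 (a i0 j)) (a i0 l)
  have hΓ : Γ.det = 0 := by
    have e : Γ.transpose = -Γ := by
      exact Matrix.ext fun j l => hP _ _
    have h1 := Matrix.det_transpose Γ
    rw [e, Matrix.det_neg, Odd.neg_one_pow (by
      rw [← hc, Nat.even_add_one, Nat.not_even_iff_odd] at hev; exact hev)] at h1
    have h2 : (2 : MvPolynomial σ ℚ) * Γ.det = 0 := by linear_combination (-1) * h1
    exact (mul_eq_zero.1 h2).resolve_left two_ne_zero
  obtain ⟨s, s1, s2⟩ := Matrix.exists_vecMul_eq_zero_iff.2 hΓ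
  refine s1 (ind s fun b => ?_)
  have nli : ¬ LinearIndependent (MvPolynomial σ ℚ) fun o : Option {j // j ≠ i0} =>
      (⟨d0 (o.elim (w b) fun j => a i0 j), _, rfl⟩ : LinearMap.range d0) := fun li => by
    have := li.fintype_card_le_finrank
    rw [Fintype.card_option] at this
    omega
  rw [Fintype.not_linearIndependent_iff] at nli
  obtain ⟨t, t1, o, t2⟩ := nli
  have t3 : t none • d0 (w b) + ∑ j, t (some j) • d0 (a i0 j) = 0 := by
    simpa [Fintype.sum_option] using congrArg (LinearMap.range d0).subtype t1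
  have t0 : t none ≠ 0 := fun h0 => by
    rw [h0, zero_smul, zero_add] at t3
    have := ind (fun j => t (some j)) fun b => by rw [t3]; simp
    cases o with
    | none => exact t2 h0
    | some j => exact t2 (congrFun this j)
  have e1 : ∑ j, s j • d0 (a i0 j) = d0 (∑ j, s j • a i0 j) := by simp
  have e2 : ∀ l : {j // j ≠ i0}, P (d0 (a i0 l)) (∑ j, s j • a i0 j) = 0 := fun l => by
    rw [hP, ← e1, neg_eq_zero]
    simpa [Γ, Matrix.vecMul, dotProduct] using congrFun s2 l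
  have e3 := congrArg (fun y => P y (∑ j, s j • a i0 j)) t3
  simp only [map_add, map_smul, LinearMap.add_apply, LinearMap.smul_apply, map_sum P,
    LinearMap.sum_apply, e2, mul_zero, Finset.sum_const_zero, add_zero, map_zero,
    LinearMap.zero_apply, smul_eq_mul, mul_eq_zero] at e3
  rw [e1, hP, e3.resolve_left t0, neg_zero]

theorem Frame.pair_even [Module.Finite (MvPolynomial σ ℚ) F0] (h : Frame d0 d1 e0 N z g a)
    (P0 : F0 →ₗ[MvPolynomial σ ℚ] F0 →ₗ[MvPolynomial σ ℚ] MvPolynomial σ ℚ)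
    (P1 : F1 →ₗ[MvPolynomial σ ℚ] F1 →ₗ[MvPolynomial σ ℚ] MvPolynomial σ ℚ)
    (hP : ∀ x y, P0 x (d1 y) = -P1 (d0 x) y) (ha : ∀ i j, P0 (a i j) z = 0) {w : σ → F1}
    {η : MvPolynomial σ ℚ} (hη : constantCoeff η ≠ 0)
    (hw : ∀ i, ∑ b, X b * P1 (g i) (w b) = η * X i ^ (N + 1)) (i0 : σ) :
    Fintype.card σ ≤ finrank (MvPolynomial σ ℚ) (LinearMap.range d1) := by
  classical
  by_contra hcon
  have hc : Fintype.card {j // j ≠ i0} + 1 = Fintype.card σ := by
    rw [Fintype.card_subtype_compl, Fintype.card_subtype_eq]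
    have : 0 < Fintype.card σ := Fintype.card_pos_iff.2 ⟨i0⟩
    omega
  obtain ⟨t, t1, t2⟩ := exists_relation (J := Option {j // j ≠ i0})
    (fun o => o.elim e0 fun j => P0 (a i0 j)) (B := LinearMap.range d1)
    (by rw [Fintype.card_option]; omega)
  simp only [Fintype.sum_option, Option.elim] at t2
  have t0 : t none = 0 := by
    have h2 := t2 _ ⟨g i0, rfl⟩
    simp only [h.hg, map_smul, ha, smul_eq_mul, mul_zero, zero_mul, Finset.sum_const_zero,
      add_zero, mul_eq_zero] at h2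
    exact h2.resolve_left fun h3 => h3.elim (pow_ne_zero _ (X_ne_zero _))
      fun e => h.he (by rw [e, map_zero])
  have := indep_of_rel (G := fun i b => P1 (g i) (w b)) hη hw i0 (s := fun j => t (some j))
    fun b => by
      have h2 := t2 _ ⟨w b, rfl⟩
      rw [t0, mul_zero, zero_add, ← neg_eq_zero, ← Finset.sum_neg_distrib] at h2
      refine Eq.trans (Finset.sum_congr rfl fun j _ => ?_) h2
      simp only [hP, h.ha, map_sub, map_smul, LinearMap.sub_apply, LinearMap.smul_apply,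
        smul_eq_mul]
      ring
  refine t1 (funext fun o => ?_)
  cases o with
  | none => exact t0
  | some j => exact congrFun this j

end Pool.Agent.Toral
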